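import Pool.Agent.Lib.MP_d7a06f_lc.Cert

/-!
# The families `(3,4,w)`, `w ≥ 36`, and `(3,5,w)`, `w ≥ 30`
-/

namespace Pool.Agent.Lib.MP_d7a06f_lc

def tab34 : List (ℕ × ℕ) :=
  [(2, 1), (2, 1), (2, 1), (2, 1), (2, 1), (1, 3), (1, 3), (1, 3), (1, 3), (1, 3), (1, 3), (2,
    0), (2, 0), (0, 2), (0, 2), (0, 2), (0, 2), (2, 0), (0, 3), (2, 1), (2, 1), (2, 1), (2, 1),
    (0, 3), (0, 3), (1, 0), (1, 0), (1, 0), (1, 0), (1, 0), (1, 0), (0, 2), (0, 2), (0, 2), (0,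
    2), (0, 2)]

theorem upper_3_4_large {w : ℕ} (hw : 36 ≤ w) :
    gameValue 3 4 w ≤ 1 - 1 / (3 : ℕ) - 1 / (4 : ℕ) - 1 / w :=
  phi_upper (u := 3) (v := 4) (N := 36) (by norm_num) (by norm_num) (by norm_num) hw 12 9
    (by norm_num) (by norm_num)
    (fun s => (tab34.getD s (0, 0)).1) (fun s => (tab34.getD s (0, 0)).2)
    (by decide +kernel) (by decide +kernel) (by decide +kernel) (by decide +kernel)
    (by decide +kernel) (by decide +kernel) (by decide +kernel)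

def tab35 : List (ℕ × ℕ) :=
  [(1, 4), (2, 1), (2, 1), (2, 2), (2, 2), (1, 4), (1, 4), (1, 4), (1, 4), (2, 0), (2, 0), (0,
    3), (0, 3), (2, 1), (2, 1), (0, 3), (0, 3), (2, 1), (2, 1), (0, 2), (0, 2), (1, 4), (0, 2),
    (1, 0), (1, 0), (1, 0), (1, 0), (0, 3), (0, 3), (0, 2)]

theorem upper_3_5_large {w : ℕ} (hw : 30 ≤ w) :
    gameValue 3 5 w ≤ 1 - 1 / (3 : ℕ) - 1 / (5 : ℕ) - 1 / w :=
  phi_upper (u := 3) (v := 5) (N := 30) (by norm_num) (by norm_num) (by norm_num) hw 10 6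
    (by norm_num) (by norm_num)
    (fun s => (tab35.getD s (0, 0)).1) (fun s => (tab35.getD s (0, 0)).2)
    (by decide +kernel) (by decide +kernel) (by decide +kernel) (by decide +kernel)
    (by decide +kernel) (by decide +kernel) (by decide +kernel)

end Pool.Agent.Lib.MP_d7a06f_lc
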