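import Pool.Agent.Lib.MP_d7a06f_lc.Basic

/-!
# Strategies of BLUE
-/

namespace Pool.Agent.Lib.MP_d7a06f_lc

theorem alpha_nonneg (u v w : ℕ) : ∀ i, (0 : ℝ) ≤ ![1 / (u : ℝ), 1 / (v : ℝ), 1 / (w : ℝ)] i := by
  intro i
  fin_cases i
  · simp
  · simp
  · simp

theorem card_le_of_diff {C : Finset ℕ} {a : ℕ} (h : ∀ x ∈ C, ∀ y ∈ C, y < x + a) : C.card ≤ a := by
  rcases C.eq_empty_or_nonempty with rfl | hne
  · simp
  · have : C ⊆ Finset.Ico (C.min' hne) (C.min' hne + a) := by
      intro x hx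
      rw [Finset.mem_Ico]
      exact ⟨Finset.min'_le _ _ hx, h _ (Finset.min'_mem _ _) x hx⟩
    refine (Finset.card_le_card this).trans ?_
    simp

/-- Two points of the grid `k/(L-1)` in an interval of length at most `a/L` are less than `a`
steps apart. -/
theorem grid_diff {L a x y : ℕ} (hL : 1 < L) {l r : ℝ} (hlr : r - l ≤ (a : ℝ) / L)
    (hx : l ≤ (x : ℝ) / ((L : ℝ) - 1)) (hy : (y : ℝ) / ((L : ℝ) - 1) ≤ r) : y < x + a ∨ a = 0 := by
  by_contra hcon
  push Not at hcon
  obtain ⟨h1, h2⟩ := hcon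
  have hL1 : (0 : ℝ) < (L : ℝ) - 1 := by
    have : (1 : ℝ) < L := by exact_mod_cast hL
    linarith
  have hL0 : (0 : ℝ) < L := by linarith
  have ha : (0 : ℝ) < a := by
    have : 0 < a := Nat.pos_of_ne_zero h2
    exact_mod_cast this
  have hxy : (x : ℝ) + a ≤ y := by exact_mod_cast h1
  have h3 : ((y : ℝ) - x) / ((L : ℝ) - 1) ≤ (a : ℝ) / L := by
    rw [sub_div]; linarith
  have h4 : (a : ℝ) / ((L : ℝ) - 1) ≤ ((y : ℝ) - x) / ((L : ℝ) - 1) :=
    div_le_div_of_nonneg_right (by linarith) hL1.le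
  have h5 : (a : ℝ) / L < (a : ℝ) / ((L : ℝ) - 1) := by
    apply div_lt_div_of_pos_left ha hL1
    linarith
  linarith

/-- The trivial lower bound. -/
theorem naive_lower {u v w : ℕ} (hu : 2 ≤ u) (hv : 0 < v) (hw : 0 < w) :
    1 - 1 / (u : ℝ) - 1 / (v : ℝ) - 1 / (w : ℝ) ≤ gameValue u v w := by
  classical
  have hu' : (0 : ℝ) < u := by exact_mod_cast (by omega : 0 < u)
  have hv' : (0 : ℝ) < v := by exact_mod_cast hv
  have hw' : (0 : ℝ) < w := by exact_mod_cast hw
  have hvw : 1 ≤ v * w := Nat.mul_pos hv hw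
  have hL1 : 1 < u * v * w := by
    calc 1 < 2 * 1 := by norm_num
      _ ≤ u * (v * w) := Nat.mul_le_mul hu hvw
      _ = u * v * w := by ring
  set L := u * v * w with hL
  have hLr : (1 : ℝ) < L := by exact_mod_cast hL1
  refine le_escapeValue (alpha_nonneg u v w) (Finset.range L) (fun _ => 1)
    (fun _ _ => zero_le_one) (fun k => (k : ℝ) / ((L : ℝ) - 1)) ?_ L _ (by linarith) (by simp) ?_
  · intro k hk
    have hk' : (k : ℝ) + 1 ≤ L := by exact_mod_cast Finset.mem_range.mp hk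
    constructor
    · apply div_nonneg (Nat.cast_nonneg _) (by linarith)
    · rw [div_le_one (by linarith)]; linarith
  · intro J
    set len : Fin 3 → ℕ := ![v * w, u * w, u * v] with hlen
    set C : Fin 3 → Finset ℕ := fun i => (Finset.range L).filter
      (fun k => J.left i ≤ (k : ℝ) / ((L : ℝ) - 1) ∧ (k : ℝ) / ((L : ℝ) - 1) ≤ J.right i) with hC
    have hlenpos : ∀ i, len i ≠ 0 := by
      intro i
      fin_cases i
      · exact (Nat.mul_pos hv hw).ne'
      · exact (Nat.mul_pos (by omega) hw).ne'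
      · exact (Nat.mul_pos (by omega) hv).ne'
    have hα : ∀ i, ![1 / (u : ℝ), 1 / (v : ℝ), 1 / (w : ℝ)] i = (len i : ℝ) / L := by
      intro i
      fin_cases i
      · simp only [Matrix.cons_val_zero, Fin.zero_eta, hlen, hL]; push_cast; field_simp
      · simp only [Fin.mk_one, Matrix.cons_val_one, hlen, hL]; push_cast; field_simp
      · simp only [Fin.reduceFinMk, Matrix.cons_val, hlen, hL]; push_cast; field_simp
    have hcard : ∀ i, (C i).card ≤ len i := by
      intro i
      apply card_le_of_diff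
      intro x hx y hy
      simp only [hC, Finset.mem_filter] at hx hy
      have := grid_diff (a := len i) hL1 ((J.length_le i).trans (hα i).le) hx.2.1 hy.2.2
      exact this.resolve_right (hlenpos i)
    have hcov : ∀ k ∈ Finset.range L, (1 : ℝ) - ((if k ∈ C 0 then 1 else 0) +
        (if k ∈ C 1 then 1 else 0) + (if k ∈ C 2 then 1 else 0)) ≤
        1 * Set.indicator {y : ℝ | y ∉ J.covered} (fun _ => (1 : ℝ)) ((k : ℝ) / ((L : ℝ) - 1)) := by
      intro k hk
      by_cases hcv : (k : ℝ) / ((L : ℝ) - 1) ∈ J.covered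
      · rw [Set.indicator_of_notMem (by simpa using hcv)]
        obtain ⟨i, hi⟩ := Set.mem_iUnion.mp hcv
        have hki : k ∈ C i := Finset.mem_filter.mpr ⟨hk, hi.1, hi.2⟩
        have n0 : (0 : ℝ) ≤ (if k ∈ C 0 then 1 else 0) := by split_ifs <;> norm_num
        have n1 : (0 : ℝ) ≤ (if k ∈ C 1 then 1 else 0) := by split_ifs <;> norm_num
        have n2 : (0 : ℝ) ≤ (if k ∈ C 2 then 1 else 0) := by split_ifs <;> norm_num
        fin_cases i
        · have : (if k ∈ C 0 then (1 : ℝ) else 0) = 1 := if_pos hki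
          linarith
        · have : (if k ∈ C 1 then (1 : ℝ) else 0) = 1 := if_pos hki
          linarith
        · have : (if k ∈ C 2 then (1 : ℝ) else 0) = 1 := if_pos hki
          linarith
      · rw [Set.indicator_of_mem (by simpa using hcv)]
        have n0 : (0 : ℝ) ≤ (if k ∈ C 0 then 1 else 0) := by split_ifs <;> norm_num
        have n1 : (0 : ℝ) ≤ (if k ∈ C 1 then 1 else 0) := by split_ifs <;> norm_num
        have n2 : (0 : ℝ) ≤ (if k ∈ C 2 then 1 else 0) := by split_ifs <;> norm_num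
        linarith
    refine le_trans ?_ (Finset.sum_le_sum hcov)
    have hsumC : ∀ i, ∑ k ∈ Finset.range L, (if k ∈ C i then (1 : ℝ) else 0) = (C i).card := by
      intro i
      rw [Finset.sum_ite_mem, Finset.inter_eq_right.mpr (Finset.filter_subset _ _)]
      rw [Finset.sum_const, nsmul_eq_mul, mul_one]
    rw [Finset.sum_sub_distrib, Finset.sum_add_distrib, Finset.sum_add_distrib, hsumC, hsumC, hsumC]
    have c0 : ((C 0).card : ℝ) ≤ (v : ℝ) * w := by exact_mod_cast hcard 0
    have c1 : ((C 1).card : ℝ) ≤ (u : ℝ) * w := by exact_mod_cast hcard 1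
    have c2 : ((C 2).card : ℝ) ≤ (u : ℝ) * v := by exact_mod_cast hcard 2
    have hLe : (L : ℝ) = u * v * w := by rw [hL]; push_cast; ring
    have e : (1 - 1 / (u : ℝ) - 1 / (v : ℝ) - 1 / (w : ℝ)) * L =
        L - (v : ℝ) * w - u * w - u * v := by
      rw [hLe]; field_simp
    rw [e]
    simp only [Finset.sum_const, Finset.card_range, nsmul_eq_mul, mul_one]
    linarith

/-! ### Certificates for BLUE -/

open Classical in
/-- Mass of the indices below `x` satisfying `U`. -/
noncomputable def mass (m : ℕ → ℕ) (U : ℕ → Prop) (x : ℕ) : ℕ :=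
  ∑ t ∈ Finset.range x, if U t then m t else 0

theorem mass_succ (m : ℕ → ℕ) (U : ℕ → Prop) (x : ℕ) [Decidable (U x)] :
    mass m U (x + 1) = mass m U x + if U x then m x else 0 := by
  classical
  unfold mass
  rw [Finset.sum_range_succ]
  congr 1
  split_ifs <;> rfl

/-- A single step of the dynamic programming bound. -/
theorem dp_step {r κ : ℕ} {m P : ℕ → ℕ} (hP : ∀ t < r, P (t + 1) = P t + m t)
    (U : ℕ → Prop) (C U' : Fin κ → ℕ → Prop) (E : Fin κ → ℕ → ℕ)
    (hU : ∀ x, U x → ∃ i, C i x) (hU' : ∀ i x, U x → C i x ∨ U' i x)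
    (hC : ∀ i, ∀ t < r, ∀ s ≤ t, C i t → C i s → E i t ≤ s)
    (hE : ∀ i, ∀ t < r, E i t ≤ t)
    (F : ℕ → ℕ) (F' : Fin κ → ℕ → ℕ)
    (hF' : ∀ i, ∀ x ≤ r, mass m (U' i) x ≤ F' i x)
    (hmono : ∀ x < r, F x ≤ F (x + 1))
    (hstep : ∀ i, ∀ x < r, F' i (E i x) + P (x + 1) ≤ F (x + 1) + P (E i x)) :
    ∀ x ≤ r, mass m U x ≤ F x := by
  classical
  intro x
  induction x with
  | zero => intro _; simp [mass]
  | succ x ih =>
    intro hx
    have hxr : x < r := hx
    by_cases hUx : U x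
    · obtain ⟨i, hi⟩ := hU x hUx
      -- mass of U below x+1 is at most mass of U' below E plus everything from E on
      have h1 : ∀ y, E i x ≤ y → y ≤ x + 1 →
          mass m U y + P (E i x) ≤ mass m (U' i) (E i x) + P y := by
        intro y hy
        induction y, hy using Nat.le_induction with
        | base =>
          intro _
          apply Nat.add_le_add_right
          unfold mass
          refine Finset.sum_le_sum fun t ht => ?_
          have ht' := Finset.mem_range.mp ht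
          by_cases hUt : U t
          · rcases hU' i t hUt with h | h
            · exfalso
              have hle : t ≤ x := (ht'.le).trans (hE i x hxr)
              have := hC i x hxr t hle hi h
              omega
            · simp [hUt, h]
          · simp [hUt]
        | succ y hy ih2 =>
          intro hyx
          have h3 := ih2 (by omega)
          rw [mass_succ, hP y (by omega)]
          split_ifs
          · omega
          · omega
      have h2 := h1 (x + 1) ((hE i x hxr).trans (Nat.le_succ x)) le_rfl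
      have h3 := hF' i (E i x) ((hE i x hxr).trans hxr.le)
      have h4 := hstep i x hxr
      omega
    · rw [mass_succ, if_neg hUx, Nat.add_zero]
      exact (ih hxr.le).trans (hmono x hxr)

/-- One support point of BLUE: grid position, mass, and for each of the three lengths the first
index that can be covered together with this point. -/
structure BPoint where
  pos : ℕ
  m : ℕ
  e0 : ℕ
  e1 : ℕ
  e2 : ℕ

/-- The seven tables of the dynamic programme together with the prefix sums. -/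
structure BRow where
  P : ℕ
  f0 : ℕ
  f1 : ℕ
  f2 : ℕ
  f01 : ℕ
  f02 : ℕ
  f12 : ℕ
  f012 : ℕ

def dpt : BPoint := ⟨0, 0, 0, 0, 0⟩
def drow : BRow := ⟨0, 0, 0, 0, 0, 0, 0, 0⟩

/-- The checks for one row. -/
def RowOK (L a b c : ℕ) (p : ℕ → BPoint) (q : ℕ → BRow) (t : ℕ) : Prop :=
  ((p t).pos < L ∧ (t = 0 ∨ (p (t - 1)).pos < (p t).pos)) ∧
  ((p t).e0 ≤ t ∧ ((p t).e0 = 0 ∨ (p ((p t).e0 - 1)).pos + a ≤ (p t).pos)) ∧
  ((p t).e1 ≤ t ∧ ((p t).e1 = 0 ∨ (p ((p t).e1 - 1)).pos + b ≤ (p t).pos)) ∧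
  ((p t).e2 ≤ t ∧ ((p t).e2 = 0 ∨ (p ((p t).e2 - 1)).pos + c ≤ (p t).pos)) ∧
  ((q (t + 1)).P = (q t).P + (p t).m) ∧
  ((q t).f0 ≤ (q (t+1)).f0 ∧ (q t).f1 ≤ (q (t+1)).f1 ∧
    (q t).f2 ≤ (q (t+1)).f2 ∧ (q t).f01 ≤ (q (t+1)).f01 ∧
    (q t).f02 ≤ (q (t+1)).f02 ∧ (q t).f12 ≤ (q (t+1)).f12 ∧
    (q t).f012 ≤ (q (t+1)).f012) ∧
  ((q (t+1)).P ≤ (q (t+1)).f0 + (q (p t).e0).P ∧
    (q (t+1)).P ≤ (q (t+1)).f1 + (q (p t).e1).P ∧
    (q (t+1)).P ≤ (q (t+1)).f2 + (q (p t).e2).P ∧
    (q (p t).e0).f1 + (q (t+1)).P ≤ (q (t+1)).f01 + (q (p t).e0).P ∧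
    (q (p t).e1).f0 + (q (t+1)).P ≤ (q (t+1)).f01 + (q (p t).e1).P ∧
    (q (p t).e0).f2 + (q (t+1)).P ≤ (q (t+1)).f02 + (q (p t).e0).P ∧
    (q (p t).e2).f0 + (q (t+1)).P ≤ (q (t+1)).f02 + (q (p t).e2).P ∧
    (q (p t).e1).f2 + (q (t+1)).P ≤ (q (t+1)).f12 + (q (p t).e1).P ∧
    (q (p t).e2).f1 + (q (t+1)).P ≤ (q (t+1)).f12 + (q (p t).e2).P ∧
    (q (p t).e0).f12 + (q (t+1)).P ≤ (q (t+1)).f012 + (q (p t).e0).P ∧
    (q (p t).e1).f02 + (q (t+1)).P ≤ (q (t+1)).f012 + (q (p t).e1).P ∧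
    (q (p t).e2).f01 + (q (t+1)).P ≤ (q (t+1)).f012 + (q (p t).e2).P)

instance (L a b c : ℕ) (p : ℕ → BPoint) (q : ℕ → BRow) (t : ℕ) :
    Decidable (RowOK L a b c p q t) := by unfold RowOK; infer_instance

/-- Checker for a strategy of BLUE. -/
def checkBlue (L a b c M K : ℕ) (pts : List BPoint) (rows : List BRow) : Bool :=
  (decide (1 < L) && decide (0 < a) && decide (0 < b) && decide (0 < c) && decide (0 < M)
  && decide ((rows.getD 0 drow).P = 0) && decide ((rows.getD pts.length drow).P = M)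
  && decide ((rows.getD pts.length drow).f012 + K ≤ M)) &&
  (List.range pts.length).all (fun t =>
    decide (RowOK L a b c (fun t => pts.getD t dpt) (fun t => rows.getD t drow) t))

theorem lower_of_checkBlue {u v w L M K : ℕ} (a b c : ℕ)
    (ha : u * a = L) (hb : v * b = L) (hc : w * c = L) {pts : List BPoint} {rows : List BRow}
    (h : checkBlue L a b c M K pts rows = true) :
    (K : ℝ) / M ≤ gameValue u v w := by
  classical
  simp only [checkBlue, Bool.and_eq_true, decide_eq_true_eq, List.all_eq_true,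
    List.mem_range] at h
  obtain ⟨⟨⟨⟨⟨⟨⟨⟨hL, ha0⟩, hb0⟩, hc0⟩, hM⟩, hP0⟩, hPr⟩, hfin⟩, hall⟩ := h
  set r := pts.length with hr
  set p : ℕ → BPoint := fun t => pts.getD t dpt with hp
  set q : ℕ → BRow := fun t => rows.getD t drow with hq
  set pos : ℕ → ℕ := fun t => (p t).pos with hpos
  set m : ℕ → ℕ := fun t => (p t).m with hm
  set P : ℕ → ℕ := fun t => (q t).P with hPdef
  have hPs : ∀ t < r, P (t + 1) = P t + m t := fun t ht => (hall t ht).2.2.2.2.1
  have hposlt : ∀ t < r, pos t < L := fun t ht => (hall t ht).1.1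
  have hposmono : ∀ t < r, ∀ s ≤ t, pos s ≤ pos t := by
    intro t
    induction t with
    | zero => intro _ s hs; rw [Nat.le_zero.mp hs]
    | succ t ih =>
      intro ht s hs
      rcases Nat.lt_or_ge s (t + 1) with h | h
      · have h1 := ih (by omega) s (by omega)
        have h2 : (p t).pos < (p (t + 1)).pos := by
          have h3 : t + 1 = 0 ∨ (p (t + 1 - 1)).pos < (p (t + 1)).pos := (hall (t + 1) ht).1.2
          rcases h3 with h3 | h3
          · omega
          · simpa using h3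
        exact h1.trans h2.le
      · rw [le_antisymm hs h]
  have hsumM : ∑ t ∈ Finset.range r, m t = M := by
    have : ∀ x ≤ r, ∑ t ∈ Finset.range x, m t = P x := by
      intro x
      induction x with
      | zero => intro _; rw [Finset.sum_range_zero]; exact hP0.symm
      | succ x ih =>
        intro hx
        rw [Finset.sum_range_succ, ih (by omega), hPs x (by omega)]
    rw [this r le_rfl]
    exact hPr
  have hLr : (1 : ℝ) < L := by exact_mod_cast hL
  have hM' : (0 : ℝ) < M := by exact_mod_cast hM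
  refine le_escapeValue (alpha_nonneg u v w) (Finset.range r) (fun t => (m t : ℝ))
    (fun _ _ => Nat.cast_nonneg _) (fun t => (pos t : ℝ) / ((L : ℝ) - 1)) ?_ M _ hM'
    (by exact_mod_cast hsumM) ?_
  · intro t ht
    have hk' : (pos t : ℝ) + 1 ≤ L := by exact_mod_cast hposlt t (Finset.mem_range.mp ht)
    constructor
    · apply div_nonneg (Nat.cast_nonneg _) (by linarith)
    · rw [div_le_one (by linarith)]; linarith
  · intro J
    -- the index sets covered by the three intervals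
    set C : Fin 3 → ℕ → Prop := fun i t =>
      J.left i ≤ (pos t : ℝ) / ((L : ℝ) - 1) ∧ (pos t : ℝ) / ((L : ℝ) - 1) ≤ J.right i with hCdef
    have hlenr : ∀ {n k : ℕ}, n * k = L → (1 : ℝ) / n = (k : ℝ) / L := by
      intro n k hnk
      have hn : n ≠ 0 := by rintro rfl; rw [zero_mul] at hnk; omega
      have hk : k ≠ 0 := by rintro rfl; rw [mul_zero] at hnk; omega
      have hn' : (n : ℝ) ≠ 0 := by exact_mod_cast hn
      have hk' : (k : ℝ) ≠ 0 := by exact_mod_cast hk
      rw [← hnk]; push_cast; field_simp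
    have hCd : ∀ (i : Fin 3) (k : ℕ), 0 < k → J.right i - J.left i ≤ (k : ℝ) / L →
        ∀ (e : ℕ → ℕ), (∀ t < r, e t ≤ t ∧ (e t = 0 ∨ pos (e t - 1) + k ≤ pos t)) →
        ∀ t < r, ∀ s ≤ t, C i t → C i s → e t ≤ s := by
      intro i k hk hJ e he t ht s hs hCt hCs
      by_contra hlt
      push Not at hlt
      have h1 := grid_diff (a := k) hL hJ hCs.1 hCt.2
      have h2 : pos t < pos s + k := h1.resolve_right hk.ne'
      obtain ⟨he1, he2⟩ := he t ht
      rcases he2 with he2 | he2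
      · omega
      · have h3 := hposmono (e t - 1) (by omega) s (by omega)
        omega
    have J0 : J.right 0 - J.left 0 ≤ (a : ℝ) / L := (J.length_le 0).trans (hlenr ha).le
    have J1 : J.right 1 - J.left 1 ≤ (b : ℝ) / L := (J.length_le 1).trans (hlenr hb).le
    have J2 : J.right 2 - J.left 2 ≤ (c : ℝ) / L := (J.length_le 2).trans (hlenr hc).le
    have E0 : ∀ t < r, (p t).e0 ≤ t ∧ ((p t).e0 = 0 ∨ pos ((p t).e0 - 1) + a ≤ pos t) :=
      fun t ht => (hall t ht).2.1
    have E1 : ∀ t < r, (p t).e1 ≤ t ∧ ((p t).e1 = 0 ∨ pos ((p t).e1 - 1) + b ≤ pos t) :=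
      fun t ht => (hall t ht).2.2.1
    have E2 : ∀ t < r, (p t).e2 ≤ t ∧ ((p t).e2 = 0 ∨ pos ((p t).e2 - 1) + c ≤ pos t) :=
      fun t ht => (hall t ht).2.2.2.1
    have C0 := hCd 0 a ha0 J0 (fun t => (p t).e0) E0
    have C1 := hCd 1 b hb0 J1 (fun t => (p t).e1) E1
    have C2 := hCd 2 c hc0 J2 (fun t => (p t).e2) E2
    have mono : ∀ t < r, (q t).f0 ≤ (q (t+1)).f0 ∧ (q t).f1 ≤ (q (t+1)).f1 ∧
        (q t).f2 ≤ (q (t+1)).f2 ∧ (q t).f01 ≤ (q (t+1)).f01 ∧ (q t).f02 ≤ (q (t+1)).f02 ∧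
        (q t).f12 ≤ (q (t+1)).f12 ∧ (q t).f012 ≤ (q (t+1)).f012 :=
      fun t ht => (hall t ht).2.2.2.2.2.1
    have st : ∀ t < r, ((q (t+1)).P ≤ (q (t+1)).f0 + (q (p t).e0).P) ∧
        ((q (t+1)).P ≤ (q (t+1)).f1 + (q (p t).e1).P) ∧
        ((q (t+1)).P ≤ (q (t+1)).f2 + (q (p t).e2).P) ∧
        ((q (p t).e0).f1 + (q (t+1)).P ≤ (q (t+1)).f01 + (q (p t).e0).P) ∧
        ((q (p t).e1).f0 + (q (t+1)).P ≤ (q (t+1)).f01 + (q (p t).e1).P) ∧
        ((q (p t).e0).f2 + (q (t+1)).P ≤ (q (t+1)).f02 + (q (p t).e0).P) ∧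
        ((q (p t).e2).f0 + (q (t+1)).P ≤ (q (t+1)).f02 + (q (p t).e2).P) ∧
        ((q (p t).e1).f2 + (q (t+1)).P ≤ (q (t+1)).f12 + (q (p t).e1).P) ∧
        ((q (p t).e2).f1 + (q (t+1)).P ≤ (q (t+1)).f12 + (q (p t).e2).P) ∧
        ((q (p t).e0).f12 + (q (t+1)).P ≤ (q (t+1)).f012 + (q (p t).e0).P) ∧
        ((q (p t).e1).f02 + (q (t+1)).P ≤ (q (t+1)).f012 + (q (p t).e1).P) ∧
        ((q (p t).e2).f01 + (q (t+1)).P ≤ (q (t+1)).f012 + (q (p t).e2).P) :=
      fun t ht => (hall t ht).2.2.2.2.2.2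
    -- singles
    have single : ∀ (i : Fin 3) (e F : ℕ → ℕ), (∀ t < r, ∀ s ≤ t, C i t → C i s → e t ≤ s) →
        (∀ t < r, e t ≤ t) → (∀ t < r, F t ≤ F (t + 1)) →
        (∀ t < r, P (t + 1) ≤ F (t + 1) + P (e t)) → ∀ x ≤ r, mass m (C i) x ≤ F x := by
      intro i e F h1 h2 h3 h4
      refine dp_step (κ := 1) hPs (C i) (fun _ => C i) (fun _ _ => False) (fun _ => e)
        (fun x hx => ⟨0, hx⟩) (fun _ x hx => Or.inl hx) (fun _ => h1) (fun _ => h2) F
        (fun _ _ => 0) ?_ h3 ?_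
      · intro _ x _
        simp [mass]
      · intro _ x hx
        have := h4 x hx
        omega
    have pair : ∀ (i j : Fin 3) (e e' F F1 F2 : ℕ → ℕ),
        (∀ t < r, ∀ s ≤ t, C i t → C i s → e t ≤ s) →
        (∀ t < r, ∀ s ≤ t, C j t → C j s → e' t ≤ s) →
        (∀ t < r, e t ≤ t) → (∀ t < r, e' t ≤ t) →
        (∀ x ≤ r, mass m (C i) x ≤ F1 x) → (∀ x ≤ r, mass m (C j) x ≤ F2 x) →
        (∀ t < r, F t ≤ F (t + 1)) →
        (∀ t < r, F2 (e t) + P (t + 1) ≤ F (t + 1) + P (e t)) →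
        (∀ t < r, F1 (e' t) + P (t + 1) ≤ F (t + 1) + P (e' t)) →
        ∀ x ≤ r, mass m (fun t => C i t ∨ C j t) x ≤ F x := by
      intro i j e e' F F1 F2 hi hj hei hej hF1 hF2 hmono hs1 hs2
      refine dp_step (κ := 2) hPs _ ![C i, C j] ![C j, C i] ![e, e'] ?_ ?_ ?_ ?_ F ![F2, F1] ?_
        hmono ?_
      · rintro x (hx | hx)
        · exact ⟨0, hx⟩
        · exact ⟨1, hx⟩
      · intro k x hx
        fin_cases k
        · exact hx
        · exact hx.symm
      · intro k
        fin_cases k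
        · exact hi
        · exact hj
      · intro k
        fin_cases k
        · exact hei
        · exact hej
      · intro k
        fin_cases k
        · exact hF2
        · exact hF1
      · intro k
        fin_cases k
        · exact hs1
        · exact hs2
    have s0 := single 0 (fun t => (p t).e0) (fun t => (q t).f0) C0 (fun t ht => (E0 t ht).1)
      (fun t ht => (mono t ht).1) (fun t ht => (st t ht).1)
    have s1 := single 1 (fun t => (p t).e1) (fun t => (q t).f1) C1 (fun t ht => (E1 t ht).1)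
      (fun t ht => (mono t ht).2.1) (fun t ht => (st t ht).2.1)
    have s2 := single 2 (fun t => (p t).e2) (fun t => (q t).f2) C2 (fun t ht => (E2 t ht).1)
      (fun t ht => (mono t ht).2.2.1) (fun t ht => (st t ht).2.2.1)
    have s01 := pair 0 1 (fun t => (p t).e0) (fun t => (p t).e1) (fun t => (q t).f01)
      (fun t => (q t).f0) (fun t => (q t).f1) C0 C1 (fun t ht => (E0 t ht).1)
      (fun t ht => (E1 t ht).1) s0 s1 (fun t ht => (mono t ht).2.2.2.1)
      (fun t ht => (st t ht).2.2.2.1) (fun t ht => (st t ht).2.2.2.2.1)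
    have s02 := pair 0 2 (fun t => (p t).e0) (fun t => (p t).e2) (fun t => (q t).f02)
      (fun t => (q t).f0) (fun t => (q t).f2) C0 C2 (fun t ht => (E0 t ht).1)
      (fun t ht => (E2 t ht).1) s0 s2 (fun t ht => (mono t ht).2.2.2.2.1)
      (fun t ht => (st t ht).2.2.2.2.2.1) (fun t ht => (st t ht).2.2.2.2.2.2.1)
    have s12 := pair 1 2 (fun t => (p t).e1) (fun t => (p t).e2) (fun t => (q t).f12)
      (fun t => (q t).f1) (fun t => (q t).f2) C1 C2 (fun t ht => (E1 t ht).1)
      (fun t ht => (E2 t ht).1) s1 s2 (fun t ht => (mono t ht).2.2.2.2.2.1)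
      (fun t ht => (st t ht).2.2.2.2.2.2.2.1) (fun t ht => (st t ht).2.2.2.2.2.2.2.2.1)
    have s012 : ∀ x ≤ r, mass m (fun t => C 0 t ∨ C 1 t ∨ C 2 t) x ≤ (q x).f012 := by
      refine dp_step (κ := 3) hPs _ C
        ![fun t => C 1 t ∨ C 2 t, fun t => C 0 t ∨ C 2 t, fun t => C 0 t ∨ C 1 t]
        ![fun t => (p t).e0, fun t => (p t).e1, fun t => (p t).e2] ?_ ?_ ?_ ?_
        (fun t => (q t).f012) ![fun t => (q t).f12, fun t => (q t).f02, fun t => (q t).f01] ?_
        (fun t ht => (mono t ht).2.2.2.2.2.2) ?_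
      · rintro x (hx | hx | hx)
        · exact ⟨0, hx⟩
        · exact ⟨1, hx⟩
        · exact ⟨2, hx⟩
      · intro k x hx
        fin_cases k
        · exact hx
        · change C 1 x ∨ (C 0 x ∨ C 2 x)
          tauto
        · change C 2 x ∨ (C 0 x ∨ C 1 x)
          tauto
      · intro k
        fin_cases k
        · exact C0
        · exact C1
        · exact C2
      · intro k
        fin_cases k
        · exact fun t ht => (E0 t ht).1
        · exact fun t ht => (E1 t ht).1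
        · exact fun t ht => (E2 t ht).1
      · intro k
        fin_cases k
        · exact s12
        · exact s02
        · exact s01
      · intro k
        fin_cases k
        · exact fun t ht => (st t ht).2.2.2.2.2.2.2.2.2.1
        · exact fun t ht => (st t ht).2.2.2.2.2.2.2.2.2.2.1
        · exact fun t ht => (st t ht).2.2.2.2.2.2.2.2.2.2.2
    have hmass := s012 r le_rfl
    have e1 : (K : ℝ) / M * M = K := by field_simp
    rw [e1]
    have e2 : ∀ t ∈ Finset.range r, (m t : ℝ) - ((if (C 0 t ∨ C 1 t ∨ C 2 t) then m t else 0 : ℕ) : ℝ)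
        ≤ (m t : ℝ) * Set.indicator {y : ℝ | y ∉ J.covered} (fun _ => (1 : ℝ))
          ((pos t : ℝ) / ((L : ℝ) - 1)) := by
      intro t _
      by_cases hcv : (pos t : ℝ) / ((L : ℝ) - 1) ∈ J.covered
      · rw [Set.indicator_of_notMem (by simpa using hcv)]
        obtain ⟨i, hi⟩ := Set.mem_iUnion.mp hcv
        have : C 0 t ∨ C 1 t ∨ C 2 t := by
          fin_cases i
          · exact Or.inl hi
          · exact Or.inr (Or.inl hi)
          · exact Or.inr (Or.inr hi)
        rw [if_pos this]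
        simp
      · rw [Set.indicator_of_mem (by simpa using hcv)]
        have : (0 : ℝ) ≤ ((if (C 0 t ∨ C 1 t ∨ C 2 t) then m t else 0 : ℕ) : ℝ) :=
          Nat.cast_nonneg _
        linarith
    refine le_trans ?_ (Finset.sum_le_sum e2)
    rw [Finset.sum_sub_distrib, ← Nat.cast_sum, ← Nat.cast_sum, hsumM]
    have e3 : ∑ t ∈ Finset.range r, (if (C 0 t ∨ C 1 t ∨ C 2 t) then m t else 0) + K ≤ M := by
      unfold mass at hmass
      have : (q r).f012 + K ≤ M := hfin
      refine le_trans (Nat.add_le_add_right ?_ K) this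
      refine le_trans (le_of_eq ?_) hmass
      refine Finset.sum_congr rfl fun t _ => ?_
      congr
    have e4 : ((∑ t ∈ Finset.range r, (if (C 0 t ∨ C 1 t ∨ C 2 t) then m t else 0) : ℕ) : ℝ)
        + K ≤ M := by exact_mod_cast e3
    linarith

end Pool.Agent.Lib.MP_d7a06f_lc
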