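import Pool.Agent.Lib.MP_d7a06f_lc.Cert
import Pool.Agent.Lib.MP_d7a06f_lc.Blue

/-!
# The ten sporadic triples (generated certificates for both players)
-/

namespace Pool.Agent.Lib.MP_d7a06f_lc

theorem upper_3_4_4 : gameValue 3 4 4 ≤ 1 - (8 : ℕ) / (10 : ℕ) :=
  upper_of_checkCell (L := 12) (by norm_num) (by norm_num) (by norm_num) 4 3 3 (by norm_num)
    (by norm_num) (by norm_num) (l :=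
    [(0, 4, 7, 2), (8, 5, 2, 2), (4, 0, 9, 1), (4, 9, 0, 1), (0, 6, 9, 2), (8, 3, 0, 2)])
    (by decide +kernel)

theorem lower_3_4_4 : ((2 : ℕ) : ℝ) / (10 : ℕ) ≤ gameValue 3 4 4 :=
  lower_of_checkBlue (L := 12) 4 3 3 (by norm_num) (by norm_num) (by norm_num) (pts :=
    [⟨0, 2, 0, 0, 0⟩, ⟨3, 1, 0, 1, 1⟩, ⟨4, 2, 1, 1, 1⟩, ⟨7, 2, 2, 3, 3⟩, ⟨8, 1, 3, 3, 3⟩, ⟨11, 2,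
    4, 5, 5⟩]) (rows :=
    [⟨0, 0, 0, 0, 0, 0, 0, 0⟩, ⟨2, 2, 2, 2, 2, 2, 2, 2⟩, ⟨3, 3, 2, 2, 3, 3, 3, 3⟩, ⟨5, 3, 3, 3,
    5, 5, 5, 5⟩, ⟨7, 4, 3, 3, 6, 6, 5, 7⟩, ⟨8, 4, 3, 3, 6, 6, 6, 8⟩, ⟨10, 4, 3, 3, 6, 6, 6, 8⟩])
    (by decide +kernel)

theorem upper_3_4_5 : gameValue 3 4 5 ≤ 1 - (43 : ℕ) / (56 : ℕ) :=
  upper_of_checkCell (L := 60) (by norm_num) (by norm_num) (by norm_num) 20 15 12 (by norm_num)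
    (by norm_num) (by norm_num) (l :=
    [(0, 30, 48, 1), (40, 15, 0, 1), (0, 18, 36, 6), (40, 27, 12, 6), (0, 20, 35, 7), (40, 25,
    13, 7), (0, 45, 24, 3), (40, 0, 24, 3), (20, 0, 48, 5), (20, 45, 0, 5), (0, 33, 48, 6), (40,
    12, 0, 6)])
    (by decide +kernel)

theorem lower_3_4_5 : ((13 : ℕ) : ℝ) / (56 : ℕ) ≤ gameValue 3 4 5 :=
  lower_of_checkBlue (L := 60) 20 15 12 (by norm_num) (by norm_num) (by norm_num) (pts :=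
    [⟨0, 10, 0, 0, 0⟩, ⟨12, 3, 0, 0, 1⟩, ⟨15, 5, 0, 1, 1⟩, ⟨20, 4, 1, 1, 1⟩, ⟨24, 3, 1, 1, 2⟩,
    ⟨27, 3, 1, 2, 3⟩, ⟨32, 3, 2, 3, 4⟩, ⟨35, 3, 3, 4, 4⟩, ⟨39, 4, 3, 5, 6⟩, ⟨44, 5, 5, 6, 7⟩,
    ⟨47, 3, 6, 7, 8⟩, ⟨59, 10, 9, 10, 11⟩]) (rows :=
    [⟨0, 0, 0, 0, 0, 0, 0, 0⟩, ⟨10, 10, 10, 10, 10, 10, 10, 10⟩, ⟨13, 13, 13, 10, 13, 13, 13,
    13⟩, ⟨18, 18, 13, 10, 18, 18, 18, 18⟩, ⟨22, 18, 13, 12, 22, 22, 22, 22⟩, ⟨25, 18, 15, 12,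
    25, 25, 25, 25⟩, ⟨28, 18, 15, 12, 28, 28, 25, 28⟩, ⟨31, 18, 15, 12, 31, 28, 25, 31⟩, ⟨34,
    18, 15, 12, 31, 30, 25, 34⟩, ⟨38, 20, 15, 12, 33, 30, 25, 38⟩, ⟨43, 20, 15, 12, 33, 30, 27,
    43⟩, ⟨46, 20, 15, 12, 33, 30, 27, 43⟩, ⟨56, 20, 15, 12, 33, 30, 27, 43⟩])
    (by decide +kernel)

theorem upper_3_4_7 : gameValue 3 4 7 ≤ 1 - (68 : ℕ) / (94 : ℕ) :=
  upper_of_checkCell (L := 84) (by norm_num) (by norm_num) (by norm_num) 28 21 12 (by norm_num)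
    (by norm_num) (by norm_num) (l :=
    [(0, 42, 72, 18), (56, 21, 0, 18), (28, 0, 72, 8), (28, 63, 0, 8), (11, 39, 60, 7), (45, 24,
    12, 7), (0, 63, 36, 2), (56, 0, 36, 2), (11, 63, 48, 4), (45, 0, 24, 4), (28, 0, 60, 4),
    (28, 63, 12, 4), (0, 39, 60, 4), (56, 24, 12, 4)])
    (by decide +kernel)

theorem lower_3_4_7 : ((26 : ℕ) : ℝ) / (94 : ℕ) ≤ gameValue 3 4 7 :=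
  lower_of_checkBlue (L := 84) 28 21 12 (by norm_num) (by norm_num) (by norm_num) (pts :=
    [⟨0, 13, 0, 0, 0⟩, ⟨12, 10, 0, 0, 1⟩, ⟨21, 3, 0, 1, 1⟩, ⟨24, 5, 0, 1, 2⟩, ⟨28, 5, 1, 1, 2⟩,
    ⟨34, 4, 1, 2, 3⟩, ⟨36, 4, 1, 2, 4⟩, ⟨41, 3, 2, 2, 5⟩, ⟨42, 3, 2, 3, 5⟩, ⟨47, 4, 2, 4, 6⟩,
    ⟨49, 4, 3, 5, 7⟩, ⟨55, 5, 4, 6, 9⟩, ⟨59, 5, 5, 7, 10⟩, ⟨62, 3, 6, 8, 11⟩, ⟨71, 10, 9, 11,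
    13⟩, ⟨83, 13, 12, 14, 15⟩]) (rows :=
    [⟨0, 0, 0, 0, 0, 0, 0, 0⟩, ⟨13, 13, 13, 13, 13, 13, 13, 13⟩, ⟨23, 23, 23, 13, 23, 23, 23,
    23⟩, ⟨26, 26, 23, 13, 26, 26, 26, 26⟩, ⟨31, 31, 23, 13, 31, 31, 31, 31⟩, ⟨36, 31, 23, 13,
    36, 36, 36, 36⟩, ⟨40, 31, 23, 14, 40, 40, 37, 40⟩, ⟨44, 31, 23, 14, 44, 44, 37, 44⟩, ⟨47,
    31, 24, 14, 47, 44, 37, 47⟩, ⟨50, 31, 24, 14, 50, 45, 37, 50⟩, ⟨54, 31, 24, 14, 54, 45, 37,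
    54⟩, ⟨58, 32, 24, 14, 55, 45, 37, 58⟩, ⟨63, 32, 24, 14, 55, 45, 37, 63⟩, ⟨68, 32, 24, 14,
    55, 45, 38, 68⟩, ⟨71, 32, 24, 14, 55, 45, 38, 68⟩, ⟨81, 32, 24, 14, 55, 45, 38, 68⟩, ⟨94,
    32, 24, 14, 55, 45, 38, 68⟩])
    (by decide +kernel)

theorem upper_3_4_8 : gameValue 3 4 8 ≤ 1 - (48 : ℕ) / (68 : ℕ) :=
  upper_of_checkCell (L := 24) (by norm_num) (by norm_num) (by norm_num) 8 6 3 (by norm_num)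
    (by norm_num) (by norm_num) (l :=
    [(0, 15, 21, 9), (16, 3, 0, 9), (2, 12, 18, 2), (14, 6, 3, 2), (8, 0, 21, 9), (8, 18, 0, 9),
    (3, 15, 11, 2), (13, 3, 10, 2), (8, 0, 18, 1), (8, 18, 3, 1), (0, 9, 15, 11), (16, 9, 6, 11)])
    (by decide +kernel)

theorem lower_3_4_8 : ((10 : ℕ) : ℝ) / (34 : ℕ) ≤ gameValue 3 4 8 :=
  lower_of_checkBlue (L := 24) 8 6 3 (by norm_num) (by norm_num) (by norm_num) (pts :=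
    [⟨0, 4, 0, 0, 0⟩, ⟨3, 4, 0, 0, 1⟩, ⟨6, 3, 0, 1, 2⟩, ⟨8, 2, 1, 1, 2⟩, ⟨9, 2, 1, 2, 3⟩, ⟨11, 2,
    2, 2, 4⟩, ⟨12, 2, 2, 3, 5⟩, ⟨14, 2, 3, 4, 6⟩, ⟨15, 2, 3, 5, 7⟩, ⟨17, 3, 5, 6, 8⟩, ⟨20, 4, 7,
    8, 10⟩, ⟨23, 4, 9, 10, 11⟩]) (rows :=
    [⟨0, 0, 0, 0, 0, 0, 0, 0⟩, ⟨4, 4, 4, 4, 4, 4, 4, 4⟩, ⟨8, 8, 8, 4, 8, 8, 8, 8⟩, ⟨11, 11, 8, 4,
    11, 11, 11, 11⟩, ⟨13, 11, 9, 5, 13, 13, 13, 13⟩, ⟨15, 11, 9, 5, 15, 15, 13, 15⟩, ⟨17, 11, 9,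
    5, 17, 15, 13, 17⟩, ⟨19, 11, 9, 5, 19, 15, 13, 19⟩, ⟨21, 11, 9, 5, 19, 15, 13, 21⟩, ⟨23, 12,
    9, 5, 20, 16, 13, 23⟩, ⟨26, 12, 9, 5, 20, 16, 14, 24⟩, ⟨30, 12, 9, 5, 20, 16, 14, 24⟩, ⟨34,
    12, 9, 5, 20, 16, 14, 24⟩])
    (by decide +kernel)

theorem upper_3_4_10 : gameValue 3 4 10 ≤ 1 - (168 : ℕ) / (246 : ℕ) :=
  upper_of_checkCell (L := 60) (by norm_num) (by norm_num) (by norm_num) 20 15 6 (by norm_num)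
    (by norm_num) (by norm_num) (l :=
    [(20, 0, 48, 29), (20, 45, 6, 29), (0, 39, 54, 2), (40, 6, 0, 2), (6, 27, 54, 3), (34, 18, 0,
    3), (0, 33, 24, 3), (40, 12, 30, 3), (0, 39, 27, 14), (40, 6, 27, 14), (0, 33, 21, 16), (40,
    12, 33, 16), (0, 19, 36, 3), (40, 26, 18, 3), (0, 30, 54, 39), (40, 15, 0, 39), (20, 0, 42,
    10), (20, 45, 12, 10), (0, 27, 54, 4), (40, 18, 0, 4)])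
    (by decide +kernel)

theorem lower_3_4_10 : ((26 : ℕ) : ℝ) / (82 : ℕ) ≤ gameValue 3 4 10 :=
  lower_of_checkBlue (L := 60) 20 15 6 (by norm_num) (by norm_num) (by norm_num) (pts :=
    [⟨0, 8, 0, 0, 0⟩, ⟨6, 6, 0, 0, 1⟩, ⟨8, 2, 0, 0, 1⟩, ⟨12, 4, 0, 0, 2⟩, ⟨15, 4, 0, 1, 3⟩, ⟨18,
    3, 0, 1, 4⟩, ⟨20, 2, 1, 1, 4⟩, ⟨21, 4, 1, 2, 5⟩, ⟨24, 2, 1, 3, 6⟩, ⟨26, 2, 2, 3, 7⟩, ⟨27, 4,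
    2, 4, 8⟩, ⟨32, 4, 4, 5, 10⟩, ⟨33, 2, 4, 6, 11⟩, ⟨35, 2, 5, 7, 11⟩, ⟨38, 4, 6, 8, 12⟩, ⟨39,
    2, 6, 9, 13⟩, ⟨41, 3, 8, 10, 14⟩, ⟨44, 4, 9, 11, 15⟩, ⟨47, 4, 11, 12, 17⟩, ⟨51, 2, 11, 14,
    18⟩, ⟨53, 6, 13, 15, 19⟩, ⟨59, 8, 16, 18, 21⟩]) (rows :=
    [⟨0, 0, 0, 0, 0, 0, 0, 0⟩, ⟨8, 8, 8, 8, 8, 8, 8, 8⟩, ⟨14, 14, 14, 8, 14, 14, 14, 14⟩, ⟨16,
    16, 16, 8, 16, 16, 16, 16⟩, ⟨20, 20, 20, 8, 20, 20, 20, 20⟩, ⟨24, 24, 20, 8, 24, 24, 24,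
    24⟩, ⟨27, 27, 20, 8, 27, 27, 27, 27⟩, ⟨29, 27, 21, 9, 29, 29, 29, 29⟩, ⟨33, 27, 21, 9, 33,
    33, 29, 33⟩, ⟨35, 27, 21, 9, 35, 35, 29, 35⟩, ⟨37, 27, 21, 9, 37, 35, 29, 37⟩, ⟨41, 27, 21,
    9, 41, 35, 29, 41⟩, ⟨45, 27, 21, 9, 45, 35, 29, 45⟩, ⟨47, 27, 21, 9, 47, 35, 29, 47⟩, ⟨49,
    27, 21, 9, 47, 35, 29, 49⟩, ⟨53, 27, 21, 9, 47, 35, 29, 53⟩, ⟨55, 28, 21, 9, 48, 36, 29,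
    55⟩, ⟨58, 28, 21, 9, 48, 36, 30, 56⟩, ⟨62, 28, 21, 9, 48, 36, 30, 56⟩, ⟨66, 28, 21, 9, 48,
    36, 30, 56⟩, ⟨68, 28, 21, 9, 48, 36, 30, 56⟩, ⟨74, 28, 21, 9, 48, 36, 30, 56⟩, ⟨82, 28, 21,
    9, 48, 36, 30, 56⟩])
    (by decide +kernel)

theorem upper_3_4_11 : gameValue 3 4 11 ≤ 1 - (128 : ℕ) / (190 : ℕ) :=
  upper_of_checkCell (L := 132) (by norm_num) (by norm_num) (by norm_num) 44 33 12 (by norm_num)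
    (by norm_num) (by norm_num) (l :=
    [(0, 66, 48, 16), (88, 33, 72, 16), (0, 66, 120, 12), (88, 33, 0, 12), (12, 66, 108, 7), (76,
    33, 12, 7), (0, 99, 84, 9), (88, 0, 36, 9), (44, 0, 96, 16), (44, 99, 24, 16), (44, 0, 120,
    11), (44, 99, 0, 11), (0, 43, 84, 7), (88, 56, 36, 7), (0, 99, 60, 8), (88, 0, 60, 8), (0,
    66, 108, 9), (88, 33, 12, 9)])
    (by decide +kernel)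

theorem lower_3_4_11 : ((62 : ℕ) : ℝ) / (190 : ℕ) ≤ gameValue 3 4 11 :=
  lower_of_checkBlue (L := 132) 44 33 12 (by norm_num) (by norm_num) (by norm_num) (pts :=
    [⟨0, 17, 0, 0, 0⟩, ⟨12, 17, 0, 0, 1⟩, ⟨24, 13, 0, 0, 2⟩, ⟨33, 4, 0, 1, 2⟩, ⟨36, 12, 0, 1, 3⟩,
    ⟨46, 6, 1, 2, 4⟩, ⟨48, 11, 1, 2, 5⟩, ⟨58, 6, 2, 3, 6⟩, ⟨61, 9, 2, 3, 7⟩, ⟨70, 9, 3, 5, 8⟩,
    ⟨73, 6, 3, 5, 9⟩, ⟨83, 11, 5, 7, 10⟩, ⟨85, 6, 5, 7, 11⟩, ⟨95, 12, 7, 9, 12⟩, ⟨98, 4, 7, 9,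
    13⟩, ⟨107, 13, 9, 11, 14⟩, ⟨119, 17, 11, 13, 16⟩, ⟨131, 17, 13, 15, 17⟩]) (rows :=
    [⟨0, 0, 0, 0, 0, 0, 0, 0⟩, ⟨17, 17, 17, 17, 17, 17, 17, 17⟩, ⟨34, 34, 34, 17, 34, 34, 34,
    34⟩, ⟨47, 47, 47, 17, 47, 47, 47, 47⟩, ⟨51, 51, 47, 17, 51, 51, 51, 51⟩, ⟨63, 63, 47, 17,
    63, 63, 63, 63⟩, ⟨69, 63, 47, 18, 69, 69, 65, 69⟩, ⟨80, 63, 47, 18, 80, 80, 65, 80⟩, ⟨86,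
    63, 47, 18, 86, 80, 65, 86⟩, ⟨95, 63, 48, 18, 95, 80, 65, 95⟩, ⟨104, 63, 48, 18, 104, 81,
    65, 104⟩, ⟨110, 63, 48, 18, 110, 81, 65, 110⟩, ⟨121, 63, 48, 18, 110, 81, 65, 121⟩, ⟨127,
    64, 48, 18, 111, 81, 65, 127⟩, ⟨139, 64, 48, 18, 111, 81, 66, 128⟩, ⟨143, 64, 48, 18, 111,
    81, 66, 128⟩, ⟨156, 64, 48, 18, 111, 81, 66, 128⟩, ⟨173, 64, 48, 18, 111, 81, 66, 128⟩,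
    ⟨190, 64, 48, 18, 111, 81, 66, 128⟩])
    (by decide +kernel)

theorem upper_3_4_13 : gameValue 3 4 13 ≤ 1 - (29 : ℕ) / (44 : ℕ) :=
  upper_of_checkCell (L := 156) (by norm_num) (by norm_num) (by norm_num) 52 39 12 (by norm_num)
    (by norm_num) (by norm_num) (l :=
    [(0, 78, 60, 2), (104, 39, 84, 2), (52, 0, 132, 3), (52, 117, 12, 3), (52, 0, 108, 4), (52,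
    117, 36, 4), (44, 117, 96, 1), (60, 0, 48, 1), (0, 117, 96, 2), (104, 0, 48, 2), (0, 78,
    144, 4), (104, 39, 0, 4), (0, 78, 120, 4), (104, 39, 24, 4), (0, 117, 72, 1), (104, 0, 72,
    1), (0, 78, 132, 1), (104, 39, 12, 1)])
    (by decide +kernel)

theorem lower_3_4_13 : ((75 : ℕ) : ℝ) / (220 : ℕ) ≤ gameValue 3 4 13 :=
  lower_of_checkBlue (L := 156) 52 39 12 (by norm_num) (by norm_num) (by norm_num) (pts :=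
    [⟨0, 16, 0, 0, 0⟩, ⟨12, 16, 0, 0, 1⟩, ⟨24, 16, 0, 0, 2⟩, ⟨36, 5, 0, 0, 3⟩, ⟨39, 11, 0, 1, 3⟩,
    ⟨48, 1, 0, 1, 4⟩, ⟨51, 7, 0, 2, 5⟩, ⟨52, 12, 1, 2, 5⟩, ⟨60, 1, 1, 2, 6⟩, ⟨64, 15, 2, 3, 8⟩,
    ⟨76, 10, 3, 4, 10⟩, ⟨79, 10, 3, 5, 10⟩, ⟨91, 15, 5, 8, 12⟩, ⟨95, 1, 5, 8, 12⟩, ⟨103, 12, 7,
    10, 13⟩, ⟨104, 7, 8, 10, 13⟩, ⟨107, 1, 8, 10, 14⟩, ⟨116, 11, 10, 11, 16⟩, ⟨119, 5, 10, 12,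
    17⟩, ⟨131, 16, 12, 13, 19⟩, ⟨143, 16, 13, 16, 20⟩, ⟨155, 16, 15, 18, 21⟩]) (rows :=
    [⟨0, 0, 0, 0, 0, 0, 0, 0⟩, ⟨16, 16, 16, 16, 16, 16, 16, 16⟩, ⟨32, 32, 32, 16, 32, 32, 32,
    32⟩, ⟨48, 48, 48, 16, 48, 48, 48, 48⟩, ⟨53, 53, 53, 16, 53, 53, 53, 53⟩, ⟨64, 64, 53, 16,
    64, 64, 64, 64⟩, ⟨65, 65, 53, 16, 65, 65, 65, 65⟩, ⟨72, 72, 53, 16, 72, 72, 65, 72⟩, ⟨84,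
    72, 53, 20, 84, 84, 73, 84⟩, ⟨85, 72, 53, 20, 85, 85, 73, 85⟩, ⟨100, 72, 53, 20, 100, 88,
    73, 100⟩, ⟨110, 72, 57, 20, 110, 88, 73, 110⟩, ⟨120, 72, 57, 20, 120, 92, 73, 120⟩, ⟨135,
    72, 57, 20, 124, 92, 73, 135⟩, ⟨136, 72, 57, 20, 125, 92, 73, 136⟩, ⟨148, 76, 57, 20, 129,
    92, 73, 141⟩, ⟨155, 76, 57, 20, 129, 92, 77, 144⟩, ⟨156, 76, 57, 20, 129, 92, 77, 145⟩,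
    ⟨167, 76, 57, 20, 129, 92, 77, 145⟩, ⟨172, 76, 57, 20, 129, 92, 77, 145⟩, ⟨188, 76, 57, 20,
    129, 92, 77, 145⟩, ⟨204, 76, 57, 20, 129, 92, 77, 145⟩, ⟨220, 76, 57, 20, 129, 92, 77, 145⟩])
    (by decide +kernel)

theorem upper_3_4_17 : gameValue 3 4 17 ≤ 1 - (244 : ℕ) / (380 : ℕ) :=
  upper_of_checkCell (L := 204) (by norm_num) (by norm_num) (by norm_num) 68 51 12 (by norm_num)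
    (by norm_num) (by norm_num) (l :=
    [(68, 0, 144, 22), (68, 153, 48, 22), (0, 102, 84, 22), (136, 51, 108, 22), (0, 153, 132,
    21), (136, 0, 60, 21), (0, 129, 96, 1), (136, 24, 96, 1), (61, 153, 132, 1), (75, 0, 60, 1),
    (0, 102, 168, 22), (136, 51, 24, 22), (68, 0, 192, 18), (68, 153, 0, 18), (0, 153, 96, 10),
    (136, 0, 96, 10), (68, 0, 180, 22), (68, 153, 12, 22), (68, 12, 180, 1), (68, 141, 12, 1),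
    (0, 102, 72, 22), (136, 51, 120, 22), (0, 102, 192, 6), (136, 51, 0, 6), (0, 102, 156, 22),
    (136, 51, 36, 22)])
    (by decide +kernel)

theorem lower_3_4_17 : ((68 : ℕ) : ℝ) / (190 : ℕ) ≤ gameValue 3 4 17 :=
  lower_of_checkBlue (L := 204) 68 51 12 (by norm_num) (by norm_num) (by norm_num) (pts :=
    [⟨0, 11, 0, 0, 0⟩, ⟨12, 11, 0, 0, 1⟩, ⟨24, 5, 0, 0, 2⟩, ⟨25, 6, 0, 0, 2⟩, ⟨36, 5, 0, 0, 3⟩,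
    ⟨38, 6, 0, 0, 4⟩, ⟨48, 3, 0, 0, 5⟩, ⟨51, 8, 0, 1, 6⟩, ⟨60, 3, 0, 1, 7⟩, ⟨63, 5, 0, 2, 8⟩,
    ⟨68, 4, 1, 2, 8⟩, ⟨72, 2, 1, 2, 9⟩, ⟨75, 5, 1, 3, 10⟩, ⟨80, 4, 2, 4, 11⟩, ⟨84, 2, 2, 4, 12⟩,
    ⟨87, 4, 2, 5, 13⟩, ⟨92, 5, 3, 6, 14⟩, ⟨96, 2, 4, 6, 15⟩, ⟨99, 4, 4, 7, 16⟩, ⟨104, 4, 5, 8,
    17⟩, ⟨107, 2, 6, 8, 17⟩, ⟨111, 5, 6, 9, 19⟩, ⟨116, 4, 7, 10, 20⟩, ⟨119, 2, 8, 11, 21⟩, ⟨123,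
    4, 8, 12, 22⟩, ⟨128, 5, 9, 13, 23⟩, ⟨131, 2, 10, 14, 24⟩, ⟨135, 4, 10, 15, 25⟩, ⟨140, 5, 12,
    16, 26⟩, ⟨143, 3, 13, 17, 27⟩, ⟨152, 8, 15, 19, 29⟩, ⟨155, 3, 16, 20, 30⟩, ⟨165, 6, 18, 22,
    31⟩, ⟨167, 5, 19, 23, 32⟩, ⟨178, 6, 21, 25, 33⟩, ⟨179, 5, 22, 26, 34⟩, ⟨191, 11, 25, 29,
    36⟩, ⟨203, 11, 28, 31, 37⟩]) (rows :=
    [⟨0, 0, 0, 0, 0, 0, 0, 0⟩, ⟨11, 11, 11, 11, 11, 11, 11, 11⟩, ⟨22, 22, 22, 11, 22, 22, 22,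
    22⟩, ⟨27, 27, 27, 11, 27, 27, 27, 27⟩, ⟨33, 33, 33, 11, 33, 33, 33, 33⟩, ⟨38, 38, 38, 11,
    38, 38, 38, 38⟩, ⟨44, 44, 44, 11, 44, 44, 44, 44⟩, ⟨47, 47, 47, 11, 47, 47, 47, 47⟩, ⟨55,
    55, 47, 11, 55, 55, 55, 55⟩, ⟨58, 58, 47, 11, 58, 58, 58, 58⟩, ⟨63, 63, 47, 11, 63, 63, 58,
    63⟩, ⟨67, 63, 47, 12, 67, 67, 59, 67⟩, ⟨69, 63, 47, 12, 69, 69, 59, 69⟩, ⟨74, 63, 47, 12,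
    74, 74, 59, 74⟩, ⟨78, 63, 47, 12, 78, 74, 59, 78⟩, ⟨80, 63, 47, 12, 80, 74, 59, 80⟩, ⟨84,
    63, 47, 12, 84, 74, 59, 84⟩, ⟨89, 63, 47, 12, 89, 74, 59, 89⟩, ⟨91, 63, 47, 12, 91, 74, 59,
    91⟩, ⟨95, 63, 48, 12, 95, 74, 59, 95⟩, ⟨99, 63, 48, 12, 99, 74, 59, 99⟩, ⟨101, 63, 48, 12,
    101, 75, 59, 101⟩, ⟨106, 63, 48, 12, 106, 75, 59, 106⟩, ⟨110, 63, 48, 12, 110, 75, 59, 110⟩,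
    ⟨112, 63, 48, 12, 110, 75, 59, 112⟩, ⟨116, 63, 48, 12, 110, 75, 59, 116⟩, ⟨121, 63, 48, 12,
    110, 75, 59, 121⟩, ⟨123, 63, 48, 12, 110, 75, 59, 121⟩, ⟨127, 64, 48, 12, 111, 75, 59, 122⟩,
    ⟨132, 64, 48, 12, 111, 75, 60, 122⟩, ⟨135, 64, 48, 12, 111, 75, 60, 122⟩, ⟨143, 64, 48, 12,
    111, 75, 60, 122⟩, ⟨146, 64, 48, 12, 111, 75, 60, 122⟩, ⟨152, 64, 48, 12, 111, 75, 60, 122⟩,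
    ⟨157, 64, 48, 12, 111, 75, 60, 122⟩, ⟨163, 64, 48, 12, 111, 75, 60, 122⟩, ⟨168, 64, 48, 12,
    111, 75, 60, 122⟩, ⟨179, 64, 48, 12, 111, 75, 60, 122⟩, ⟨190, 64, 48, 12, 111, 75, 60, 122⟩])
    (by decide +kernel)

theorem upper_3_5_5 : gameValue 3 5 5 ≤ 1 - (16 : ℕ) / (22 : ℕ) :=
  upper_of_checkCell (L := 15) (by norm_num) (by norm_num) (by norm_num) 5 3 3 (by norm_num)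
    (by norm_num) (by norm_num) (l :=
    [(0, 9, 12, 2), (10, 3, 0, 2), (0, 6, 9, 4), (10, 6, 3, 4), (0, 5, 9, 2), (10, 7, 3, 2), (5,
    0, 12, 3), (5, 12, 0, 3)])
    (by decide +kernel)

theorem lower_3_5_5 : ((6 : ℕ) : ℝ) / (22 : ℕ) ≤ gameValue 3 5 5 :=
  lower_of_checkBlue (L := 15) 5 3 3 (by norm_num) (by norm_num) (by norm_num) (pts :=
    [⟨0, 4, 0, 0, 0⟩, ⟨3, 3, 0, 1, 1⟩, ⟨5, 2, 1, 1, 1⟩, ⟨6, 2, 1, 2, 2⟩, ⟨8, 2, 2, 3, 3⟩, ⟨9, 2,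
    2, 4, 4⟩, ⟨11, 3, 4, 5, 5⟩, ⟨14, 4, 6, 7, 7⟩]) (rows :=
    [⟨0, 0, 0, 0, 0, 0, 0, 0⟩, ⟨4, 4, 4, 4, 4, 4, 4, 4⟩, ⟨7, 7, 4, 4, 7, 7, 7, 7⟩, ⟨9, 7, 5, 5,
    9, 9, 9, 9⟩, ⟨11, 7, 5, 5, 11, 11, 9, 11⟩, ⟨13, 7, 5, 5, 11, 11, 9, 13⟩, ⟨15, 8, 5, 5, 12,
    12, 9, 15⟩, ⟨18, 8, 5, 5, 12, 12, 10, 16⟩, ⟨22, 8, 5, 5, 12, 12, 10, 16⟩])
    (by decide +kernel)

theorem upper_3_5_7 : gameValue 3 5 7 ≤ 1 - (220 : ℕ) / (326 : ℕ) :=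
  upper_of_checkCell (L := 105) (by norm_num) (by norm_num) (by norm_num) 35 21 15 (by norm_num)
    (by norm_num) (by norm_num) (l :=
    [(15, 63, 90, 23), (55, 21, 0, 23), (0, 42, 75, 1), (70, 42, 15, 1), (0, 42, 90, 27), (70,
    42, 0, 27), (0, 63, 45, 20), (70, 21, 45, 20), (0, 34, 60, 10), (70, 50, 30, 10), (0, 84,
    60, 30), (70, 0, 30, 30), (20, 63, 90, 13), (50, 21, 0, 13), (35, 0, 75, 39), (35, 84, 15,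
    39)])
    (by decide +kernel)

theorem lower_3_5_7 : ((53 : ℕ) : ℝ) / (163 : ℕ) ≤ gameValue 3 5 7 :=
  lower_of_checkBlue (L := 105) 35 21 15 (by norm_num) (by norm_num) (by norm_num) (pts :=
    [⟨0, 23, 0, 0, 0⟩, ⟨15, 9, 0, 0, 1⟩, ⟨21, 14, 0, 1, 1⟩, ⟨30, 8, 0, 1, 2⟩, ⟨35, 1, 1, 1, 2⟩,
    ⟨36, 10, 1, 2, 3⟩, ⟨42, 5, 1, 3, 3⟩, ⟨45, 7, 1, 3, 4⟩, ⟨50, 1, 2, 3, 5⟩, ⟨52, 7, 2, 4, 6⟩,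
    ⟨54, 1, 2, 4, 6⟩, ⟨59, 7, 3, 6, 7⟩, ⟨62, 5, 3, 6, 8⟩, ⟨68, 10, 4, 8, 10⟩, ⟨69, 1, 4, 8, 11⟩,
    ⟨74, 8, 6, 10, 12⟩, ⟨83, 14, 8, 13, 14⟩, ⟨89, 9, 11, 14, 16⟩, ⟨104, 23, 15, 17, 18⟩]) (rows :=
    [⟨0, 0, 0, 0, 0, 0, 0, 0⟩, ⟨23, 23, 23, 23, 23, 23, 23, 23⟩, ⟨32, 32, 32, 23, 32, 32, 32,
    32⟩, ⟨46, 46, 32, 23, 46, 46, 46, 46⟩, ⟨54, 54, 32, 23, 54, 54, 54, 54⟩, ⟨55, 54, 32, 23,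
    55, 55, 55, 55⟩, ⟨65, 54, 33, 23, 65, 65, 56, 65⟩, ⟨70, 54, 33, 24, 70, 70, 56, 70⟩, ⟨77,
    54, 33, 24, 77, 77, 56, 77⟩, ⟨78, 54, 33, 24, 78, 77, 56, 78⟩, ⟨85, 54, 33, 24, 85, 77, 56,
    85⟩, ⟨86, 54, 33, 24, 86, 77, 56, 86⟩, ⟨93, 54, 33, 24, 86, 77, 56, 93⟩, ⟨98, 54, 33, 24,
    87, 77, 56, 98⟩, ⟨108, 54, 33, 24, 87, 77, 56, 108⟩, ⟨109, 55, 33, 24, 87, 78, 56, 109⟩,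
    ⟨117, 55, 33, 24, 87, 78, 57, 110⟩, ⟨131, 55, 33, 24, 87, 78, 57, 110⟩, ⟨140, 55, 33, 24,
    87, 78, 57, 110⟩, ⟨163, 55, 33, 24, 87, 78, 57, 110⟩])
    (by decide +kernel)

end Pool.Agent.Lib.MP_d7a06f_lc
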