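import Pool.Agent.Lib.MP_d7a06f_lc.Rotation
import Pool.Agent.Lib.MP_d7a06f_lc.Blue

/-!
# The family `(3,3,w)`
-/

namespace Pool.Agent.Lib.MP_d7a06f_lc

/-- Combinatorial count behind the lower bound for `(3,3,w)`. -/
theorem count_bound {k : ℕ} (hk : 2 ≤ k) (A B C : Finset ℕ)
    (hA : A ⊆ Finset.range (3 * k)) (hB : B ⊆ Finset.range (3 * k))
    (cA : ∀ x ∈ A, ∀ z ∈ A, ∀ y, x ≤ y → y ≤ z → y ∈ A)
    (cB : ∀ x ∈ B, ∀ z ∈ B, ∀ y, x ≤ y → y ≤ z → y ∈ B)
    (dA : ∀ x ∈ A, ∀ y ∈ A, y < x + k) (dB : ∀ x ∈ B, ∀ y ∈ B, y < x + k)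
    (hC : ∀ x ∈ C, ∀ y ∈ C, x < y → y = x + 1 ∧ (y = k ∨ y = 2 * k)) :
    (A ∪ B ∪ C).card ≤ 2 * k + 1 := by
  classical
  have kA : A.card ≤ k := card_le_of_diff dA
  have kB : B.card ≤ k := card_le_of_diff dB
  rcases Nat.lt_or_ge 1 C.card with hC2 | hC1
  · -- C has (exactly) two elements
    obtain ⟨x, hx, y, hy, hxy⟩ := Finset.one_lt_card.mp hC2
    wlog hlt : x < y generalizing x y with H
    · exact H y hy x hx hxy.symm (lt_of_le_of_ne (not_lt.mp hlt) hxy.symm)
    obtain ⟨h1, h2⟩ := hC x hx y hy hlt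
    have hCeq : C = {x, y} := by
      ext z
      simp only [Finset.mem_insert, Finset.mem_singleton]
      constructor
      · intro hz
        rcases lt_trichotomy z x with h | h | h
        · have := hC z hz x hx h
          have := hC z hz y hy (h.trans hlt)
          omega
        · exact Or.inl h
        · have := hC x hx z hz h
          right; omega
      · rintro (rfl | rfl)
        · exact hx
        · exact hy
    by_cases hmeet : x ∈ A ∪ B ∨ y ∈ A ∪ B
    · have : A ∪ B ∪ C ⊆ (A ∪ B) ∪ (if x ∈ A ∪ B then {y} else {x}) := by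
        intro z hz
        rcases Finset.mem_union.mp hz with hz | hz
        · exact Finset.mem_union_left _ hz
        · rw [hCeq] at hz
          simp only [Finset.mem_insert, Finset.mem_singleton] at hz
          split_ifs with hxA
          · rcases hz with rfl | rfl
            · exact Finset.mem_union_left _ hxA
            · exact Finset.mem_union_right _ (Finset.mem_singleton_self _)
          · have hyA : y ∈ A ∪ B := hmeet.resolve_left hxA
            rcases hz with rfl | rfl
            · exact Finset.mem_union_right _ (Finset.mem_singleton_self _)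
            · exact Finset.mem_union_left _ hyA
      refine (Finset.card_le_card this).trans ((Finset.card_union_le _ _).trans ?_)
      have h3 := Finset.card_union_le A B
      have h4 : (if x ∈ A ∪ B then ({y} : Finset ℕ) else {x}).card = 1 := by
        split_ifs <;> simp
      omega
    · push Not at hmeet
      simp only [Finset.mem_union, not_or] at hmeet
      obtain ⟨⟨hxA, hxB⟩, hyA, hyB⟩ := hmeet
      -- each of A, B lies on one side
      have side : ∀ D : Finset ℕ, D ⊆ Finset.range (3 * k) →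
          (∀ a ∈ D, ∀ c ∈ D, ∀ b, a ≤ b → b ≤ c → b ∈ D) → x ∉ D → y ∉ D →
          D ⊆ Finset.range x ∨ D ⊆ Finset.Ico (y + 1) (3 * k) := by
        intro D hD cD hxD hyD
        by_cases h : ∃ a ∈ D, a < x
        · left
          obtain ⟨a, ha, hax⟩ := h
          intro c hc
          rw [Finset.mem_range]
          by_contra hcx
          exact hxD (cD a ha c hc x hax.le (not_lt.mp hcx))
        · right
          push Not at h
          intro c hc
          have h5 := h c hc
          have h6 := Finset.mem_range.mp (hD hc)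
          have h7 : c ≠ x := fun e => hxD (e ▸ hc)
          have h8 : c ≠ y := fun e => hyD (e ▸ hc)
          rw [Finset.mem_Ico]
          omega
      have hCc : C.card ≤ 2 := by rw [hCeq]; exact Finset.card_le_two
      have hU : (A ∪ B ∪ C).card ≤ (A ∪ B).card + C.card := Finset.card_union_le _ _
      have hAB : (A ∪ B).card ≤ A.card + B.card := Finset.card_union_le _ _
      rcases side A hA cA hxA hyA with sA | sA <;> rcases side B hB cB hxB hyB with sB | sB
      · have h3 : (A ∪ B).card ≤ x := by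
          have := Finset.card_le_card (Finset.union_subset sA sB)
          simpa using this
        rcases h2 with h2 | h2 <;> omega
      · have h3 : A.card ≤ x := by simpa using Finset.card_le_card sA
        have h4 : B.card ≤ 3 * k - (y + 1) := by simpa using Finset.card_le_card sB
        rcases h2 with h2 | h2 <;> omega
      · have h3 : B.card ≤ x := by simpa using Finset.card_le_card sB
        have h4 : A.card ≤ 3 * k - (y + 1) := by simpa using Finset.card_le_card sA
        rcases h2 with h2 | h2 <;> omega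
      · have h3 : (A ∪ B).card ≤ 3 * k - (y + 1) := by
          have := Finset.card_le_card (Finset.union_subset sA sB)
          simpa using this
        rcases h2 with h2 | h2 <;> omega
  · have h1 : (A ∪ B ∪ C).card ≤ (A ∪ B).card + C.card := Finset.card_union_le _ _
    have h2 : (A ∪ B).card ≤ A.card + B.card := Finset.card_union_le _ _
    omega

/-- Positions of BLUE's points, in units of `1/(18k(k-1))`. -/
def pos33 (k n : ℕ) : ℕ := (n / k) * ((6 * k + 1) * (k - 1)) + 2 * (n % k) * (3 * k - 1)

theorem pos33_add {k n : ℕ} (hk : 2 ≤ k) :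
    pos33 k (n + k) = pos33 k n + (6 * k + 1) * (k - 1) := by
  unfold pos33
  rw [Nat.add_div_right _ (by omega), Nat.add_mod_right]
  ring

theorem pos33_succ {k n : ℕ} (hk : 2 ≤ k) :
    ((n + 1) % k ≠ 0 → pos33 k (n + 1) = pos33 k n + 2 * (3 * k - 1)) ∧
    ((n + 1) % k = 0 → pos33 k (n + 1) = pos33 k n + 3 * (k - 1)) := by
  obtain ⟨q, r, hr, rfl⟩ : ∃ q r, r < k ∧ n = k * q + r :=
    ⟨n / k, n % k, Nat.mod_lt _ (by omega), (Nat.div_add_mod n k).symm⟩
  have d1 : (k * q + r) / k = q := by
    rw [Nat.mul_add_div (by omega), Nat.div_eq_of_lt hr, Nat.add_zero]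
  have m1 : (k * q + r) % k = r := by
    rw [Nat.mul_add_mod, Nat.mod_eq_of_lt hr]
  constructor
  · intro h
    have hr' : r + 1 < k := by
      by_contra hcon
      have : r + 1 = k := by omega
      apply h
      rw [Nat.add_assoc, this, ← Nat.mul_succ, Nat.mul_mod_right]
    have d2 : (k * q + r + 1) / k = q := by
      rw [Nat.add_assoc, Nat.mul_add_div (by omega), Nat.div_eq_of_lt hr', Nat.add_zero]
    have m2 : (k * q + r + 1) % k = r + 1 := by
      rw [Nat.add_assoc, Nat.mul_add_mod, Nat.mod_eq_of_lt hr']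
    unfold pos33
    rw [d1, m1, d2, m2]
    ring
  · intro h
    have hr' : r + 1 = k := by
      by_contra hcon
      have h3 : r + 1 < k := by omega
      rw [Nat.add_assoc, Nat.mul_add_mod, Nat.mod_eq_of_lt h3] at h
      omega
    have d2 : (k * q + r + 1) / k = q + 1 := by
      rw [Nat.add_assoc, hr', ← Nat.mul_succ, Nat.mul_div_cancel_left _ (by omega)]
    unfold pos33
    rw [d1, m1, d2, h]
    obtain ⟨j, rfl⟩ : ∃ j, k = j + 2 := ⟨k - 2, by omega⟩
    have e1 : j + 2 - 1 = j + 1 := by omega
    have e2 : 3 * (j + 2) - 1 = 3 * j + 5 := by omega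
    have e3 : r = j + 1 := by omega
    rw [e1, e2, e3]
    ring

theorem pos33_strictMono {k : ℕ} (hk : 2 ≤ k) : StrictMono (pos33 k) := by
  apply strictMono_nat_of_lt_succ
  intro n
  by_cases h : (n + 1) % k = 0
  · rw [(pos33_succ hk).2 h]; omega
  · rw [(pos33_succ hk).1 h]; omega

/-- The lower bound for `(3,3,w)` with `3k - 2 ≤ w`. -/
theorem lower_three_three {k w : ℕ} (hk : 2 ≤ k) (hw : 3 * k ≤ w + 2) :
    (1 : ℝ) / 3 - 1 / (3 * k) ≤ gameValue 3 3 w := by
  classical
  obtain ⟨j, rfl⟩ : ∃ j, k = j + 2 := ⟨k - 2, by omega⟩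
  set k := j + 2 with hkj
  set D : ℕ := 18 * k * (k - 1) with hD
  have hk1 : k - 1 = j + 1 := by omega
  have hDpos : 0 < D := by rw [hD, hk1]; positivity
  have hDr : (0 : ℝ) < D := by exact_mod_cast hDpos
  have hkr : (0 : ℝ) < k := by rw [hkj]; positivity
  have hmono := pos33_strictMono hk
  have hlast : pos33 k (3 * k - 1) = D := by
    unfold pos33
    have e1 : 3 * k - 1 = k * 2 + (k - 1) := by omega
    have d1 : (3 * k - 1) / k = 2 := by
      rw [e1, Nat.mul_add_div (by omega), Nat.div_eq_of_lt (by omega)]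
    have m1 : (3 * k - 1) % k = k - 1 := by
      rw [e1, Nat.mul_add_mod, Nat.mod_eq_of_lt (by omega)]
    rw [d1, m1, hD, hk1]
    have e2 : 3 * k - 1 = 3 * j + 5 := by omega
    rw [e2, hkj]
    ring
  have hle : ∀ n < 3 * k, pos33 k n ≤ D := by
    intro n hn
    rw [← hlast]
    exact hmono.monotone (by omega)
  refine le_escapeValue (alpha_nonneg 3 3 w) (Finset.range (3 * k)) (fun _ => 1)
    (fun _ _ => zero_le_one) (fun n => (pos33 k n : ℝ) / D) ?_ ((3 * k : ℕ) : ℝ) _ (by positivity)
    (by simp) ?_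
  · intro n hn
    refine ⟨by positivity, ?_⟩
    rw [div_le_one hDr]
    exact_mod_cast hle n (Finset.mem_range.mp hn)
  · intro J
    set C : Fin 3 → Finset ℕ := fun i => (Finset.range (3 * k)).filter
      (fun n => J.left i ≤ (pos33 k n : ℝ) / D ∧ (pos33 k n : ℝ) / D ≤ J.right i) with hC
    have memC : ∀ i n, n ∈ C i ↔ n < 3 * k ∧ (J.left i ≤ (pos33 k n : ℝ) / D ∧
        (pos33 k n : ℝ) / D ≤ J.right i) := by
      intro i n
      simp only [hC, Finset.mem_filter, Finset.mem_range]
    have hsub : ∀ i, C i ⊆ Finset.range (3 * k) := fun i => Finset.filter_subset _ _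
    have hconv : ∀ i, ∀ x ∈ C i, ∀ z ∈ C i, ∀ y, x ≤ y → y ≤ z → y ∈ C i := by
      intro i x hx z hz y hxy hyz
      rw [memC] at hx hz ⊢
      have h1 : (pos33 k x : ℝ) ≤ pos33 k y := by exact_mod_cast hmono.monotone hxy
      have h2 : (pos33 k y : ℝ) ≤ pos33 k z := by exact_mod_cast hmono.monotone hyz
      refine ⟨by omega, hx.2.1.trans (div_le_div_of_nonneg_right h1 hDr.le),
        (div_le_div_of_nonneg_right h2 hDr.le).trans hz.2.2⟩
    have hdiff : ∀ i, ∀ x ∈ C i, ∀ y ∈ C i,
        ((pos33 k y : ℝ) - pos33 k x) ≤ (J.right i - J.left i) * D := by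
      intro i x hx y hy
      rw [memC] at hx hy
      have h1 := hx.2.1
      have h2 := hy.2.2
      rw [le_div_iff₀ hDr] at h1
      rw [div_le_iff₀ hDr] at h2
      linarith
    have hthird : ∀ i : Fin 3, J.right i - J.left i ≤ 1 / 3 → ∀ x ∈ C i, ∀ y ∈ C i, y < x + k := by
      intro i hi x hx y hy
      by_contra hcon
      have h1 : pos33 k (x + k) ≤ pos33 k y := hmono.monotone (not_lt.mp hcon)
      rw [pos33_add hk] at h1
      have h2 := hdiff i x hx y hy
      have h3 : (J.right i - J.left i) * D ≤ 1 / 3 * D :=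
        mul_le_mul_of_nonneg_right hi hDr.le
      have h4 : (pos33 k x : ℝ) + ((6 * k + 1) * (k - 1) : ℕ) ≤ pos33 k y := by exact_mod_cast h1
      have h5 : (D : ℝ) < 3 * ((6 * k + 1) * (k - 1) : ℕ) := by
        have : D < 3 * ((6 * k + 1) * (k - 1)) := by
          rw [hD, hk1, hkj]; ring_nf; omega
        exact_mod_cast this
      linarith
    have J0 : J.right 0 - J.left 0 ≤ 1 / 3 := by simpa using J.length_le 0
    have J1 : J.right 1 - J.left 1 ≤ 1 / 3 := by simpa using J.length_le 1
    have J2 : J.right 2 - J.left 2 ≤ 1 / w := by simpa using J.length_le 2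
    have hC2 : ∀ x ∈ C 2, ∀ y ∈ C 2, x < y → y = x + 1 ∧ (y = k ∨ y = 2 * k) := by
      intro x hx y hy hxy
      have hlt : pos33 k y < pos33 k x + 2 * (3 * k - 1) := by
        by_contra hcon
        push Not at hcon
        have h2 := hdiff 2 x hx y hy
        have hw' : (0 : ℝ) < w := by
          have : 0 < w := by omega
          exact_mod_cast this
        have h3 : (J.right 2 - J.left 2) * D ≤ 1 / w * D :=
          mul_le_mul_of_nonneg_right J2 hDr.le
        have h4 : (pos33 k x : ℝ) + ((2 * (3 * k - 1) : ℕ) : ℝ) ≤ pos33 k y := by exact_mod_cast hcon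
        have h5 : ((2 * (3 * k - 1) : ℕ) : ℝ) ≤ 1 / w * D := by linarith
        rw [one_div, inv_mul_eq_div, le_div_iff₀ hw'] at h5
        have h6 : (2 * (3 * k - 1)) * w ≤ D := by exact_mod_cast h5
        have h7 : (2 * (3 * k - 1)) * (3 * k - 2) ≤ (2 * (3 * k - 1)) * w :=
          Nat.mul_le_mul_left _ (by omega)
        have h8 : D < (2 * (3 * k - 1)) * (3 * k - 2) := by
          have e1 : 3 * k - 1 = 3 * j + 5 := by omega
          have e2 : 3 * k - 2 = 3 * j + 4 := by omega
          rw [hD, hk1, e1, e2, hkj]; ring_nf; omega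
        omega
      have hy1 : y = x + 1 := by
        by_contra hne
        have h1 : pos33 k (x + 1 + 1) ≤ pos33 k y := hmono.monotone (by omega)
        by_cases h2 : (x + 1) % k = 0
        · have h3 : (x + 1 + 1) % k ≠ 0 := by
            rw [Nat.add_mod, h2, Nat.zero_add, Nat.mod_mod, Nat.mod_eq_of_lt (by omega)]
            omega
          rw [(pos33_succ hk).1 h3, (pos33_succ hk).2 h2] at h1
          omega
        · have h4 := hmono (Nat.lt_succ_self (x + 1))
          rw [(pos33_succ hk).1 h2] at h4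
          have h5 : pos33 k (x + 1).succ = pos33 k (x + 1 + 1) := rfl
          omega
      refine ⟨hy1, ?_⟩
      have h2 : (x + 1) % k = 0 := by
        by_contra h2
        rw [hy1, (pos33_succ hk).1 h2] at hlt
        omega
      have h3 : y < 3 * k := ((memC 2 y).mp hy).1
      rw [← hy1] at h2
      obtain ⟨c, hc⟩ := Nat.dvd_of_mod_eq_zero h2
      have hcpos : c ≠ 0 := by
        rintro rfl
        omega
      have hc3 : c < 3 := by
        by_contra hcon
        have : k * 3 ≤ k * c := Nat.mul_le_mul_left _ (by omega)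
        omega
      have : c = 1 ∨ c = 2 := by omega
      rcases this with rfl | rfl
      · left; omega
      · right; omega
    have hcount := count_bound hk (C 0) (C 1) (C 2) (hsub 0) (hsub 1) (hconv 0) (hconv 1)
      (hthird 0 J0) (hthird 1 J1) hC2
    have hcov : ∀ n ∈ Finset.range (3 * k), (1 : ℝ) - (if n ∈ C 0 ∪ C 1 ∪ C 2 then 1 else 0) ≤
        1 * Set.indicator {y : ℝ | y ∉ J.covered} (fun _ => (1 : ℝ)) ((pos33 k n : ℝ) / D) := by
      intro n hn
      by_cases hcv : (pos33 k n : ℝ) / D ∈ J.covered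
      · rw [Set.indicator_of_notMem (by simpa using hcv)]
        obtain ⟨i, hi⟩ := Set.mem_iUnion.mp hcv
        have hki : n ∈ C i := Finset.mem_filter.mpr ⟨hn, hi.1, hi.2⟩
        have : n ∈ C 0 ∪ C 1 ∪ C 2 := by
          simp only [Finset.mem_union]
          fin_cases i
          · exact Or.inl (Or.inl hki)
          · exact Or.inl (Or.inr hki)
          · exact Or.inr hki
        rw [if_pos this]
        simp
      · rw [Set.indicator_of_mem (by simpa using hcv)]
        have : (0 : ℝ) ≤ (if n ∈ C 0 ∪ C 1 ∪ C 2 then 1 else 0) := by split_ifs <;> norm_num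
        linarith
    refine le_trans ?_ (Finset.sum_le_sum hcov)
    have hUsub : C 0 ∪ C 1 ∪ C 2 ⊆ Finset.range (3 * k) :=
      Finset.union_subset (Finset.union_subset (hsub 0) (hsub 1)) (hsub 2)
    have hsumU : ∑ n ∈ Finset.range (3 * k), (if n ∈ C 0 ∪ C 1 ∪ C 2 then (1 : ℝ) else 0) =
        (C 0 ∪ C 1 ∪ C 2).card := by
      rw [Finset.sum_ite_mem, Finset.inter_eq_right.mpr hUsub]
      rw [Finset.sum_const, nsmul_eq_mul, mul_one]
    rw [Finset.sum_sub_distrib, hsumU]
    have hc' : ((C 0 ∪ C 1 ∪ C 2).card : ℝ) ≤ 2 * k + 1 := by exact_mod_cast hcount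
    have e : ((1 : ℝ) / 3 - 1 / (3 * k)) * ((3 * k : ℕ) : ℝ) = k - 1 := by
      push_cast; field_simp
    rw [e]
    simp only [Finset.sum_const, Finset.card_range, nsmul_eq_mul, mul_one]
    push_cast
    linarith

/-- The upper bound for `(3,3,w)` with `w ≤ 3k`. -/
theorem upper_three_three {k w : ℕ} (hk : 1 ≤ k) (hw0 : 0 < w) (hw : w ≤ 3 * k) :
    gameValue 3 3 w ≤ (1 : ℝ) / 3 - 1 / (3 * k) := by
  have hw0' : (0 : ℝ) < w := by exact_mod_cast hw0
  have hwr : (w : ℝ) ≤ ((3 * k : ℕ) : ℝ) := by exact_mod_cast hw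
  have h1 : gameValue 3 3 w ≤ gameValue 3 3 (3 * k) := by
    refine escapeValue_anti (alpha_nonneg 3 3 (3 * k)) ?_
    intro i
    fin_cases i
    · exact le_rfl
    · exact le_rfl
    · exact one_div_le_one_div_of_le hw0' hwr
  refine h1.trans ?_
  have h2 := rotation_upper (u := 3) (v := 3) (w := 3 * k) (by norm_num) (by norm_num) (by omega)
    (by
      rw [Nat.gcd_self, Nat.gcd_mul_right_right]
      omega)
  refine h2.trans (le_of_eq ?_)
  push_cast
  ring

end Pool.Agent.Lib.MP_d7a06f_lc
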