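import Pool.Agent.Lib.MP_d7a06f_lc.Tiles
import Pool.Agent.Lib.MP_d7a06f_lc.Phi
import Pool.Agent.Lib.MP_d7a06f_lc.Sporadic
import Pool.Agent.Lib.MP_d7a06f_lc.ThreeThree

/-!
# Assembly of the value of the Three Intervals Game with lengths `1/u, 1/v, 1/w`
-/

namespace Pool.Agent.Lib.MP_d7a06f_lc

/-- The triples with `(u,v) ∈ {(3,4),(3,5)}` that do not follow the generic formula. -/
def Exceptional (u v w : ℕ) : Prop :=
  u = 3 ∧ ((v = 3) ∨ (v = 4 ∧ (w = 4 ∨ w = 5 ∨ w = 7 ∨ w = 8 ∨ w = 10 ∨ w = 11 ∨ w = 13 ∨ w = 17))
    ∨ (v = 5 ∧ (w = 5 ∨ w = 7)))

theorem rotation_of_half {u v w : ℕ} (hu : 0 < u) (hv : 0 < v) (hw : 0 < w)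
    (h : 2 * (u * v + v * w + u * w) ≤ u * v * w) :
    gameValue u v w ≤ 1 - 1 / u - 1 / v - 1 / w := by
  refine rotation_upper hu hv hw ?_
  have h1 : (u + v - Nat.gcd u v) * w ≤ (u + v) * w := Nat.mul_le_mul_right _ (Nat.sub_le _ _)
  have h2 : (v + w - Nat.gcd v w) * u ≤ (v + w) * u := Nat.mul_le_mul_right _ (Nat.sub_le _ _)
  have h3 : (u + w - Nat.gcd u w) * v ≤ (u + w) * v := Nat.mul_le_mul_right _ (Nat.sub_le _ _)
  have e1 : (u + v) * w = u * w + v * w := by ring
  have e2 : (v + w) * u = u * v + u * w := by ring
  have e3 : (u + w) * v = u * v + v * w := by ring
  omega

theorem generic_upper {u v w : ℕ} (hu : 3 ≤ u) (huv : u ≤ v) (hvw : v ≤ w)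
    (hne : ¬ Exceptional u v w) :
    gameValue u v w ≤ 1 - 1 / u - 1 / v - 1 / w := by
  have hu0 : 0 < u := by omega
  have hv0 : 0 < v := by omega
  have hw0 : 0 < w := by omega
  rcases Nat.lt_or_ge u 6 with hu6 | hu6
  · interval_cases u
    · -- u = 3
      rcases Nat.lt_or_ge v 12 with hv12 | hv12
      · have g3 := Nat.gcd_pos_of_pos_left w (by norm_num : 0 < 3)
        interval_cases v
        · exact absurd ⟨rfl, Or.inl rfl⟩ hne
        · -- v = 4
          rcases Nat.lt_or_ge w 36 with hw36 | hw36
          · have hx : ¬ (w = 4 ∨ w = 5 ∨ w = 7 ∨ w = 8 ∨ w = 10 ∨ w = 11 ∨ w = 13 ∨ w = 17) :=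
              fun h => hne ⟨rfl, Or.inr (Or.inl ⟨rfl, h⟩)⟩
            push Not at hx
            interval_cases w
            · exact absurd rfl hx.1
            · exact absurd rfl hx.2.1
            · exact upper_3_4_6
            · exact absurd rfl hx.2.2.1
            · exact absurd rfl hx.2.2.2.1
            · exact upper_3_4_9
            · exact absurd rfl hx.2.2.2.2.1
            · exact absurd rfl hx.2.2.2.2.2.1
            · exact upper_3_4_12
            · exact absurd rfl hx.2.2.2.2.2.2.1
            · exact upper_3_4_14
            · exact upper_3_4_15
            · exact upper_3_4_16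
            · exact absurd rfl hx.2.2.2.2.2.2.2
            · exact upper_3_4_18
            · exact upper_3_4_19
            · exact upper_3_4_20
            · exact upper_3_4_21
            · exact upper_3_4_22
            · exact upper_3_4_23
            · exact upper_3_4_24
            · exact upper_3_4_25
            · exact upper_3_4_26
            · exact upper_3_4_27
            · exact upper_3_4_28
            · exact upper_3_4_29
            · exact upper_3_4_30
            · exact upper_3_4_31
            · exact upper_3_4_32
            · exact upper_3_4_33
            · exact upper_3_4_34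
            · exact upper_3_4_35
          · exact upper_3_4_large hw36
        · -- v = 5
          rcases Nat.lt_or_ge w 30 with hw30 | hw30
          · have hx : ¬ (w = 5 ∨ w = 7) := fun h => hne ⟨rfl, Or.inr (Or.inr ⟨rfl, h⟩)⟩
            push Not at hx
            interval_cases w
            · exact absurd rfl hx.1
            · exact upper_3_5_6
            · exact absurd rfl hx.2
            · exact upper_3_5_8
            · exact upper_3_5_9
            · exact upper_3_5_10
            · exact upper_3_5_11
            · exact upper_3_5_12
            · exact upper_3_5_13
            · exact upper_3_5_14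
            · exact rotation_upper (by norm_num) (by norm_num) (by norm_num) (by decide)
            · exact upper_3_5_16
            · exact upper_3_5_17
            · exact upper_3_5_18
            · exact upper_3_5_19
            · exact upper_3_5_20
            · exact upper_3_5_21
            · exact upper_3_5_22
            · exact upper_3_5_23
            · exact upper_3_5_24
            · exact upper_3_5_25
            · exact upper_3_5_26
            · exact upper_3_5_27
            · exact upper_3_5_28
            · exact upper_3_5_29
          · exact upper_3_5_large hw30
        · -- v = 6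
          have g6 := Nat.gcd_pos_of_pos_left w (by norm_num : 0 < 6)
          rcases Nat.lt_or_ge w 9 with hw9 | hw9
          · interval_cases w
            · exact rotation_upper (by norm_num) (by norm_num) (by norm_num) (by decide)
            · exact upper_3_6_7
            · exact rotation_upper (by norm_num) (by norm_num) (by norm_num) (by decide)
          · exact rotation_upper (by norm_num) (by norm_num) (by omega)
              (by rw [show Nat.gcd 3 6 = 3 by decide]; omega)
        · -- v = 7
          have g7 := Nat.gcd_pos_of_pos_left w (by norm_num : 0 < 7)
          rcases Nat.lt_or_ge w 16 with hw9 | hw9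
          · interval_cases w
            · exact rotation_upper (by norm_num) (by norm_num) (by norm_num) (by decide)
            · exact upper_3_7_8
            · exact rotation_upper (by norm_num) (by norm_num) (by norm_num) (by decide)
            · exact upper_3_7_10
            · exact upper_3_7_11
            · exact rotation_upper (by norm_num) (by norm_num) (by norm_num) (by decide)
            · exact upper_3_7_13
            · exact rotation_upper (by norm_num) (by norm_num) (by norm_num) (by decide)
            · exact rotation_upper (by norm_num) (by norm_num) (by norm_num) (by decide)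
          · exact rotation_upper (by norm_num) (by norm_num) (by omega)
              (by rw [show Nat.gcd 3 7 = 1 by decide]; omega)
        · -- v = 8
          have g8 := Nat.gcd_pos_of_pos_left w (by norm_num : 0 < 8)
          rcases Nat.lt_or_ge w 13 with hw9 | hw9
          · interval_cases w
            · exact rotation_upper (by norm_num) (by norm_num) (by norm_num) (by decide)
            · exact rotation_upper (by norm_num) (by norm_num) (by norm_num) (by decide)
            · exact upper_3_8_10
            · exact upper_3_8_11
            · exact rotation_upper (by norm_num) (by norm_num) (by norm_num) (by decide)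
          · exact rotation_upper (by norm_num) (by norm_num) (by omega)
              (by rw [show Nat.gcd 3 8 = 1 by decide]; omega)
        · have g9 := Nat.gcd_pos_of_pos_left w (by norm_num : 0 < 9)
          exact rotation_upper (by norm_num) (by norm_num) (by omega)
              (by rw [show Nat.gcd 3 9 = 3 by decide]; omega)
        · have g10 := Nat.gcd_pos_of_pos_left w (by norm_num : 0 < 10)
          exact rotation_upper (by norm_num) (by norm_num) (by omega)
              (by rw [show Nat.gcd 3 10 = 1 by decide]; omega)
        · have g11 := Nat.gcd_pos_of_pos_left w (by norm_num : 0 < 11)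
          exact rotation_upper (by norm_num) (by norm_num) (by omega)
              (by rw [show Nat.gcd 3 11 = 1 by decide]; omega)
      · exact rotation_of_half (by norm_num) hv0 hw0 (by nlinarith)
    · -- u = 4
      rcases Nat.lt_or_ge v 8 with hv8 | hv8
      · have g4 := Nat.gcd_pos_of_pos_left w (by norm_num : 0 < 4)
        interval_cases v
        · rcases Nat.lt_or_ge w 6 with hw6 | hw6
          · interval_cases w
            · exact rotation_upper (by norm_num) (by norm_num) (by norm_num) (by decide)
            · exact upper_4_4_5
          · exact rotation_upper (by norm_num) (by norm_num) (by omega)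
              (by rw [show Nat.gcd 4 4 = 4 by decide]; omega)
        · have g5 := Nat.gcd_pos_of_pos_left w (by norm_num : 0 < 5)
          rcases Nat.lt_or_ge w 11 with hw11 | hw11
          · interval_cases w
            · exact rotation_upper (by norm_num) (by norm_num) (by norm_num) (by decide)
            · exact upper_4_5_6
            · exact upper_4_5_7
            · exact rotation_upper (by norm_num) (by norm_num) (by norm_num) (by decide)
            · exact upper_4_5_9
            · exact rotation_upper (by norm_num) (by norm_num) (by norm_num) (by decide)
          · exact rotation_upper (by norm_num) (by norm_num) (by omega)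
              (by rw [show Nat.gcd 4 5 = 1 by decide]; omega)
        · have g6 := Nat.gcd_pos_of_pos_left w (by norm_num : 0 < 6)
          rcases Nat.lt_or_ge w 7 with hw7 | hw7
          · interval_cases w
            exact rotation_upper (by norm_num) (by norm_num) (by norm_num) (by decide)
          · exact rotation_upper (by norm_num) (by norm_num) (by omega)
              (by rw [show Nat.gcd 4 6 = 2 by decide]; omega)
        · have g7 := Nat.gcd_pos_of_pos_left w (by norm_num : 0 < 7)
          exact rotation_upper (by norm_num) (by norm_num) (by omega)
              (by rw [show Nat.gcd 4 7 = 1 by decide]; omega)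
      · exact rotation_of_half (by norm_num) hv0 hw0 (by nlinarith)
    · -- u = 5
      rcases Nat.lt_or_ge v 7 with hv7 | hv7
      · have g5 := Nat.gcd_pos_of_pos_left w (by norm_num : 0 < 5)
        interval_cases v
        · exact rotation_upper (by norm_num) (by norm_num) (by omega)
              (by rw [show Nat.gcd 5 5 = 5 by decide]; omega)
        · have g6 := Nat.gcd_pos_of_pos_left w (by norm_num : 0 < 6)
          exact rotation_upper (by norm_num) (by norm_num) (by omega)
              (by rw [show Nat.gcd 5 6 = 1 by decide]; omega)
      · exact rotation_of_half (by norm_num) hv0 hw0 (by nlinarith)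
  · refine rotation_of_half hu0 hv0 hw0 ?_
    have h1 : 6 * (v * w) ≤ u * (v * w) := Nat.mul_le_mul_right _ hu6
    have h2 : u * v ≤ w * v := Nat.mul_le_mul_right _ (huv.trans hvw)
    have h3 : u * w ≤ v * w := Nat.mul_le_mul_right _ huv
    have e1 : u * v * w = u * (v * w) := by ring
    have e2 : w * v = v * w := by ring
    omega

theorem three_three {w : ℕ} (hw : 3 ≤ w) :
    gameValue 3 3 w = 1 / 3 - 1 / (3 * (⌈(w : ℝ) / 3⌉₊ : ℝ)) := by
  set k := ⌈(w : ℝ) / 3⌉₊ with hk
  have h1 : (w : ℝ) / 3 ≤ k := Nat.le_ceil _
  have h2 : (k : ℝ) < (w : ℝ) / 3 + 1 := Nat.ceil_lt_add_one (by positivity)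
  have h1' : w ≤ 3 * k := by
    have : (w : ℝ) ≤ 3 * k := by linarith
    exact_mod_cast this
  have h2' : 3 * k < w + 3 := by
    have : (3 * k : ℝ) < w + 3 := by linarith
    exact_mod_cast this
  have hup := upper_three_three (k := k) (w := w) (by omega) (by omega) h1'
  refine le_antisymm hup ?_
  rcases Nat.lt_or_ge k 2 with hk2 | hk2
  · have hk1 : k = 1 := by omega
    have hw3 : w = 3 := by omega
    rw [hk1, hw3]
    have := naive_lower (u := 3) (v := 3) (w := 3) (by norm_num) (by norm_num) (by norm_num)
    refine le_trans (le_of_eq ?_) this
    norm_num
  · exact lower_three_three hk2 (by omega)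

theorem gameValue_eq_formula {u v w : ℕ} (hu : 3 ≤ u) (huv : u ≤ v) (hvw : v ≤ w) :
    gameValue u v w = formula u v w := by
  by_cases hne : Exceptional u v w
  · obtain ⟨rfl, h | ⟨rfl, h⟩ | ⟨rfl, h⟩⟩ := hne
    · subst h
      rw [three_three hvw]
      simp [formula]
    · rcases h with rfl | rfl | rfl | rfl | rfl | rfl | rfl | rfl
      · have h1 := upper_3_4_4
        have h2 := lower_3_4_4
        norm_num [formula] at *
        linarith
      · have h1 := upper_3_4_5
        have h2 := lower_3_4_5
        norm_num [formula] at *
        linarith
      · have h1 := upper_3_4_7
        have h2 := lower_3_4_7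
        norm_num [formula] at *
        linarith
      · have h1 := upper_3_4_8
        have h2 := lower_3_4_8
        norm_num [formula] at *
        linarith
      · have h1 := upper_3_4_10
        have h2 := lower_3_4_10
        norm_num [formula] at *
        linarith
      · have h1 := upper_3_4_11
        have h2 := lower_3_4_11
        norm_num [formula] at *
        linarith
      · have h1 := upper_3_4_13
        have h2 := lower_3_4_13
        norm_num [formula] at *
        linarith
      · have h1 := upper_3_4_17
        have h2 := lower_3_4_17
        norm_num [formula] at *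
        linarith
    · rcases h with rfl | rfl
      · have h1 := upper_3_5_5
        have h2 := lower_3_5_5
        norm_num [formula] at *
        linarith
      · have h1 := upper_3_5_7
        have h2 := lower_3_5_7
        norm_num [formula] at *
        linarith
  · have hf : formula u v w = 1 - 1 / (u : ℝ) - 1 / (v : ℝ) - 1 / (w : ℝ) := by
      unfold formula
      unfold Exceptional at hne
      rw [if_neg (by omega), if_neg (by omega), if_neg (by omega), if_neg (by omega),
        if_neg (by omega), if_neg (by omega), if_neg (by omega), if_neg (by omega),
        if_neg (by omega), if_neg (by omega), if_neg (by omega)]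
    rw [hf]
    exact le_antisymm (generic_upper hu huv hvw hne)
      (naive_lower (by omega) (by omega) (by omega))

end Pool.Agent.Lib.MP_d7a06f_lc
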