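import Pool.Agent.Lib.MP_d7a06f_lc.Defs

/-!
# Basic minimax estimates for the Three Intervals Game
-/

open MeasureTheory

namespace Pool.Agent.Lib.MP_d7a06f_lc

theorem nonempty_redChoice {α : Fin 3 → ℝ} (hα : ∀ i, 0 ≤ α i) : Nonempty (RedChoice α) :=
  ⟨⟨fun _ => 0, fun _ => 0, fun _ => le_rfl, fun _ => le_rfl, fun _ => zero_le_one,
    fun i => by simpa using hα i⟩⟩

instance nonempty_prob : Nonempty (ProbabilityMeasure (Set.Icc (0 : ℝ) 1)) :=
  ⟨(⟨Measure.dirac ⟨0, le_rfl, zero_le_one⟩, inferInstance⟩ :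
    ProbabilityMeasure (Set.Icc (0 : ℝ) 1))⟩

theorem measurableSet_uncovered {α : Fin 3 → ℝ} (J : RedChoice α) :
    MeasurableSet {x : Set.Icc (0 : ℝ) 1 | (x : ℝ) ∉ J.covered} := by
  have h : MeasurableSet J.covered := MeasurableSet.iUnion fun i => measurableSet_Icc
  exact (h.preimage measurable_subtype_coe).compl

theorem bddBelow_real {α : Fin 3 → ℝ} (μ : ProbabilityMeasure (Set.Icc (0 : ℝ) 1)) :
    BddBelow (Set.range fun J : RedChoice α =>
      (μ : Measure (Set.Icc (0 : ℝ) 1)).real {x | (x : ℝ) ∉ J.covered}) := by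
  refine ⟨0, ?_⟩
  rintro _ ⟨J, rfl⟩
  exact measureReal_nonneg

theorem bddAbove_iInf {α : Fin 3 → ℝ} (hα : ∀ i, 0 ≤ α i) :
    BddAbove (Set.range fun μ : ProbabilityMeasure (Set.Icc (0 : ℝ) 1) => ⨅ J : RedChoice α,
      (μ : Measure (Set.Icc (0 : ℝ) 1)).real {x | (x : ℝ) ∉ J.covered}) := by
  refine ⟨1, ?_⟩
  rintro _ ⟨μ, rfl⟩
  obtain ⟨J⟩ := nonempty_redChoice hα
  exact (ciInf_le (bddBelow_real μ) J).trans measureReal_le_one

/-- Upper bound from a finite mixed strategy of RED. -/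
theorem escapeValue_le {α : Fin 3 → ℝ} {ι : Type*} (S : Finset ι)
    (wt : ι → ℝ) (hwt : ∀ s ∈ S, 0 ≤ wt s) (J : ι → RedChoice α) (W g : ℝ) (hW : 0 < W)
    (hsum : ∑ s ∈ S, wt s = W)
    (hcov : ∀ x : ℝ, 0 ≤ x → x ≤ 1 →
      ∑ s ∈ S, wt s * Set.indicator {y : ℝ | y ∉ (J s).covered} (fun _ => (1 : ℝ)) x ≤ g * W) :
    escapeValue α ≤ g := by
  classical
  refine ciSup_le fun μ => ?_
  set I : ℝ := ⨅ J : RedChoice α,
    (μ : Measure (Set.Icc (0 : ℝ) 1)).real {x | (x : ℝ) ∉ J.covered} with hI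
  have h1 : I * W ≤ ∑ s ∈ S, wt s *
      (μ : Measure (Set.Icc (0 : ℝ) 1)).real {x | (x : ℝ) ∉ (J s).covered} := by
    rw [← hsum, Finset.mul_sum]
    refine Finset.sum_le_sum fun s hs => ?_
    rw [mul_comm]
    exact mul_le_mul_of_nonneg_left (ciInf_le (bddBelow_real μ) (J s)) (hwt s hs)
  have h2 : ∑ s ∈ S, wt s *
      (μ : Measure (Set.Icc (0 : ℝ) 1)).real {x | (x : ℝ) ∉ (J s).covered} =
      ∫ x : Set.Icc (0 : ℝ) 1, ∑ s ∈ S, wt s *
        Set.indicator {y : Set.Icc (0 : ℝ) 1 | (y : ℝ) ∉ (J s).covered} (fun _ => (1 : ℝ)) x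
        ∂(μ : Measure (Set.Icc (0 : ℝ) 1)) := by
    rw [integral_finset_sum]
    · refine Finset.sum_congr rfl fun s _ => ?_
      rw [integral_const_mul, integral_indicator_const _ (measurableSet_uncovered (J s))]
      simp
    · intro s _
      refine Integrable.const_mul ?_ _
      exact (integrable_const (1 : ℝ)).indicator (measurableSet_uncovered (J s))
  have h3 : ∫ x : Set.Icc (0 : ℝ) 1, ∑ s ∈ S, wt s *
        Set.indicator {y : Set.Icc (0 : ℝ) 1 | (y : ℝ) ∉ (J s).covered} (fun _ => (1 : ℝ)) x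
        ∂(μ : Measure (Set.Icc (0 : ℝ) 1)) ≤
      ∫ _ : Set.Icc (0 : ℝ) 1, g * W ∂(μ : Measure (Set.Icc (0 : ℝ) 1)) := by
    refine integral_mono ?_ (integrable_const _) ?_
    · refine integrable_finset_sum _ fun s _ => Integrable.const_mul ?_ _
      exact (integrable_const (1 : ℝ)).indicator (measurableSet_uncovered (J s))
    · intro x
      refine le_trans (le_of_eq ?_) (hcov x.1 x.2.1 x.2.2)
      refine Finset.sum_congr rfl fun s _ => ?_
      rfl
  have h4 : I * W ≤ g * W := by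
    refine h1.trans (h2.le.trans (h3.trans ?_))
    simp
  exact le_of_mul_le_mul_right h4 hW

/-- Lower bound from a finitely supported mixed strategy of BLUE. -/
theorem le_escapeValue {α : Fin 3 → ℝ} (hα : ∀ i, 0 ≤ α i) {ι : Type*} (S : Finset ι)
    (m : ι → ℝ) (hm : ∀ s ∈ S, 0 ≤ m s) (p : ι → ℝ) (hp : ∀ s ∈ S, 0 ≤ p s ∧ p s ≤ 1)
    (M g : ℝ) (hM : 0 < M) (hsum : ∑ s ∈ S, m s = M)
    (h : ∀ J : RedChoice α,
      g * M ≤ ∑ s ∈ S, m s * Set.indicator {y : ℝ | y ∉ J.covered} (fun _ => (1 : ℝ)) (p s)) :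
    g ≤ escapeValue α := by
  classical
  set q : ι → Set.Icc (0 : ℝ) 1 := fun s => Set.projIcc 0 1 zero_le_one (p s) with hq
  have hqp : ∀ s ∈ S, ((q s : Set.Icc (0 : ℝ) 1) : ℝ) = p s := by
    intro s hs
    rw [hq]
    simp only [Set.coe_projIcc]
    rw [min_eq_right (hp s hs).2, max_eq_right (hp s hs).1]
  set μ0 : Measure (Set.Icc (0 : ℝ) 1) :=
    ∑ s ∈ S, ENNReal.ofReal (m s / M) • Measure.dirac (q s) with hμ0
  have hreal : ∀ A : Set (Set.Icc (0 : ℝ) 1), MeasurableSet A →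
      μ0 A = ENNReal.ofReal (∑ s ∈ S, (m s / M) * Set.indicator A (fun _ => (1 : ℝ)) (q s)) := by
    intro A hA
    rw [ENNReal.ofReal_sum_of_nonneg]
    · rw [hμ0, Measure.finsetSum_apply]
      refine Finset.sum_congr rfl fun s hs => ?_
      rw [Measure.smul_apply, Measure.dirac_apply' _ hA, smul_eq_mul]
      by_cases hqs : q s ∈ A
      · simp [hqs]
      · simp [hqs]
    · intro s hs
      refine mul_nonneg (div_nonneg (hm s hs) hM.le) ?_
      exact Set.indicator_nonneg (fun _ _ => zero_le_one) _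
  have hprob : IsProbabilityMeasure μ0 := by
    constructor
    rw [hreal _ MeasurableSet.univ]
    have : ∑ s ∈ S, (m s / M) * Set.indicator Set.univ (fun _ => (1 : ℝ)) (q s) = 1 := by
      simp only [Set.indicator_univ, mul_one]
      rw [← Finset.sum_div, hsum, div_self hM.ne']
    rw [this, ENNReal.ofReal_one]
  have := nonempty_redChoice hα
  refine le_trans ?_ (le_ciSup (bddAbove_iInf hα) ⟨μ0, hprob⟩)
  refine le_ciInf fun J => ?_
  have h1 : ((⟨μ0, hprob⟩ : ProbabilityMeasure (Set.Icc (0 : ℝ) 1)) :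
      Measure (Set.Icc (0 : ℝ) 1)).real {x | (x : ℝ) ∉ J.covered} =
      ∑ s ∈ S, (m s / M) * Set.indicator {y : ℝ | y ∉ J.covered} (fun _ => (1 : ℝ)) (p s) := by
    change μ0.real _ = _
    rw [measureReal_def, hreal _ (measurableSet_uncovered J), ENNReal.toReal_ofReal]
    · refine Finset.sum_congr rfl fun s hs => ?_
      congr 1
      rw [← hqp s hs]
      rfl
    · refine Finset.sum_nonneg fun s hs => ?_
      refine mul_nonneg (div_nonneg (hm s hs) hM.le) ?_
      exact Set.indicator_nonneg (fun _ _ => zero_le_one) _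
  refine le_of_le_of_eq ?_ h1.symm
  have h2 : ∑ s ∈ S, (m s / M) * Set.indicator {y : ℝ | y ∉ J.covered} (fun _ => (1 : ℝ)) (p s) =
      (∑ s ∈ S, m s * Set.indicator {y : ℝ | y ∉ J.covered} (fun _ => (1 : ℝ)) (p s)) / M := by
    rw [Finset.sum_div]
    refine Finset.sum_congr rfl fun s _ => by ring
  rw [h2, le_div_iff₀ hM]
  exact h J

/-- Monotonicity in the lengths. -/
theorem escapeValue_anti {α β : Fin 3 → ℝ} (hβ : ∀ i, 0 ≤ β i) (h : ∀ i, β i ≤ α i) :
    escapeValue α ≤ escapeValue β := by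
  have hne := nonempty_redChoice hβ
  refine ciSup_le fun μ => ?_
  refine le_trans ?_ (le_ciSup (bddAbove_iInf hβ) μ)
  refine le_ciInf fun J => ?_
  exact ciInf_le (bddBelow_real μ) (⟨J.left, J.right, J.left_nonneg, J.left_le_right,
    J.right_le_one, fun i => (J.length_le i).trans (h i)⟩ : RedChoice α)

end Pool.Agent.Lib.MP_d7a06f_lc
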