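import Pool.Agent.Lib.MP_d7a06f_lc.Basic

/-!
# Discretised strategies of RED
-/

open MeasureTheory

namespace Pool.Agent.Lib.MP_d7a06f_lc

theorem exists_cell {L : ℕ} (hL : 0 < L) {x : ℝ} (h0 : 0 ≤ x) (h1 : x ≤ 1) :
    ∃ c : ℕ, c < L ∧ (c : ℝ) / L ≤ x ∧ x ≤ ((c : ℝ) + 1) / L := by
  have hL' : (0 : ℝ) < L := by exact_mod_cast hL
  rcases h1.lt_or_eq with h1 | h1
  · refine ⟨⌊x * L⌋₊, ?_, ?_, ?_⟩
    · rw [Nat.floor_lt (by positivity)]
      nlinarith
    · rw [div_le_iff₀ hL']
      exact Nat.floor_le (by positivity)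
    · rw [le_div_iff₀ hL']
      exact (Nat.lt_floor_add_one _).le
  · refine ⟨L - 1, by omega, ?_, ?_⟩
    · rw [h1, div_le_one hL']
      exact_mod_cast Nat.sub_le _ _
    · have : ((L - 1 : ℕ) : ℝ) + 1 = L := by
        rw [Nat.cast_sub hL]; simp
      rw [this, div_self hL'.ne', h1]

/-- Upper bound from a finite mixed strategy of RED using blocks of cells. -/
theorem cell_upper {α : Fin 3 → ℝ} {L : ℕ} (hL : 0 < L) {ι : Type*} (S : Finset ι)
    (wt : ι → ℕ) (st : ι → Fin 3 → ℕ) (len : Fin 3 → ℕ) (hlen : ∀ i, (len i : ℝ) / L ≤ α i)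
    (hst : ∀ s ∈ S, ∀ i, st s i + len i ≤ L) (W K : ℕ) (hW : 0 < W)
    (hsum : ∑ s ∈ S, wt s = W)
    (hcov : ∀ c < L, K ≤ ∑ s ∈ S, if (∃ i, st s i ≤ c ∧ c < st s i + len i) then wt s else 0) :
    escapeValue α ≤ 1 - (K : ℝ) / W := by
  classical
  have hL' : (0 : ℝ) < L := by exact_mod_cast hL
  have hW' : (0 : ℝ) < W := by exact_mod_cast hW
  -- extend the strategy outside `S` by clamping
  have hJ : ∀ s : ι, ∃ J : RedChoice α, s ∈ S → ∀ i, J.left i = (st s i : ℝ) / L ∧
      J.right i = ((st s i : ℝ) + len i) / L := by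
    intro s
    by_cases hs : s ∈ S
    · refine ⟨⟨fun i => (st s i : ℝ) / L, fun i => ((st s i : ℝ) + len i) / L, fun i => by positivity,
        fun i => ?_, fun i => ?_, fun i => ?_⟩, fun _ i => ⟨rfl, rfl⟩⟩
      · gcongr
        simp
      · rw [div_le_one hL']
        exact_mod_cast hst s hs i
      · rw [← sub_div, add_sub_cancel_left]
        exact hlen i
    · have hα : ∀ i, 0 ≤ α i := fun i => le_trans (by positivity) (hlen i)
      obtain ⟨J⟩ := nonempty_redChoice hα
      exact ⟨J, fun h => absurd h hs⟩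
  choose J hJ using hJ
  refine escapeValue_le S (fun s => (wt s : ℝ)) (fun _ _ => by positivity) J W _ hW' ?_ ?_
  · exact_mod_cast hsum
  · intro x hx0 hx1
    obtain ⟨c, hc, hcx, hxc⟩ := exists_cell hL hx0 hx1
    have h1 := hcov c hc
    have h2 : (1 - (K : ℝ) / W) * W = W - K := by
      field_simp
    rw [h2]
    have h3 : ∀ s ∈ S, (wt s : ℝ) *
        Set.indicator {y : ℝ | y ∉ (J s).covered} (fun _ => (1 : ℝ)) x ≤
        (wt s : ℝ) - (if (∃ i, st s i ≤ c ∧ c < st s i + len i) then wt s else 0 : ℕ) := by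
      intro s hs
      split_ifs with h
      · obtain ⟨i, hi1, hi2⟩ := h
        have hx : x ∈ (J s).covered := by
          refine Set.mem_iUnion.mpr ⟨i, ?_⟩
          rw [(hJ s hs i).1, (hJ s hs i).2]
          constructor
          · refine le_trans ?_ hcx
            gcongr
          · refine le_trans hxc ?_
            refine div_le_div_of_nonneg_right ?_ hL'.le
            exact_mod_cast hi2
        rw [Set.indicator_of_notMem (by simpa using hx)]
        simp
      · have h01 : Set.indicator {y : ℝ | y ∉ (J s).covered} (fun _ => (1 : ℝ)) x ≤ 1 :=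
          Set.indicator_le_self' (fun _ _ => zero_le_one) x
        have hwt : (0 : ℝ) ≤ wt s := by positivity
        push_cast
        nlinarith
    refine (Finset.sum_le_sum h3).trans ?_
    rw [Finset.sum_sub_distrib, ← Nat.cast_sum, ← Nat.cast_sum, hsum]
    have h4 : (K : ℝ) ≤ ((∑ s ∈ S,
        if (∃ i, st s i ≤ c ∧ c < st s i + len i) then wt s else 0 : ℕ) : ℝ) := by
      exact_mod_cast h1
    linarith

/-- The tile `[i/u,(i+1)/u]` and the tile `[j/v,(j+1)/v]` have disjoint interiors. -/
def Disj (u v i j : ℕ) : Prop := (i + 1) * v ≤ j * u ∨ (j + 1) * u ≤ i * v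

instance (u v i j : ℕ) : Decidable (Disj u v i j) := by unfold Disj; infer_instance

theorem Disj.not_both {u v w i j c : ℕ} (h : Disj u v i j)
    (hi : i * (v * w) ≤ c ∧ c < (i + 1) * (v * w)) (hj : j * (u * w) ≤ c ∧ c < (j + 1) * (u * w)) :
    False := by
  rcases h with h | h
  · have h1 : (i + 1) * v * w ≤ j * u * w := Nat.mul_le_mul_right w h
    have h2 : (i + 1) * (v * w) = (i + 1) * v * w := by ring
    have h3 : j * (u * w) = j * u * w := by ring
    omega
  · have h1 : (j + 1) * u * w ≤ i * v * w := Nat.mul_le_mul_right w h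
    have h2 : (j + 1) * (u * w) = (j + 1) * u * w := by ring
    have h3 : i * (v * w) = i * v * w := by ring
    omega

/-- RED plays with disjoint tiles and uniform marginals. -/
theorem tile_upper {u v w : ℕ} (hu : 0 < u) (hv : 0 < v) (hw : 0 < w) {ι : Type*} (S : Finset ι)
    (wt f g h : ι → ℕ) (Wu Wv Ww W : ℕ) (hW : 0 < W)
    (hWu : u * Wu = W) (hWv : v * Wv = W) (hWw : w * Ww = W)
    (hf : ∀ s ∈ S, f s < u) (hg : ∀ s ∈ S, g s < v) (hh : ∀ s ∈ S, h s < w)
    (mf : ∀ i < u, ∑ s ∈ S, (if f s = i then wt s else 0) = Wu)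
    (mg : ∀ i < v, ∑ s ∈ S, (if g s = i then wt s else 0) = Wv)
    (mh : ∀ i < w, ∑ s ∈ S, (if h s = i then wt s else 0) = Ww)
    (dfg : ∀ s ∈ S, Disj u v (f s) (g s)) (dgh : ∀ s ∈ S, Disj v w (g s) (h s))
    (dfh : ∀ s ∈ S, Disj u w (f s) (h s)) :
    gameValue u v w ≤ 1 - 1 / u - 1 / v - 1 / w := by
  classical
  have hu' : (0 : ℝ) < u := by exact_mod_cast hu
  have hv' : (0 : ℝ) < v := by exact_mod_cast hv
  have hw' : (0 : ℝ) < w := by exact_mod_cast hw
  have hW' : (0 : ℝ) < W := by exact_mod_cast hW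
  have hsum : ∑ s ∈ S, wt s = W := by
    have h1 : ∀ s ∈ S, wt s = ∑ i ∈ Finset.range u, if f s = i then wt s else 0 := by
      intro s hs
      rw [Finset.sum_ite_eq]
      simp [hf s hs]
    rw [Finset.sum_congr rfl h1, Finset.sum_comm]
    rw [Finset.sum_congr rfl (fun i hi => mf i (Finset.mem_range.mp hi))]
    simp [hWu]
  have hL : 0 < u * v * w := by positivity
  have key := cell_upper (α := ![1 / (u : ℝ), 1 / (v : ℝ), 1 / (w : ℝ)]) hL S wt
    (fun s => ![f s * (v * w), g s * (u * w), h s * (u * v)]) ![v * w, u * w, u * v]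
    (by
      intro i
      fin_cases i
      · simp only [Matrix.cons_val_zero, Fin.zero_eta]
        apply le_of_eq; push_cast; field_simp
      · simp only [Fin.mk_one, Matrix.cons_val_one]
        apply le_of_eq; push_cast; field_simp
      · simp only [Fin.reduceFinMk, Matrix.cons_val]
        apply le_of_eq; push_cast; field_simp)
    (by
      intro s hs i
      have h1 := hf s hs
      have h2 := hg s hs
      have h3 := hh s hs
      fin_cases i
      · simp only [Matrix.cons_val_zero, Fin.zero_eta]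
        calc f s * (v * w) + v * w = (f s + 1) * (v * w) := by ring
          _ ≤ u * (v * w) := Nat.mul_le_mul_right _ h1
          _ = u * v * w := by ring
      · simp only [Fin.mk_one, Matrix.cons_val_one]
        calc g s * (u * w) + u * w = (g s + 1) * (u * w) := by ring
          _ ≤ v * (u * w) := Nat.mul_le_mul_right _ h2
          _ = u * v * w := by ring
      · simp only [Fin.reduceFinMk, Matrix.cons_val]
        calc h s * (u * v) + u * v = (h s + 1) * (u * v) := by ring
          _ ≤ w * (u * v) := Nat.mul_le_mul_right _ h3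
          _ = u * v * w := by ring)
    W (Wu + Wv + Ww) hW hsum ?_
  · refine key.trans (le_of_eq ?_)
    have e1 : (Wu : ℝ) = W / u := by
      rw [eq_div_iff hu'.ne']; exact_mod_cast (by rw [mul_comm]; exact hWu : Wu * u = W)
    have e2 : (Wv : ℝ) = W / v := by
      rw [eq_div_iff hv'.ne']; exact_mod_cast (by rw [mul_comm]; exact hWv : Wv * v = W)
    have e3 : (Ww : ℝ) = W / w := by
      rw [eq_div_iff hw'.ne']; exact_mod_cast (by rw [mul_comm]; exact hWw : Ww * w = W)
    push_cast
    rw [e1, e2, e3]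
    field_simp
    ring
  · intro c hc
    have hvw : 0 < v * w := by positivity
    have huw : 0 < u * w := by positivity
    have huv : 0 < u * v := by positivity
    have hi : c / (v * w) < u := by
      rw [Nat.div_lt_iff_lt_mul hvw]
      calc c < u * v * w := hc
        _ = u * (v * w) := by ring
    have hj : c / (u * w) < v := by
      rw [Nat.div_lt_iff_lt_mul huw]
      calc c < u * v * w := hc
        _ = v * (u * w) := by ring
    have hk : c / (u * v) < w := by
      rw [Nat.div_lt_iff_lt_mul huv]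
      calc c < u * v * w := hc
        _ = w * (u * v) := by ring
    rw [← mf _ hi, ← mg _ hj, ← mh _ hk, ← Finset.sum_add_distrib, ← Finset.sum_add_distrib]
    refine Finset.sum_le_sum fun s hs => ?_
    have bnd : ∀ d : ℕ, 0 < d → (c / d) * d ≤ c ∧ c < (c / d + 1) * d := by
      intro d hd
      exact ⟨Nat.div_mul_le_self _ _, by
        have := Nat.lt_div_mul_add hd (a := c)
        calc c < c / d * d + d := this
          _ = (c / d + 1) * d := by ring⟩
    have b1 := bnd _ hvw
    have b2 := bnd _ huw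
    have b3 := bnd _ huv
    have n12 : ¬ (f s = c / (v * w) ∧ g s = c / (u * w)) := by
      rintro ⟨h1, h2⟩
      refine Disj.not_both (w := w) (c := c) (dfg s hs) ?_ ?_
      · rw [h1]; exact b1
      · rw [h2]; exact b2
    have n13 : ¬ (f s = c / (v * w) ∧ h s = c / (u * v)) := by
      rintro ⟨h1, h2⟩
      refine Disj.not_both (w := v) (c := c) (dfh s hs) ?_ ?_
      · rw [h1, mul_comm w v]; exact b1
      · rw [h2]; exact b3
    have n23 : ¬ (g s = c / (u * w) ∧ h s = c / (u * v)) := by
      rintro ⟨h1, h2⟩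
      refine Disj.not_both (w := u) (c := c) (dgh s hs) ?_ ?_
      · rw [h1, mul_comm w u]; exact b2
      · rw [h2, mul_comm v u]; exact b3
    by_cases c1 : f s = c / (v * w)
    · have c2 : g s ≠ c / (u * w) := fun h => n12 ⟨c1, h⟩
      have c3 : h s ≠ c / (u * v) := fun h => n13 ⟨c1, h⟩
      rw [if_pos c1, if_neg c2, if_neg c3, if_pos]
      · simp
      · refine ⟨0, ?_⟩
        simp only [Matrix.cons_val_zero]
        rw [c1]
        exact ⟨b1.1, by have := b1.2; rw [Nat.add_mul, one_mul] at this; exact this⟩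
    · by_cases c2 : g s = c / (u * w)
      · have c3 : h s ≠ c / (u * v) := fun h => n23 ⟨c2, h⟩
        rw [if_neg c1, if_pos c2, if_neg c3, if_pos]
        · simp
        · refine ⟨1, ?_⟩
          simp only [Matrix.cons_val_one]
          rw [c2]
          exact ⟨b2.1, by have := b2.2; rw [Nat.add_mul, one_mul] at this; exact this⟩
      · by_cases c3 : h s = c / (u * v)
        · rw [if_neg c1, if_neg c2, if_pos c3, if_pos]
          · simp
          · refine ⟨2, ?_⟩
            simp only [Matrix.cons_val]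
            rw [c3]
            exact ⟨b3.1, by have := b3.2; rw [Nat.add_mul, one_mul] at this; exact this⟩
        · rw [if_neg c1, if_neg c2, if_neg c3]
          simp

end Pool.Agent.Lib.MP_d7a06f_lc
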