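import Pool.Agent.Lib.MP_d7a06f_lc.Rotation

/-!
# Certificates for strategies of RED
-/

namespace Pool.Agent.Lib.MP_d7a06f_lc

/-! ### Strategies with a margin: one table works for all large `w` -/

theorem sum_range_div {N w : ℕ} (hw : 0 < w) (F : ℕ → ℕ) :
    ∑ x ∈ Finset.range (N * w), F (x / w) = ∑ s ∈ Finset.range N, w * F s := by
  have h : ∀ x ∈ Finset.range (N * w),
      F (x / w) = ∑ s ∈ Finset.range N, if x / w = s then F s else 0 := by
    intro x hx
    rw [Finset.sum_ite_eq]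
    have : x / w ∈ Finset.range N := by
      rw [Finset.mem_range, Nat.div_lt_iff_lt_mul hw]
      exact Finset.mem_range.mp hx
    rw [if_pos this]
  rw [Finset.sum_congr rfl h, Finset.sum_comm]
  refine Finset.sum_congr rfl fun s hs => ?_
  have h2 := sum_div_eq hw (Finset.mem_range.mp hs)
  calc ∑ x ∈ Finset.range (N * w), (if x / w = s then F s else 0)
      = ∑ x ∈ Finset.range (N * w), (if x / w = s then 1 else 0) * F s := by
        refine Finset.sum_congr rfl fun x _ => ?_
        split_ifs <;> simp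
    _ = w * F s := by rw [← Finset.sum_mul, h2]

/-- Tile `i` of the `u`-tiling stays away from the subcells `s-1, s, s+1` out of `N`. -/
def Marg (u N s i : ℕ) : Prop := (i + 1) * N + u ≤ s * u ∨ (s + 2) * u ≤ i * N

instance (u N s i : ℕ) : Decidable (Marg u N s i) := by unfold Marg; infer_instance

theorem Marg.disj {u N s i w x : ℕ} (hN : 0 < N) (hw : N ≤ w) (h : Marg u N s i)
    (hs : x / w = s) : Disj u w i (x / N) := by
  have hw0 : 0 < w := lt_of_lt_of_le hN hw
  set k := x / N with hk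
  have h1 : s * w ≤ x := by rw [← hs]; exact Nat.div_mul_le_self _ _
  have h2 : x < s * w + w := by rw [← hs]; exact Nat.lt_div_mul_add hw0
  have h3 : k * N ≤ x := Nat.div_mul_le_self _ _
  have h4 : x < k * N + N := Nat.lt_div_mul_add hN
  rcases h with h | h
  · left
    refine le_of_mul_le_mul_right ?_ hN
    have a1 : ((i + 1) * N + u) * w ≤ s * u * w := Nat.mul_le_mul_right _ h
    have a2 : (s * w) * u ≤ (k * N + N) * u := Nat.mul_le_mul_right _ (by omega)
    have a3 : N * u ≤ w * u := Nat.mul_le_mul_right _ hw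
    nlinarith
  · right
    refine le_of_mul_le_mul_right ?_ hN
    have a1 : (s + 2) * u * w ≤ i * N * w := Nat.mul_le_mul_right _ h
    have a2 : (k * N + N) * u ≤ (s * w + w + w) * u := Nat.mul_le_mul_right _ (by omega)
    nlinarith

theorem phi_upper {u v N w : ℕ} (hu : 0 < u) (hv : 0 < v) (hN : 0 < N) (hw : N ≤ w)
    (Nu Nv : ℕ) (hNu : u * Nu = N) (hNv : v * Nv = N) (φ ψ : ℕ → ℕ)
    (h1 : ∀ s < N, φ s < u) (h2 : ∀ s < N, ψ s < v)
    (h3 : ∀ s < N, Disj u v (φ s) (ψ s)) (h4 : ∀ s < N, Marg u N s (φ s))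
    (h5 : ∀ s < N, Marg v N s (ψ s))
    (h6 : ∀ i < u, ∑ s ∈ Finset.range N, (if φ s = i then 1 else 0) = Nu)
    (h7 : ∀ i < v, ∑ s ∈ Finset.range N, (if ψ s = i then 1 else 0) = Nv) :
    gameValue u v w ≤ 1 - 1 / u - 1 / v - 1 / w := by
  have hw0 : 0 < w := lt_of_lt_of_le hN hw
  have hx : ∀ x ∈ Finset.range (N * w), x / w < N := by
    intro x hx
    rw [Nat.div_lt_iff_lt_mul hw0]
    exact Finset.mem_range.mp hx
  refine tile_upper hu hv hw0 (Finset.range (N * w)) (fun _ => 1) (fun x => φ (x / w))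
    (fun x => ψ (x / w)) (fun x => x / N) (Nu * w) (Nv * w) N (N * w) (by positivity)
    (by rw [← hNu]; ring) (by rw [← hNv]; ring) (by ring) ?_ ?_ ?_ ?_ ?_ ?_ ?_ ?_ ?_
  · exact fun x h => h1 _ (hx x h)
  · exact fun x h => h2 _ (hx x h)
  · intro x h
    rw [Nat.div_lt_iff_lt_mul hN, mul_comm]
    exact Finset.mem_range.mp h
  · intro i hi
    rw [sum_range_div hw0 (fun s => if φ s = i then 1 else 0), ← Finset.mul_sum, h6 i hi, mul_comm]
  · intro i hi
    rw [sum_range_div hw0 (fun s => if ψ s = i then 1 else 0), ← Finset.mul_sum, h7 i hi, mul_comm]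
  · intro i hi
    rw [mul_comm N w]
    exact sum_div_eq hN hi
  · exact fun x h => h3 _ (hx x h)
  · exact fun x h => (h5 _ (hx x h)).disj hN hw rfl
  · exact fun x h => (h4 _ (hx x h)).disj hN hw rfl

/-! ### Finite certificates for tile strategies -/

/-- Sum of the weights of the entries satisfying `p`. -/
def wsum (p : ℕ × ℕ × ℕ × ℕ → Bool) : List (ℕ × ℕ × ℕ × ℕ) → ℕ
  | [] => 0
  | e :: l => (if p e then e.2.2.2 else 0) + wsum p l

theorem wsum_eq (p : ℕ × ℕ × ℕ × ℕ → Bool) (l : List (ℕ × ℕ × ℕ × ℕ)) :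
    ∑ s : Fin l.length, (if p (l.get s) then (l.get s).2.2.2 else 0) = wsum p l := by
  induction l with
  | nil => rfl
  | cons e l ih =>
    rw [wsum, ← ih]
    exact Fin.sum_univ_succ _

/-- Checker for a tile strategy. -/
def checkTile (u v w W : ℕ) (l : List (ℕ × ℕ × ℕ × ℕ)) : Bool :=
  decide (0 < W) && l.all (fun e => decide (e.1 < u) && decide (e.2.1 < v) && decide (e.2.2.1 < w)
    && decide (Disj u v e.1 e.2.1) && decide (Disj v w e.2.1 e.2.2.1)
    && decide (Disj u w e.1 e.2.2.1))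
  && (List.range u).all (fun i => u * wsum (fun e => e.1 == i) l == W)
  && (List.range v).all (fun i => v * wsum (fun e => e.2.1 == i) l == W)
  && (List.range w).all (fun i => w * wsum (fun e => e.2.2.1 == i) l == W)

theorem upper_of_checkTile {u v w W : ℕ} (hu : 0 < u) (hv : 0 < v) (hw : 0 < w)
    {l : List (ℕ × ℕ × ℕ × ℕ)} (h : checkTile u v w W l = true) :
    gameValue u v w ≤ 1 - 1 / u - 1 / v - 1 / w := by
  simp only [checkTile, Bool.and_eq_true, decide_eq_true_eq, List.all_eq_true, beq_iff_eq,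
    List.mem_range] at h
  obtain ⟨⟨⟨⟨hW, hall⟩, h1⟩, h2⟩, h3⟩ := h
  have hget : ∀ s : Fin l.length, l.get s ∈ l := fun s => List.get_mem l s
  have e1 : ∀ i, ∑ s : Fin l.length, (if (l.get s).1 = i then (l.get s).2.2.2 else 0) =
      wsum (fun e => e.1 == i) l := by
    intro i
    rw [← wsum_eq]
    simp only [beq_iff_eq]
  have e2 : ∀ i, ∑ s : Fin l.length, (if (l.get s).2.1 = i then (l.get s).2.2.2 else 0) =
      wsum (fun e => e.2.1 == i) l := by
    intro i
    rw [← wsum_eq]
    simp only [beq_iff_eq]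
  have e3 : ∀ i, ∑ s : Fin l.length, (if (l.get s).2.2.1 = i then (l.get s).2.2.2 else 0) =
      wsum (fun e => e.2.2.1 == i) l := by
    intro i
    rw [← wsum_eq]
    simp only [beq_iff_eq]
  have key : ∀ {a b : ℕ}, 0 < a → a * b = W → b = W / a := by
    intro a b ha hab
    rw [← hab, Nat.mul_div_cancel_left _ ha]
  refine tile_upper hu hv hw (Finset.univ : Finset (Fin l.length)) (fun s => (l.get s).2.2.2)
    (fun s => (l.get s).1) (fun s => (l.get s).2.1) (fun s => (l.get s).2.2.1)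
    (W / u) (W / v) (W / w) W hW ?_ ?_ ?_ ?_ ?_ ?_ ?_ ?_ ?_ ?_ ?_ ?_
  · rw [← key hu (h1 0 hu)]; exact h1 0 hu
  · rw [← key hv (h2 0 hv)]; exact h2 0 hv
  · rw [← key hw (h3 0 hw)]; exact h3 0 hw
  · exact fun s _ => (hall _ (hget s)).1.1.1.1.1
  · exact fun s _ => (hall _ (hget s)).1.1.1.1.2
  · exact fun s _ => (hall _ (hget s)).1.1.1.2
  · intro i hi
    rw [e1, ← key hu (h1 i hi)]
  · intro i hi
    rw [e2, ← key hv (h2 i hi)]
  · intro i hi
    rw [e3, ← key hw (h3 i hi)]
  · exact fun s _ => (hall _ (hget s)).1.1.2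
  · exact fun s _ => (hall _ (hget s)).1.2
  · exact fun s _ => (hall _ (hget s)).2

/-! ### Finite certificates for cell strategies -/

/-- Checker for a strategy with starting cells `e.1, e.2.1, e.2.2.1` and block lengths `a, b, c`
out of `L` cells: every cell is covered with weight at least `K` out of `W`. -/
def checkCell (L a b c K W : ℕ) (l : List (ℕ × ℕ × ℕ × ℕ)) : Bool :=
  decide (0 < L) && decide (0 < W) &&
  l.all (fun e => decide (e.1 + a ≤ L) && decide (e.2.1 + b ≤ L) && decide (e.2.2.1 + c ≤ L))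
  && wsum (fun _ => true) l == W
  && (List.range L).all (fun x => decide (K ≤ wsum (fun e =>
      (decide (e.1 ≤ x) && decide (x < e.1 + a)) || (decide (e.2.1 ≤ x) && decide (x < e.2.1 + b))
      || (decide (e.2.2.1 ≤ x) && decide (x < e.2.2.1 + c))) l))

theorem upper_of_checkCell {u v w L K W : ℕ} (hu : 0 < u) (hv : 0 < v) (hw : 0 < w)
    {l : List (ℕ × ℕ × ℕ × ℕ)} (a b c : ℕ) (ha : u * a = L) (hb : v * b = L) (hc : w * c = L)
    (h : checkCell L a b c K W l = true) :
    gameValue u v w ≤ 1 - (K : ℝ) / W := by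
  simp only [checkCell, Bool.and_eq_true, decide_eq_true_eq, List.all_eq_true, beq_iff_eq,
    List.mem_range] at h
  obtain ⟨⟨⟨⟨hL, hW⟩, hall⟩, hsum⟩, hcov⟩ := h
  have hget : ∀ s : Fin l.length, l.get s ∈ l := fun s => List.get_mem l s
  have hlen : ∀ {p q : ℕ}, 0 < p → p * q = L → (q : ℝ) / L ≤ 1 / (p : ℝ) := by
    intro p q hp hpq
    have hp' : (0 : ℝ) < p := by exact_mod_cast hp
    have hq' : 0 < q := by
      rcases Nat.eq_zero_or_pos q with rfl | h
      · rw [mul_zero] at hpq; omega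
      · exact h
    have hq'' : (0 : ℝ) < q := by exact_mod_cast hq'
    rw [← hpq]
    push_cast
    apply le_of_eq
    field_simp
  refine cell_upper (α := ![1 / (u : ℝ), 1 / (v : ℝ), 1 / (w : ℝ)]) hL
    (Finset.univ : Finset (Fin l.length)) (fun s => (l.get s).2.2.2)
    (fun s => ![(l.get s).1, (l.get s).2.1, (l.get s).2.2.1]) ![a, b, c] ?_ ?_ W K hW ?_ ?_
  · intro i
    fin_cases i
    · exact hlen hu ha
    · exact hlen hv hb
    · exact hlen hw hc
  · intro s _ i
    have := hall _ (hget s)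
    fin_cases i
    · exact this.1.1
    · exact this.1.2
    · exact this.2
  · rw [← hsum, ← wsum_eq]
    simp
  · intro x hx
    refine (hcov x hx).trans ?_
    rw [← wsum_eq]
    refine Finset.sum_le_sum fun s _ => ?_
    split_ifs with h1 h2 h2
    · exact le_rfl
    · exfalso
      apply h2
      simp only [Bool.or_eq_true, Bool.and_eq_true, decide_eq_true_eq] at h1
      rcases h1 with (h1 | h1) | h1
      · exact ⟨0, h1⟩
      · exact ⟨1, h1⟩
      · exact ⟨2, h1⟩
    · exact Nat.zero_le _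
    · exact Nat.zero_le _

end Pool.Agent.Lib.MP_d7a06f_lc
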