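import Mathlib

/-!
# Definitions for MP_d7a06f_lc: the Three Intervals Game
-/

open MeasureTheory

namespace Pool.Agent.Lib.MP_d7a06f_lc

/-- A pure strategy of RED in the game with lengths `α 0, α 1, α 2`: three closed intervals
`[left i, right i] ⊆ [0,1]` of length at most `α i`. -/
structure RedChoice (α : Fin 3 → ℝ) where
  left : Fin 3 → ℝ
  right : Fin 3 → ℝ
  left_nonneg : ∀ i, 0 ≤ left i
  left_le_right : ∀ i, left i ≤ right i
  right_le_one : ∀ i, right i ≤ 1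
  length_le : ∀ i, right i - left i ≤ α i

/-- The set covered by the three intervals. -/
def RedChoice.covered {α : Fin 3 → ℝ} (J : RedChoice α) : Set ℝ :=
  ⋃ i, Set.Icc (J.left i) (J.right i)

/-- BLUE's guaranteed escape probability
`G(α) = sup_μ inf_J μ([0,1] \ (J₁ ∪ J₂ ∪ J₃))`, the supremum over all Borel probability measures
`μ` on `[0,1]` and the infimum over all pure strategies of RED. -/
noncomputable def escapeValue (α : Fin 3 → ℝ) : ℝ :=
  ⨆ μ : ProbabilityMeasure (Set.Icc (0 : ℝ) 1), ⨅ J : RedChoice α,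
    (μ : Measure (Set.Icc (0 : ℝ) 1)).real {x | (x : ℝ) ∉ J.covered}

/-- The game with lengths `1/u, 1/v, 1/w`. -/
noncomputable def gameValue (u v w : ℕ) : ℝ :=
  escapeValue ![1 / (u : ℝ), 1 / (v : ℝ), 1 / (w : ℝ)]

/-- The explicit formula for the value: `1 - 1/u - 1/v - 1/w`, except for the family
`(3,3,w)`, where it is `1/3 - 1/(3⌈w/3⌉)`, and for ten sporadic triples. -/
noncomputable def formula (u v w : ℕ) : ℝ :=
  if u = 3 ∧ v = 3 then 1 / 3 - 1 / (3 * (⌈(w : ℝ) / 3⌉₊ : ℝ))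
  else if u = 3 ∧ v = 4 ∧ w = 4 then 1 / 5
  else if u = 3 ∧ v = 4 ∧ w = 5 then 13 / 56
  else if u = 3 ∧ v = 4 ∧ w = 7 then 13 / 47
  else if u = 3 ∧ v = 4 ∧ w = 8 then 5 / 17
  else if u = 3 ∧ v = 4 ∧ w = 10 then 13 / 41
  else if u = 3 ∧ v = 4 ∧ w = 11 then 31 / 95
  else if u = 3 ∧ v = 4 ∧ w = 13 then 15 / 44
  else if u = 3 ∧ v = 4 ∧ w = 17 then 34 / 95
  else if u = 3 ∧ v = 5 ∧ w = 5 then 3 / 11
  else if u = 3 ∧ v = 5 ∧ w = 7 then 53 / 163
  else 1 - 1 / (u : ℝ) - 1 / (v : ℝ) - 1 / (w : ℝ)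

end Pool.Agent.Lib.MP_d7a06f_lc
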