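import Pool.Agent.Lib.MP_d7a06f_lc.Cells

/-!
# The rotation strategy of RED
-/

namespace Pool.Agent.Lib.MP_d7a06f_lc

theorem sum_div_eq {d u i : ℕ} (hd : 0 < d) (hi : i < u) :
    ∑ x ∈ Finset.range (u * d), (if x / d = i then 1 else 0) = d := by
  rw [← Finset.card_filter]
  have : (Finset.range (u * d)).filter (fun x => x / d = i) = Finset.Ico (i * d) ((i + 1) * d) := by
    ext x
    simp only [Finset.mem_filter, Finset.mem_range, Finset.mem_Ico]
    constructor
    · rintro ⟨_, rfl⟩
      exact ⟨Nat.div_mul_le_self _ _, by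
        have := Nat.lt_div_mul_add hd (a := x)
        calc x < x / d * d + d := this
          _ = (x / d + 1) * d := by ring⟩
    · rintro ⟨h1, h2⟩
      refine ⟨lt_of_lt_of_le h2 (Nat.mul_le_mul_right _ hi), ?_⟩
      apply le_antisymm
      · exact Nat.le_of_lt_succ ((Nat.div_lt_iff_lt_mul hd).mpr h2)
      · exact (Nat.le_div_iff_mul_le hd).mpr h1
  rw [this, Nat.card_Ico, Nat.add_mul, one_mul, Nat.add_sub_cancel_left]

theorem sum_shift {L A : ℕ} (hL : 0 < L) (hA : A ≤ L) (F : ℕ → ℕ) :
    ∑ x ∈ Finset.range L, F ((x + A) % L) = ∑ x ∈ Finset.range L, F x := by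
  refine Finset.sum_nbij' (fun x => (x + A) % L) (fun x => (x + (L - A)) % L) ?_ ?_ ?_ ?_ ?_
  · intro x _
    exact Finset.mem_range.mpr (Nat.mod_lt _ hL)
  · intro x _
    exact Finset.mem_range.mpr (Nat.mod_lt _ hL)
  · intro x hx
    have hx' := Finset.mem_range.mp hx
    simp only [Nat.mod_add_mod]
    rw [show x + A + (L - A) = x + L by omega, Nat.add_mod_right, Nat.mod_eq_of_lt hx']
  · intro x hx
    have hx' := Finset.mem_range.mp hx
    simp only [Nat.mod_add_mod]
    rw [show x + (L - A) + A = x + L by omega, Nat.add_mod_right, Nat.mod_eq_of_lt hx']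
  · intro x _
    rfl

theorem Disj.symm {u v i j : ℕ} (h : Disj u v i j) : Disj v u j i := Or.symm h

theorem disj_of_le {u v w x y : ℕ} (hu : 0 < u) (hv : 0 < v) (hw : 0 < w)
    (h : x + (u + v - Nat.gcd u v) * w ≤ y) : Disj u v (x / (v * w)) (y / (u * w)) := by
  by_contra hcon
  have hcon1 : ¬ ((x / (v * w) + 1) * v ≤ y / (u * w) * u) := fun h' => hcon (Or.inl h')
  set i := x / (v * w) with hi
  set j := y / (u * w) with hj
  have hlt : j * u < (i + 1) * v := not_le.mp hcon1
  set g := Nat.gcd u v with hg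
  have hgu : g ∣ u := Nat.gcd_dvd_left _ _
  have hgv : g ∣ v := Nat.gcd_dvd_right _ _
  have hgle : g ≤ u := Nat.le_of_dvd hu hgu
  have h1 : j * u + g ≤ (i + 1) * v := by
    obtain ⟨a, ha⟩ : g ∣ (i + 1) * v := hgv.mul_left _
    obtain ⟨b, hb⟩ : g ∣ j * u := hgu.mul_left _
    rw [ha, hb] at hlt ⊢
    have : b < a := lt_of_mul_lt_mul_left hlt (Nat.zero_le _)
    calc g * b + g = g * (b + 1) := by ring
      _ ≤ g * a := Nat.mul_le_mul_left _ this
  have huw : 0 < u * w := by positivity
  have hy : y < (j + 1) * (u * w) := by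
    have := Nat.lt_div_mul_add huw (a := y)
    calc y < y / (u * w) * (u * w) + u * w := this
      _ = (j + 1) * (u * w) := by rw [← hj]; ring
  have hx : i * (v * w) ≤ x := Nat.div_mul_le_self _ _
  have h2 : (j * u + g) * w ≤ (i + 1) * v * w := Nat.mul_le_mul_right _ h1
  have h3 : (u + v - g) * w + g * w = (u + v) * w := by
    rw [← Nat.add_mul, Nat.sub_add_cancel (by omega)]
  have e1 : (j + 1) * (u * w) = j * u * w + u * w := by ring
  have e2 : (j * u + g) * w = j * u * w + g * w := by ring
  have e3 : (i + 1) * v * w = i * (v * w) + v * w := by ring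
  have e4 : (u + v) * w = u * w + v * w := by ring
  omega

/-- RED's rotation strategy works under a simple inequality. -/
theorem rotation_upper {u v w : ℕ} (hu : 0 < u) (hv : 0 < v) (hw : 0 < w)
    (hR : (u + v - Nat.gcd u v) * w + (v + w - Nat.gcd v w) * u + (u + w - Nat.gcd u w) * v
      ≤ u * v * w) :
    gameValue u v w ≤ 1 - 1 / u - 1 / v - 1 / w := by
  set P := (u + v - Nat.gcd u v) * w with hP
  set Q := (v + w - Nat.gcd v w) * u with hQ
  set R := (u + w - Nat.gcd u w) * v with hRR
  set L := u * v * w with hL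
  have hLpos : 0 < L := by positivity
  have g1 : Nat.gcd u v ≤ u := Nat.le_of_dvd hu (Nat.gcd_dvd_left _ _)
  have g2 : Nat.gcd u v ≤ v := Nat.le_of_dvd hv (Nat.gcd_dvd_right _ _)
  have g3 : Nat.gcd v w ≤ v := Nat.le_of_dvd hv (Nat.gcd_dvd_left _ _)
  have g4 : Nat.gcd v w ≤ w := Nat.le_of_dvd hw (Nat.gcd_dvd_right _ _)
  have g5 : Nat.gcd u w ≤ u := Nat.le_of_dvd hu (Nat.gcd_dvd_left _ _)
  have g6 : Nat.gcd u w ≤ w := Nat.le_of_dvd hw (Nat.gcd_dvd_right _ _)
  have eP : P + Nat.gcd u v * w = u * w + v * w := by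
    rw [hP, ← Nat.add_mul, Nat.sub_add_cancel (by omega)]; ring
  have eQ : Q + Nat.gcd v w * u = u * v + u * w := by
    rw [hQ, ← Nat.add_mul, Nat.sub_add_cancel (by omega)]; ring
  have eR : R + Nat.gcd u w * v = u * v + v * w := by
    rw [hRR, ← Nat.add_mul, Nat.sub_add_cancel (by omega)]; ring
  have k1 : Nat.gcd u v * w ≤ u * w := Nat.mul_le_mul_right _ g1
  have k2 : Nat.gcd u v * w ≤ v * w := Nat.mul_le_mul_right _ g2
  have k3 : Nat.gcd v w * u ≤ u * v := by rw [mul_comm]; exact Nat.mul_le_mul_left _ g3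
  have k4 : Nat.gcd v w * u ≤ u * w := by rw [mul_comm]; exact Nat.mul_le_mul_left _ g4
  have k5 : Nat.gcd u w * v ≤ u * v := Nat.mul_le_mul_right _ g5
  have k6 : Nat.gcd u w * v ≤ v * w := by rw [mul_comm]; exact Nat.mul_le_mul_left _ g6
  have T1 : P ≤ Q + R := by omega
  have T2 : R ≤ P + Q := by omega
  have T3 : Q ≤ P + R := by omega
  have hvw : 0 < v * w := by positivity
  have huw : 0 < u * w := by positivity
  have huv : 0 < u * v := by positivity
  have hwu : 0 < w * u := by positivity
  refine tile_upper hu hv hw (Finset.range L) (fun _ => 1) (fun x => x / (v * w))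
    (fun x => ((x + P) % L) / (u * w)) (fun x => ((x + (P + Q)) % L) / (u * v))
    (v * w) (u * w) (u * v) L hLpos (by ring) (by ring) (by ring) ?_ ?_ ?_ ?_ ?_ ?_ ?_ ?_ ?_
  · intro s hs
    rw [Nat.div_lt_iff_lt_mul hvw]
    calc s < u * v * w := Finset.mem_range.mp hs
      _ = u * (v * w) := by ring
  · intro s _
    rw [Nat.div_lt_iff_lt_mul huw]
    calc (s + P) % L < L := Nat.mod_lt _ hLpos
      _ = v * (u * w) := by rw [hL]; ring
  · intro s _
    rw [Nat.div_lt_iff_lt_mul huv]
    calc (s + (P + Q)) % L < L := Nat.mod_lt _ hLpos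
      _ = w * (u * v) := by rw [hL]; ring
  · intro i hi
    rw [show L = u * (v * w) by rw [hL]; ring]
    exact sum_div_eq hvw hi
  · intro i hi
    rw [sum_shift hLpos (by omega) (fun x => if x / (u * w) = i then 1 else 0)]
    rw [show L = v * (u * w) by rw [hL]; ring]
    exact sum_div_eq huw hi
  · intro i hi
    rw [sum_shift hLpos (by omega) (fun x => if x / (u * v) = i then 1 else 0)]
    rw [show L = w * (u * v) by rw [hL]; ring]
    exact sum_div_eq huv hi
  · intro s hs
    have hs' := Finset.mem_range.mp hs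
    rcases Nat.lt_or_ge (s + P) L with h | h
    · simp only [Nat.mod_eq_of_lt h]
      exact disj_of_le hu hv hw le_rfl
    · have e : (s + P) % L = s + P - L := by
        rw [Nat.mod_eq_sub_mod h, Nat.mod_eq_of_lt (by omega)]
      simp only [e]
      refine Disj.symm (disj_of_le hv hu hw ?_)
      rw [Nat.add_comm v u, Nat.gcd_comm v u, ← hP]
      omega
  · intro s hs
    have hs' := Finset.mem_range.mp hs
    have main : ∀ y z : ℕ, (y + Q ≤ z ∨ z + Q ≤ y) → Disj v w (y / (u * w)) (z / (u * v)) := by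
      intro y z hyz
      rcases hyz with h | h
      · have := disj_of_le (u := v) (v := w) (w := u) (x := y) (y := z) hv hw hu (by rw [← hQ]; exact h)
        rwa [mul_comm w u, mul_comm v u] at this
      · have := disj_of_le (u := w) (v := v) (w := u) (x := z) (y := y) hw hv hu
          (by rw [Nat.add_comm w v, Nat.gcd_comm w v, ← hQ]; exact h)
        rw [mul_comm v u, mul_comm w u] at this
        exact this.symm
    apply main
    rcases Nat.lt_or_ge (s + P) L with h | h
    · rcases Nat.lt_or_ge (s + (P + Q)) L with h' | h'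
      · rw [Nat.mod_eq_of_lt h, Nat.mod_eq_of_lt h']
        omega
      · have e : (s + (P + Q)) % L = s + (P + Q) - L := by
          rw [Nat.mod_eq_sub_mod h', Nat.mod_eq_of_lt (by omega)]
        rw [Nat.mod_eq_of_lt h, e]
        omega
    · have e1 : (s + P) % L = s + P - L := by
        rw [Nat.mod_eq_sub_mod h, Nat.mod_eq_of_lt (by omega)]
      have e2 : (s + (P + Q)) % L = s + (P + Q) - L := by
        rw [Nat.mod_eq_sub_mod (by omega), Nat.mod_eq_of_lt (by omega)]
      rw [e1, e2]
      omega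
  · intro s hs
    have hs' := Finset.mem_range.mp hs
    rcases Nat.lt_or_ge (s + (P + Q)) L with h | h
    · simp only [Nat.mod_eq_of_lt h]
      have := disj_of_le (u := u) (v := w) (w := v) (x := s) (y := s + (P + Q)) hu hw hv
        (by rw [← hRR]; omega)
      rwa [mul_comm w v] at this
    · have e : (s + (P + Q)) % L = s + (P + Q) - L := by
        rw [Nat.mod_eq_sub_mod h, Nat.mod_eq_of_lt (by omega)]
      simp only [e]
      have := disj_of_le (u := w) (v := u) (w := v) (x := s + (P + Q) - L) (y := s) hw hu hv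
        (by rw [Nat.add_comm w u, Nat.gcd_comm w u, ← hRR]; omega)
      rw [mul_comm w v] at this
      exact this.symm

end Pool.Agent.Lib.MP_d7a06f_lc
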