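import Pool.Agent.Lib.MP_d7a06f_lc.Cert

/-!
# Tile strategies of RED for finitely many triples (generated certificates)
-/

namespace Pool.Agent.Lib.MP_d7a06f_lc

theorem upper_3_4_6 : gameValue 3 4 6 ≤ 1 - 1 / (3 : ℕ) - 1 / (4 : ℕ) - 1 / (6 : ℕ) :=
  upper_of_checkTile (W := 12) (by norm_num) (by norm_num) (by norm_num) (l :=
    [(0, 2, 2, 1), (0, 2, 5, 2), (0, 3, 3, 1), (1, 0, 4, 2), (1, 3, 1, 2), (2, 0, 2, 1), (2, 1,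
    0, 2), (2, 1, 3, 1)])
    (by decide +kernel)

theorem upper_3_4_9 : gameValue 3 4 9 ≤ 1 - 1 / (3 : ℕ) - 1 / (4 : ℕ) - 1 / (9 : ℕ) :=
  upper_of_checkTile (W := 36) (by norm_num) (by norm_num) (by norm_num) (l :=
    [(0, 2, 3, 3), (0, 2, 7, 2), (0, 2, 8, 4), (0, 3, 4, 2), (0, 3, 5, 1), (1, 0, 6, 4), (1, 0,
    7, 2), (1, 3, 1, 2), (1, 3, 2, 4), (2, 0, 3, 1), (2, 0, 4, 2), (2, 1, 0, 4), (2, 1, 1, 2),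
    (2, 1, 5, 3)])
    (by decide +kernel)

theorem upper_3_4_12 : gameValue 3 4 12 ≤ 1 - 1 / (3 : ℕ) - 1 / (4 : ℕ) - 1 / (12 : ℕ) :=
  upper_of_checkTile (W := 12) (by norm_num) (by norm_num) (by norm_num) (l :=
    [(0, 2, 4, 1), (0, 2, 5, 1), (0, 2, 11, 1), (0, 3, 7, 1), (1, 0, 9, 1), (1, 0, 10, 1), (1, 3,
    3, 1), (1, 3, 8, 1), (2, 0, 6, 1), (2, 1, 0, 1), (2, 1, 1, 1), (2, 1, 2, 1)])
    (by decide +kernel)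

theorem upper_3_4_14 : gameValue 3 4 14 ≤ 1 - 1 / (3 : ℕ) - 1 / (4 : ℕ) - 1 / (14 : ℕ) :=
  upper_of_checkTile (W := 84) (by norm_num) (by norm_num) (by norm_num) (l :=
    [(0, 2, 5, 5), (0, 2, 6, 6), (0, 2, 12, 4), (0, 2, 13, 6), (0, 3, 8, 1), (0, 3, 9, 6), (1, 0,
    10, 6), (1, 0, 11, 6), (1, 0, 12, 2), (1, 3, 1, 2), (1, 3, 2, 6), (1, 3, 3, 6), (2, 0, 4,
    6), (2, 0, 5, 1), (2, 1, 0, 6), (2, 1, 1, 4), (2, 1, 7, 6), (2, 1, 8, 5)])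
    (by decide +kernel)

theorem upper_3_4_15 : gameValue 3 4 15 ≤ 1 - 1 / (3 : ℕ) - 1 / (4 : ℕ) - 1 / (15 : ℕ) :=
  upper_of_checkTile (W := 60) (by norm_num) (by norm_num) (by norm_num) (l :=
    [(0, 2, 5, 3), (0, 2, 6, 4), (0, 2, 13, 4), (0, 2, 14, 4), (0, 3, 8, 1), (0, 3, 9, 4), (1, 0,
    10, 2), (1, 0, 11, 4), (1, 0, 12, 4), (1, 3, 3, 4), (1, 3, 4, 4), (1, 3, 10, 2), (2, 0, 5,
    1), (2, 0, 7, 4), (2, 1, 0, 4), (2, 1, 1, 4), (2, 1, 2, 4), (2, 1, 8, 3)])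
    (by decide +kernel)

theorem upper_3_4_16 : gameValue 3 4 16 ≤ 1 - 1 / (3 : ℕ) - 1 / (4 : ℕ) - 1 / (16 : ℕ) :=
  upper_of_checkTile (W := 48) (by norm_num) (by norm_num) (by norm_num) (l :=
    [(0, 2, 6, 3), (0, 2, 7, 3), (0, 2, 14, 3), (0, 2, 15, 3), (0, 3, 9, 1), (0, 3, 10, 3), (1,
    0, 11, 2), (1, 0, 12, 3), (1, 0, 13, 3), (1, 3, 2, 1), (1, 3, 3, 3), (1, 3, 4, 3), (1, 3,
    11, 1), (2, 0, 5, 3), (2, 0, 9, 1), (2, 1, 0, 3), (2, 1, 1, 3), (2, 1, 2, 2), (2, 1, 8, 3),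
    (2, 1, 9, 1)])
    (by decide +kernel)

theorem upper_3_4_18 : gameValue 3 4 18 ≤ 1 - 1 / (3 : ℕ) - 1 / (4 : ℕ) - 1 / (18 : ℕ) :=
  upper_of_checkTile (W := 36) (by norm_num) (by norm_num) (by norm_num) (l :=
    [(0, 2, 6, 1), (0, 2, 7, 2), (0, 2, 8, 2), (0, 2, 16, 2), (0, 2, 17, 2), (0, 3, 10, 1), (0,
    3, 11, 2), (1, 0, 13, 2), (1, 0, 14, 2), (1, 0, 15, 2), (1, 3, 4, 2), (1, 3, 5, 2), (1, 3,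
    12, 2), (2, 0, 6, 1), (2, 0, 9, 1), (2, 0, 10, 1), (2, 1, 0, 2), (2, 1, 1, 2), (2, 1, 2, 2),
    (2, 1, 3, 2), (2, 1, 9, 1)])
    (by decide +kernel)

theorem upper_3_4_19 : gameValue 3 4 19 ≤ 1 - 1 / (3 : ℕ) - 1 / (4 : ℕ) - 1 / (19 : ℕ) :=
  upper_of_checkTile (W := 228) (by norm_num) (by norm_num) (by norm_num) (l :=
    [(0, 2, 7, 12), (0, 2, 8, 12), (0, 2, 16, 9), (0, 2, 17, 12), (0, 2, 18, 12), (0, 3, 9, 5),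
    (0, 3, 11, 2), (0, 3, 12, 12), (1, 0, 13, 11), (1, 0, 14, 12), (1, 0, 15, 12), (1, 0, 16,
    3), (1, 3, 2, 1), (1, 3, 3, 12), (1, 3, 4, 12), (1, 3, 5, 12), (1, 3, 13, 1), (2, 0, 6, 12),
    (2, 0, 9, 7), (2, 1, 0, 12), (2, 1, 1, 12), (2, 1, 2, 11), (2, 1, 10, 12), (2, 1, 11, 10)])
    (by decide +kernel)

theorem upper_3_4_20 : gameValue 3 4 20 ≤ 1 - 1 / (3 : ℕ) - 1 / (4 : ℕ) - 1 / (20 : ℕ) :=
  upper_of_checkTile (W := 60) (by norm_num) (by norm_num) (by norm_num) (l :=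
    [(0, 2, 7, 3), (0, 2, 8, 3), (0, 2, 9, 3), (0, 2, 18, 3), (0, 2, 19, 3), (0, 3, 12, 2), (0,
    3, 13, 3), (1, 0, 14, 1), (1, 0, 15, 3), (1, 0, 16, 3), (1, 0, 17, 3), (1, 3, 3, 2), (1, 3,
    4, 3), (1, 3, 5, 3), (1, 3, 14, 2), (2, 0, 6, 3), (2, 0, 11, 1), (2, 0, 12, 1), (2, 1, 0,
    3), (2, 1, 1, 3), (2, 1, 2, 3), (2, 1, 3, 1), (2, 1, 10, 3), (2, 1, 11, 2)])
    (by decide +kernel)

theorem upper_3_4_21 : gameValue 3 4 21 ≤ 1 - 1 / (3 : ℕ) - 1 / (4 : ℕ) - 1 / (21 : ℕ) :=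
  upper_of_checkTile (W := 84) (by norm_num) (by norm_num) (by norm_num) (l :=
    [(0, 2, 7, 3), (0, 2, 8, 4), (0, 2, 9, 4), (0, 2, 18, 2), (0, 2, 19, 4), (0, 2, 20, 4), (0,
    3, 12, 3), (0, 3, 13, 4), (1, 0, 15, 4), (1, 0, 16, 4), (1, 0, 17, 4), (1, 0, 18, 2), (1, 3,
    4, 2), (1, 3, 5, 4), (1, 3, 6, 4), (1, 3, 14, 4), (2, 0, 7, 1), (2, 0, 10, 4), (2, 0, 11,
    1), (2, 0, 12, 1), (2, 1, 0, 4), (2, 1, 1, 4), (2, 1, 2, 4), (2, 1, 3, 4), (2, 1, 4, 2), (2,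
    1, 11, 3)])
    (by decide +kernel)

theorem upper_3_4_22 : gameValue 3 4 22 ≤ 1 - 1 / (3 : ℕ) - 1 / (4 : ℕ) - 1 / (22 : ℕ) :=
  upper_of_checkTile (W := 132) (by norm_num) (by norm_num) (by norm_num) (l :=
    [(0, 2, 8, 6), (0, 2, 9, 6), (0, 2, 10, 6), (0, 2, 19, 3), (0, 2, 20, 6), (0, 2, 21, 6), (0,
    3, 13, 5), (0, 3, 14, 6), (1, 0, 15, 1), (1, 0, 16, 6), (1, 0, 17, 6), (1, 0, 18, 6), (1, 0,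
    19, 3), (1, 3, 4, 5), (1, 3, 5, 6), (1, 3, 6, 6), (1, 3, 15, 5), (2, 0, 7, 6), (2, 0, 12,
    4), (2, 0, 13, 1), (2, 1, 0, 6), (2, 1, 1, 6), (2, 1, 2, 6), (2, 1, 3, 6), (2, 1, 4, 1), (2,
    1, 11, 6), (2, 1, 12, 2)])
    (by decide +kernel)

theorem upper_3_4_23 : gameValue 3 4 23 ≤ 1 - 1 / (3 : ℕ) - 1 / (4 : ℕ) - 1 / (23 : ℕ) :=
  upper_of_checkTile (W := 276) (by norm_num) (by norm_num) (by norm_num) (l :=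
    [(0, 2, 8, 12), (0, 2, 9, 12), (0, 2, 10, 12), (0, 2, 20, 9), (0, 2, 21, 12), (0, 2, 22, 12),
    (0, 3, 11, 1), (0, 3, 14, 10), (0, 3, 15, 12), (1, 0, 16, 7), (1, 0, 17, 12), (1, 0, 18,
    12), (1, 0, 19, 12), (1, 0, 20, 3), (1, 3, 3, 5), (1, 3, 4, 12), (1, 3, 5, 12), (1, 3, 6,
    12), (1, 3, 16, 5), (2, 0, 7, 12), (2, 0, 11, 11), (2, 1, 0, 12), (2, 1, 1, 12), (2, 1, 2,
    12), (2, 1, 3, 7), (2, 1, 12, 12), (2, 1, 13, 12), (2, 1, 14, 2)])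
    (by decide +kernel)

theorem upper_3_4_24 : gameValue 3 4 24 ≤ 1 - 1 / (3 : ℕ) - 1 / (4 : ℕ) - 1 / (24 : ℕ) :=
  upper_of_checkTile (W := 24) (by norm_num) (by norm_num) (by norm_num) (l :=
    [(0, 2, 8, 1), (0, 2, 9, 1), (0, 2, 10, 1), (0, 2, 11, 1), (0, 2, 22, 1), (0, 2, 23, 1), (0,
    3, 14, 1), (0, 3, 15, 1), (1, 0, 18, 1), (1, 0, 19, 1), (1, 0, 20, 1), (1, 0, 21, 1), (1, 3,
    6, 1), (1, 3, 7, 1), (1, 3, 16, 1), (1, 3, 17, 1), (2, 0, 12, 1), (2, 0, 13, 1), (2, 1, 0,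
    1), (2, 1, 1, 1), (2, 1, 2, 1), (2, 1, 3, 1), (2, 1, 4, 1), (2, 1, 5, 1)])
    (by decide +kernel)

theorem upper_3_4_25 : gameValue 3 4 25 ≤ 1 - 1 / (3 : ℕ) - 1 / (4 : ℕ) - 1 / (25 : ℕ) :=
  upper_of_checkTile (W := 300) (by norm_num) (by norm_num) (by norm_num) (l :=
    [(0, 2, 9, 12), (0, 2, 10, 12), (0, 2, 11, 12), (0, 2, 21, 3), (0, 2, 22, 12), (0, 2, 23,
    12), (0, 2, 24, 12), (0, 3, 12, 1), (0, 3, 15, 12), (0, 3, 16, 12), (1, 0, 17, 5), (1, 0,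
    18, 12), (1, 0, 19, 12), (1, 0, 20, 12), (1, 0, 21, 9), (1, 3, 4, 7), (1, 3, 5, 12), (1, 3,
    6, 12), (1, 3, 7, 12), (1, 3, 17, 7), (2, 0, 8, 12), (2, 0, 12, 11), (2, 0, 14, 2), (2, 1,
    0, 12), (2, 1, 1, 12), (2, 1, 2, 12), (2, 1, 3, 12), (2, 1, 4, 5), (2, 1, 13, 12), (2, 1,
    14, 10)])
    (by decide +kernel)

theorem upper_3_4_26 : gameValue 3 4 26 ≤ 1 - 1 / (3 : ℕ) - 1 / (4 : ℕ) - 1 / (26 : ℕ) :=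
  upper_of_checkTile (W := 156) (by norm_num) (by norm_num) (by norm_num) (l :=
    [(0, 2, 9, 5), (0, 2, 10, 6), (0, 2, 11, 6), (0, 2, 12, 6), (0, 2, 23, 4), (0, 2, 24, 6), (0,
    2, 25, 6), (0, 3, 14, 1), (0, 3, 16, 6), (0, 3, 17, 6), (1, 0, 19, 6), (1, 0, 20, 6), (1, 0,
    21, 6), (1, 0, 22, 6), (1, 0, 23, 2), (1, 3, 4, 2), (1, 3, 5, 6), (1, 3, 6, 6), (1, 3, 7,
    6), (1, 3, 18, 6), (2, 0, 8, 6), (2, 0, 9, 1), (2, 0, 15, 6), (2, 1, 0, 6), (2, 1, 1, 6),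
    (2, 1, 2, 6), (2, 1, 3, 6), (2, 1, 4, 4), (2, 1, 13, 6), (2, 1, 14, 5)])
    (by decide +kernel)

theorem upper_3_4_27 : gameValue 3 4 27 ≤ 1 - 1 / (3 : ℕ) - 1 / (4 : ℕ) - 1 / (27 : ℕ) :=
  upper_of_checkTile (W := 108) (by norm_num) (by norm_num) (by norm_num) (l :=
    [(0, 2, 9, 3), (0, 2, 10, 4), (0, 2, 11, 4), (0, 2, 12, 4), (0, 2, 24, 4), (0, 2, 25, 4), (0,
    2, 26, 4), (0, 3, 15, 1), (0, 3, 16, 4), (0, 3, 17, 4), (1, 0, 19, 2), (1, 0, 20, 4), (1, 0,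
    21, 4), (1, 0, 22, 4), (1, 0, 23, 4), (1, 3, 6, 4), (1, 3, 7, 4), (1, 3, 8, 4), (1, 3, 18,
    4), (1, 3, 19, 2), (2, 0, 9, 1), (2, 0, 13, 4), (2, 0, 14, 1), (2, 0, 15, 3), (2, 1, 0, 4),
    (2, 1, 1, 4), (2, 1, 2, 4), (2, 1, 3, 4), (2, 1, 4, 4), (2, 1, 5, 4), (2, 1, 14, 3)])
    (by decide +kernel)

theorem upper_3_4_28 : gameValue 3 4 28 ≤ 1 - 1 / (3 : ℕ) - 1 / (4 : ℕ) - 1 / (28 : ℕ) :=
  upper_of_checkTile (W := 84) (by norm_num) (by norm_num) (by norm_num) (l :=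
    [(0, 2, 10, 3), (0, 2, 11, 3), (0, 2, 12, 3), (0, 2, 13, 3), (0, 2, 25, 3), (0, 2, 26, 3),
    (0, 2, 27, 3), (0, 3, 16, 1), (0, 3, 17, 3), (0, 3, 18, 3), (1, 0, 8, 2), (1, 0, 21, 3), (1,
    0, 22, 3), (1, 0, 23, 3), (1, 0, 24, 3), (1, 3, 5, 1), (1, 3, 6, 3), (1, 3, 7, 3), (1, 3, 8,
    1), (1, 3, 19, 3), (1, 3, 20, 3), (2, 0, 9, 3), (2, 0, 15, 2), (2, 0, 16, 2), (2, 1, 0, 3),
    (2, 1, 1, 3), (2, 1, 2, 3), (2, 1, 3, 3), (2, 1, 4, 3), (2, 1, 5, 2), (2, 1, 14, 3), (2, 1,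
    15, 1)])
    (by decide +kernel)

theorem upper_3_4_29 : gameValue 3 4 29 ≤ 1 - 1 / (3 : ℕ) - 1 / (4 : ℕ) - 1 / (29 : ℕ) :=
  upper_of_checkTile (W := 348) (by norm_num) (by norm_num) (by norm_num) (l :=
    [(0, 2, 10, 12), (0, 2, 11, 12), (0, 2, 12, 12), (0, 2, 13, 12), (0, 2, 25, 3), (0, 2, 26,
    12), (0, 2, 27, 12), (0, 2, 28, 12), (0, 3, 17, 5), (0, 3, 18, 12), (0, 3, 19, 12), (1, 0,
    20, 1), (1, 0, 21, 12), (1, 0, 22, 12), (1, 0, 23, 12), (1, 0, 24, 12), (1, 0, 25, 9), (1,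
    3, 5, 11), (1, 3, 6, 12), (1, 3, 7, 12), (1, 3, 8, 12), (1, 3, 20, 11), (2, 0, 9, 12), (2,
    0, 14, 12), (2, 0, 17, 5), (2, 1, 0, 12), (2, 1, 1, 12), (2, 1, 2, 12), (2, 1, 3, 12), (2,
    1, 4, 12), (2, 1, 5, 1), (2, 1, 15, 12), (2, 1, 16, 12), (2, 1, 17, 2)])
    (by decide +kernel)

theorem upper_3_4_30 : gameValue 3 4 30 ≤ 1 - 1 / (3 : ℕ) - 1 / (4 : ℕ) - 1 / (30 : ℕ) :=
  upper_of_checkTile (W := 60) (by norm_num) (by norm_num) (by norm_num) (l :=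
    [(0, 2, 10, 1), (0, 2, 11, 2), (0, 2, 12, 2), (0, 2, 13, 2), (0, 2, 14, 2), (0, 2, 27, 2),
    (0, 2, 28, 2), (0, 2, 29, 2), (0, 3, 17, 1), (0, 3, 18, 2), (0, 3, 19, 2), (1, 0, 22, 2),
    (1, 0, 23, 2), (1, 0, 24, 2), (1, 0, 25, 2), (1, 0, 26, 2), (1, 3, 7, 2), (1, 3, 8, 2), (1,
    3, 9, 2), (1, 3, 20, 2), (1, 3, 21, 2), (2, 0, 10, 1), (2, 0, 15, 1), (2, 0, 16, 2), (2, 0,
    17, 1), (2, 1, 0, 2), (2, 1, 1, 2), (2, 1, 2, 2), (2, 1, 3, 2), (2, 1, 4, 2), (2, 1, 5, 2),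
    (2, 1, 6, 2), (2, 1, 15, 1)])
    (by decide +kernel)

theorem upper_3_4_31 : gameValue 3 4 31 ≤ 1 - 1 / (3 : ℕ) - 1 / (4 : ℕ) - 1 / (31 : ℕ) :=
  upper_of_checkTile (W := 372) (by norm_num) (by norm_num) (by norm_num) (l :=
    [(0, 2, 11, 12), (0, 2, 12, 12), (0, 2, 13, 12), (0, 2, 14, 12), (0, 2, 27, 9), (0, 2, 28,
    12), (0, 2, 29, 12), (0, 2, 30, 12), (0, 3, 18, 7), (0, 3, 19, 12), (0, 3, 20, 12), (1, 0,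
    9, 11), (1, 0, 23, 12), (1, 0, 24, 12), (1, 0, 25, 12), (1, 0, 26, 12), (1, 0, 27, 3), (1,
    3, 5, 1), (1, 3, 6, 12), (1, 3, 7, 12), (1, 3, 8, 12), (1, 3, 9, 1), (1, 3, 21, 12), (1, 3,
    22, 12), (2, 0, 10, 12), (2, 0, 15, 12), (2, 0, 17, 2), (2, 0, 18, 5), (2, 1, 0, 12), (2, 1,
    1, 12), (2, 1, 2, 12), (2, 1, 3, 12), (2, 1, 4, 12), (2, 1, 5, 11), (2, 1, 16, 12), (2, 1,
    17, 10)])
    (by decide +kernel)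

theorem upper_3_4_32 : gameValue 3 4 32 ≤ 1 - 1 / (3 : ℕ) - 1 / (4 : ℕ) - 1 / (32 : ℕ) :=
  upper_of_checkTile (W := 96) (by norm_num) (by norm_num) (by norm_num) (l :=
    [(0, 2, 11, 3), (0, 2, 12, 3), (0, 2, 13, 3), (0, 2, 14, 3), (0, 2, 15, 3), (0, 2, 29, 3),
    (0, 2, 30, 3), (0, 2, 31, 3), (0, 3, 19, 2), (0, 3, 20, 3), (0, 3, 21, 3), (1, 0, 9, 1), (1,
    0, 24, 3), (1, 0, 25, 3), (1, 0, 26, 3), (1, 0, 27, 3), (1, 0, 28, 3), (1, 3, 6, 2), (1, 3,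
    7, 3), (1, 3, 8, 3), (1, 3, 9, 2), (1, 3, 22, 3), (1, 3, 23, 3), (2, 0, 10, 3), (2, 0, 17,
    1), (2, 0, 18, 3), (2, 0, 19, 1), (2, 1, 0, 3), (2, 1, 1, 3), (2, 1, 2, 3), (2, 1, 3, 3),
    (2, 1, 4, 3), (2, 1, 5, 3), (2, 1, 6, 1), (2, 1, 16, 3), (2, 1, 17, 2)])
    (by decide +kernel)

theorem upper_3_4_33 : gameValue 3 4 33 ≤ 1 - 1 / (3 : ℕ) - 1 / (4 : ℕ) - 1 / (33 : ℕ) :=
  upper_of_checkTile (W := 132) (by norm_num) (by norm_num) (by norm_num) (l :=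
    [(0, 2, 11, 3), (0, 2, 12, 4), (0, 2, 13, 4), (0, 2, 14, 4), (0, 2, 15, 4), (0, 2, 29, 2),
    (0, 2, 30, 4), (0, 2, 31, 4), (0, 2, 32, 4), (0, 3, 19, 3), (0, 3, 20, 4), (0, 3, 21, 4),
    (1, 0, 24, 4), (1, 0, 25, 4), (1, 0, 26, 4), (1, 0, 27, 4), (1, 0, 28, 4), (1, 0, 29, 2),
    (1, 3, 7, 2), (1, 3, 8, 4), (1, 3, 9, 4), (1, 3, 10, 4), (1, 3, 22, 4), (1, 3, 23, 4), (2,
    0, 11, 1), (2, 0, 16, 4), (2, 0, 17, 1), (2, 0, 18, 4), (2, 0, 19, 1), (2, 1, 0, 4), (2, 1,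
    1, 4), (2, 1, 2, 4), (2, 1, 3, 4), (2, 1, 4, 4), (2, 1, 5, 4), (2, 1, 6, 4), (2, 1, 7, 2),
    (2, 1, 17, 3)])
    (by decide +kernel)

theorem upper_3_4_34 : gameValue 3 4 34 ≤ 1 - 1 / (3 : ℕ) - 1 / (4 : ℕ) - 1 / (34 : ℕ) :=
  upper_of_checkTile (W := 204) (by norm_num) (by norm_num) (by norm_num) (l :=
    [(0, 2, 12, 6), (0, 2, 13, 6), (0, 2, 14, 6), (0, 2, 15, 6), (0, 2, 16, 6), (0, 2, 30, 3),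
    (0, 2, 31, 6), (0, 2, 32, 6), (0, 2, 33, 6), (0, 3, 20, 5), (0, 3, 21, 6), (0, 3, 22, 6),
    (1, 0, 10, 1), (1, 0, 25, 6), (1, 0, 26, 6), (1, 0, 27, 6), (1, 0, 28, 6), (1, 0, 29, 6),
    (1, 0, 30, 3), (1, 3, 7, 5), (1, 3, 8, 6), (1, 3, 9, 6), (1, 3, 10, 5), (1, 3, 23, 6), (1,
    3, 24, 6), (2, 0, 11, 6), (2, 0, 18, 4), (2, 0, 19, 6), (2, 0, 20, 1), (2, 1, 0, 6), (2, 1,
    1, 6), (2, 1, 2, 6), (2, 1, 3, 6), (2, 1, 4, 6), (2, 1, 5, 6), (2, 1, 6, 6), (2, 1, 7, 1),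
    (2, 1, 17, 6), (2, 1, 18, 2)])
    (by decide +kernel)

theorem upper_3_4_35 : gameValue 3 4 35 ≤ 1 - 1 / (3 : ℕ) - 1 / (4 : ℕ) - 1 / (35 : ℕ) :=
  upper_of_checkTile (W := 420) (by norm_num) (by norm_num) (by norm_num) (l :=
    [(0, 2, 12, 12), (0, 2, 13, 12), (0, 2, 14, 12), (0, 2, 15, 12), (0, 2, 16, 12), (0, 2, 31,
    9), (0, 2, 32, 12), (0, 2, 33, 12), (0, 2, 34, 12), (0, 3, 21, 11), (0, 3, 22, 12), (0, 3,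
    23, 12), (1, 0, 10, 7), (1, 0, 26, 12), (1, 0, 27, 12), (1, 0, 28, 12), (1, 0, 29, 12), (1,
    0, 30, 12), (1, 0, 31, 3), (1, 3, 6, 5), (1, 3, 7, 12), (1, 3, 8, 12), (1, 3, 9, 12), (1, 3,
    10, 5), (1, 3, 24, 12), (1, 3, 25, 12), (2, 0, 11, 12), (2, 0, 17, 12), (2, 0, 20, 10), (2,
    0, 21, 1), (2, 1, 0, 12), (2, 1, 1, 12), (2, 1, 2, 12), (2, 1, 3, 12), (2, 1, 4, 12), (2, 1,
    5, 12), (2, 1, 6, 7), (2, 1, 18, 12), (2, 1, 19, 12), (2, 1, 20, 2)])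
    (by decide +kernel)

theorem upper_3_5_6 : gameValue 3 5 6 ≤ 1 - 1 / (3 : ℕ) - 1 / (5 : ℕ) - 1 / (6 : ℕ) :=
  upper_of_checkTile (W := 30) (by norm_num) (by norm_num) (by norm_num) (l :=
    [(0, 2, 5, 3), (0, 3, 2, 4), (0, 3, 5, 2), (0, 4, 3, 1), (1, 0, 4, 5), (1, 4, 1, 5), (2, 0,
    2, 1), (2, 1, 0, 2), (2, 1, 3, 4), (2, 2, 0, 3)])
    (by decide +kernel)

theorem upper_3_5_8 : gameValue 3 5 8 ≤ 1 - 1 / (3 : ℕ) - 1 / (5 : ℕ) - 1 / (8 : ℕ) :=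
  upper_of_checkTile (W := 120) (by norm_num) (by norm_num) (by norm_num) (l :=
    [(0, 2, 5, 11), (0, 3, 3, 15), (0, 3, 7, 9), (0, 4, 4, 1), (0, 4, 5, 4), (1, 0, 6, 15), (1,
    0, 7, 6), (1, 4, 0, 4), (1, 4, 1, 15), (2, 0, 2, 3), (2, 1, 0, 10), (2, 1, 4, 14), (2, 2, 0,
    1), (2, 2, 2, 12)])
    (by decide +kernel)

theorem upper_3_5_9 : gameValue 3 5 9 ≤ 1 - 1 / (3 : ℕ) - 1 / (5 : ℕ) - 1 / (9 : ℕ) :=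
  upper_of_checkTile (W := 45) (by norm_num) (by norm_num) (by norm_num) (l :=
    [(0, 2, 7, 1), (0, 2, 8, 2), (0, 3, 3, 5), (0, 3, 4, 1), (0, 3, 8, 3), (0, 4, 5, 3), (1, 0,
    6, 5), (1, 0, 7, 4), (1, 4, 0, 1), (1, 4, 2, 5), (2, 1, 0, 3), (2, 1, 4, 4), (2, 1, 5, 2),
    (2, 2, 0, 1), (2, 2, 1, 5)])
    (by decide +kernel)

theorem upper_3_5_10 : gameValue 3 5 10 ≤ 1 - 1 / (3 : ℕ) - 1 / (5 : ℕ) - 1 / (10 : ℕ) :=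
  upper_of_checkTile (W := 60) (by norm_num) (by norm_num) (by norm_num) (l :=
    [(0, 2, 6, 6), (0, 2, 7, 1), (0, 3, 4, 3), (0, 3, 5, 6), (0, 3, 9, 3), (0, 4, 4, 1), (1, 0,
    8, 6), (1, 0, 9, 3), (1, 4, 2, 6), (1, 4, 7, 5), (2, 0, 3, 3), (2, 1, 0, 6), (2, 1, 1, 4),
    (2, 1, 4, 2), (2, 2, 1, 2), (2, 2, 3, 3)])
    (by decide +kernel)

theorem upper_3_5_11 : gameValue 3 5 11 ≤ 1 - 1 / (3 : ℕ) - 1 / (5 : ℕ) - 1 / (11 : ℕ) :=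
  upper_of_checkTile (W := 165) (by norm_num) (by norm_num) (by norm_num) (l :=
    [(0, 2, 7, 15), (0, 2, 8, 7), (0, 3, 4, 15), (0, 3, 5, 2), (0, 3, 9, 1), (0, 3, 10, 15), (1,
    0, 8, 8), (1, 0, 9, 14), (1, 4, 0, 10), (1, 4, 1, 8), (1, 4, 2, 15), (2, 0, 3, 11), (2, 1,
    0, 5), (2, 1, 5, 13), (2, 1, 6, 15), (2, 2, 1, 7), (2, 2, 3, 4)])
    (by decide +kernel)

theorem upper_3_5_12 : gameValue 3 5 12 ≤ 1 - 1 / (3 : ℕ) - 1 / (5 : ℕ) - 1 / (12 : ℕ) :=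
  upper_of_checkTile (W := 60) (by norm_num) (by norm_num) (by norm_num) (l :=
    [(0, 2, 10, 1), (0, 2, 11, 3), (0, 3, 4, 5), (0, 3, 6, 5), (0, 3, 11, 2), (0, 4, 7, 4), (1,
    0, 8, 3), (1, 0, 9, 5), (1, 0, 10, 4), (1, 4, 1, 1), (1, 4, 3, 5), (1, 4, 8, 2), (2, 1, 0,
    5), (2, 1, 1, 1), (2, 1, 5, 5), (2, 1, 7, 1), (2, 2, 1, 3), (2, 2, 2, 5)])
    (by decide +kernel)

theorem upper_3_5_13 : gameValue 3 5 13 ≤ 1 - 1 / (3 : ℕ) - 1 / (5 : ℕ) - 1 / (13 : ℕ) :=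
  upper_of_checkTile (W := 195) (by norm_num) (by norm_num) (by norm_num) (l :=
    [(0, 2, 8, 15), (0, 2, 9, 11), (0, 3, 5, 15), (0, 3, 6, 1), (0, 3, 11, 8), (0, 3, 12, 15),
    (1, 0, 9, 4), (1, 0, 10, 15), (1, 0, 11, 7), (1, 4, 0, 5), (1, 4, 1, 4), (1, 4, 2, 15), (1,
    4, 3, 15), (2, 0, 4, 13), (2, 1, 0, 10), (2, 1, 6, 14), (2, 1, 7, 15), (2, 2, 1, 11), (2, 2,
    4, 2)])
    (by decide +kernel)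

theorem upper_3_5_14 : gameValue 3 5 14 ≤ 1 - 1 / (3 : ℕ) - 1 / (5 : ℕ) - 1 / (14 : ℕ) :=
  upper_of_checkTile (W := 210) (by norm_num) (by norm_num) (by norm_num) (l :=
    [(0, 2, 9, 15), (0, 2, 10, 2), (0, 2, 13, 11), (0, 3, 5, 15), (0, 3, 7, 8), (0, 3, 12, 15),
    (0, 3, 13, 4), (1, 0, 10, 13), (1, 0, 11, 15), (1, 4, 0, 10), (1, 4, 1, 2), (1, 4, 2, 15),
    (1, 4, 3, 15), (2, 0, 4, 14), (2, 1, 0, 5), (2, 1, 6, 15), (2, 1, 7, 7), (2, 1, 8, 15), (2,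
    2, 1, 13), (2, 2, 4, 1)])
    (by decide +kernel)

theorem upper_3_5_16 : gameValue 3 5 16 ≤ 1 - 1 / (3 : ℕ) - 1 / (5 : ℕ) - 1 / (16 : ℕ) :=
  upper_of_checkTile (W := 240) (by norm_num) (by norm_num) (by norm_num) (l :=
    [(0, 2, 10, 15), (0, 2, 11, 7), (0, 3, 6, 15), (0, 3, 8, 15), (0, 3, 14, 3), (0, 3, 15, 15),
    (0, 4, 9, 10), (1, 0, 12, 15), (1, 0, 13, 15), (1, 0, 14, 12), (1, 4, 3, 15), (1, 4, 4, 15),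
    (1, 4, 11, 8), (2, 0, 5, 6), (2, 1, 0, 15), (2, 1, 1, 13), (2, 1, 7, 15), (2, 1, 9, 5), (2,
    2, 1, 2), (2, 2, 2, 15), (2, 2, 5, 9)])
    (by decide +kernel)

theorem upper_3_5_17 : gameValue 3 5 17 ≤ 1 - 1 / (3 : ℕ) - 1 / (5 : ℕ) - 1 / (17 : ℕ) :=
  upper_of_checkTile (W := 255) (by norm_num) (by norm_num) (by norm_num) (l :=
    [(0, 2, 11, 15), (0, 2, 12, 2), (0, 2, 16, 15), (0, 3, 6, 15), (0, 3, 8, 12), (0, 3, 9, 15),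
    (0, 3, 14, 9), (0, 4, 10, 2), (1, 0, 13, 15), (1, 0, 14, 6), (1, 0, 15, 15), (1, 4, 0, 6),
    (1, 4, 3, 15), (1, 4, 4, 15), (1, 4, 12, 13), (2, 0, 5, 15), (2, 1, 0, 9), (2, 1, 1, 11),
    (2, 1, 7, 15), (2, 1, 8, 3), (2, 1, 10, 13), (2, 2, 1, 4), (2, 2, 2, 15)])
    (by decide +kernel)

theorem upper_3_5_18 : gameValue 3 5 18 ≤ 1 - 1 / (3 : ℕ) - 1 / (5 : ℕ) - 1 / (18 : ℕ) :=
  upper_of_checkTile (W := 90) (by norm_num) (by norm_num) (by norm_num) (l :=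
    [(0, 2, 11, 3), (0, 2, 17, 5), (0, 3, 6, 5), (0, 3, 7, 5), (0, 3, 9, 3), (0, 3, 16, 5), (0,
    4, 10, 4), (1, 0, 12, 1), (1, 0, 13, 5), (1, 0, 14, 5), (1, 0, 15, 5), (1, 4, 4, 5), (1, 4,
    5, 5), (1, 4, 12, 4), (2, 0, 11, 2), (2, 1, 0, 5), (2, 1, 1, 5), (2, 1, 8, 5), (2, 1, 9, 2),
    (2, 1, 10, 1), (2, 2, 2, 5), (2, 2, 3, 5)])
    (by decide +kernel)

theorem upper_3_5_19 : gameValue 3 5 19 ≤ 1 - 1 / (3 : ℕ) - 1 / (5 : ℕ) - 1 / (19 : ℕ) :=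
  upper_of_checkTile (W := 285) (by norm_num) (by norm_num) (by norm_num) (l :=
    [(0, 2, 12, 15), (0, 2, 13, 4), (0, 2, 18, 15), (0, 3, 7, 15), (0, 3, 10, 15), (0, 3, 16,
    12), (0, 3, 17, 15), (0, 4, 11, 4), (1, 0, 13, 9), (1, 0, 14, 15), (1, 0, 15, 15), (1, 0,
    16, 3), (1, 4, 1, 6), (1, 4, 3, 15), (1, 4, 4, 15), (1, 4, 5, 15), (1, 4, 13, 2), (2, 0, 6,
    15), (2, 1, 0, 15), (2, 1, 1, 1), (2, 1, 8, 15), (2, 1, 9, 15), (2, 1, 11, 11), (2, 2, 1,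
    8), (2, 2, 2, 15)])
    (by decide +kernel)

theorem upper_3_5_20 : gameValue 3 5 20 ≤ 1 - 1 / (3 : ℕ) - 1 / (5 : ℕ) - 1 / (20 : ℕ) :=
  upper_of_checkTile (W := 60) (by norm_num) (by norm_num) (by norm_num) (l :=
    [(0, 2, 12, 2), (0, 2, 13, 3), (0, 2, 19, 3), (0, 3, 7, 3), (0, 3, 9, 2), (0, 3, 10, 3), (0,
    3, 11, 3), (0, 3, 16, 1), (1, 0, 16, 2), (1, 0, 17, 3), (1, 0, 18, 3), (1, 4, 4, 3), (1, 4,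
    5, 3), (1, 4, 14, 3), (1, 4, 15, 3), (2, 0, 6, 3), (2, 0, 12, 1), (2, 1, 0, 3), (2, 1, 1,
    3), (2, 1, 2, 2), (2, 1, 8, 3), (2, 1, 9, 1), (2, 2, 2, 1), (2, 2, 3, 3)])
    (by decide +kernel)

theorem upper_3_5_21 : gameValue 3 5 21 ≤ 1 - 1 / (3 : ℕ) - 1 / (5 : ℕ) - 1 / (21 : ℕ) :=
  upper_of_checkTile (W := 210) (by norm_num) (by norm_num) (by norm_num) (l :=
    [(0, 2, 13, 7), (0, 2, 20, 10), (0, 3, 7, 10), (0, 3, 8, 9), (0, 3, 11, 3), (0, 3, 18, 10),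
    (0, 3, 19, 10), (0, 4, 8, 1), (0, 4, 12, 10), (1, 0, 14, 9), (1, 0, 15, 10), (1, 0, 16, 10),
    (1, 0, 17, 10), (1, 4, 4, 10), (1, 4, 5, 10), (1, 4, 6, 10), (1, 4, 14, 1), (2, 0, 13, 3),
    (2, 1, 0, 10), (2, 1, 1, 5), (2, 1, 9, 10), (2, 1, 10, 10), (2, 1, 11, 7), (2, 2, 1, 5), (2,
    2, 2, 10), (2, 2, 3, 10)])
    (by decide +kernel)

theorem upper_3_5_22 : gameValue 3 5 22 ≤ 1 - 1 / (3 : ℕ) - 1 / (5 : ℕ) - 1 / (22 : ℕ) :=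
  upper_of_checkTile (W := 660) (by norm_num) (by norm_num) (by norm_num) (l :=
    [(0, 2, 14, 30), (0, 2, 15, 9), (0, 2, 21, 30), (0, 3, 8, 29), (0, 3, 11, 30), (0, 3, 12,
    30), (0, 3, 19, 13), (0, 3, 20, 30), (0, 4, 8, 1), (0, 4, 13, 18), (1, 0, 16, 30), (1, 0,
    17, 30), (1, 0, 18, 30), (1, 0, 19, 17), (1, 4, 2, 2), (1, 4, 4, 30), (1, 4, 5, 30), (1, 4,
    6, 30), (1, 4, 15, 21), (2, 0, 7, 25), (2, 1, 0, 30), (2, 1, 1, 30), (2, 1, 9, 30), (2, 1,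
    10, 30), (2, 1, 13, 12), (2, 2, 2, 28), (2, 2, 3, 30), (2, 2, 7, 5)])
    (by decide +kernel)

theorem upper_3_5_23 : gameValue 3 5 23 ≤ 1 - 1 / (3 : ℕ) - 1 / (5 : ℕ) - 1 / (23 : ℕ) :=
  upper_of_checkTile (W := 345) (by norm_num) (by norm_num) (by norm_num) (l :=
    [(0, 2, 14, 7), (0, 2, 15, 15), (0, 2, 21, 9), (0, 2, 22, 15), (0, 3, 8, 15), (0, 3, 9, 15),
    (0, 3, 11, 13), (0, 3, 12, 15), (0, 3, 20, 5), (0, 3, 21, 6), (1, 0, 17, 6), (1, 0, 18, 15),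
    (1, 0, 19, 15), (1, 0, 20, 10), (1, 4, 4, 15), (1, 4, 5, 15), (1, 4, 6, 15), (1, 4, 16, 15),
    (1, 4, 17, 9), (2, 0, 7, 15), (2, 0, 14, 8), (2, 1, 0, 15), (2, 1, 1, 15), (2, 1, 2, 7), (2,
    1, 10, 15), (2, 1, 11, 2), (2, 1, 13, 15), (2, 2, 2, 8), (2, 2, 3, 15)])
    (by decide +kernel)

theorem upper_3_5_24 : gameValue 3 5 24 ≤ 1 - 1 / (3 : ℕ) - 1 / (5 : ℕ) - 1 / (24 : ℕ) :=
  upper_of_checkTile (W := 240) (by norm_num) (by norm_num) (by norm_num) (l :=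
    [(0, 2, 15, 7), (0, 2, 22, 2), (0, 2, 23, 10), (0, 3, 11, 10), (0, 3, 12, 10), (0, 3, 13,
    10), (0, 3, 21, 10), (0, 3, 22, 8), (0, 4, 9, 10), (0, 4, 14, 3), (1, 0, 16, 5), (1, 0, 17,
    10), (1, 0, 18, 10), (1, 0, 19, 10), (1, 0, 20, 10), (1, 4, 5, 10), (1, 4, 6, 10), (1, 4, 7,
    10), (1, 4, 16, 5), (2, 0, 15, 3), (2, 1, 0, 10), (2, 1, 1, 10), (2, 1, 2, 10), (2, 1, 3,
    1), (2, 1, 10, 10), (2, 1, 14, 7), (2, 2, 3, 9), (2, 2, 4, 10), (2, 2, 8, 10)])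
    (by decide +kernel)

theorem upper_3_5_25 : gameValue 3 5 25 ≤ 1 - 1 / (3 : ℕ) - 1 / (5 : ℕ) - 1 / (25 : ℕ) :=
  upper_of_checkTile (W := 150) (by norm_num) (by norm_num) (by norm_num) (l :=
    [(0, 2, 15, 5), (0, 2, 16, 6), (0, 2, 24, 6), (0, 3, 9, 3), (0, 3, 12, 5), (0, 3, 13, 6), (0,
    3, 14, 6), (0, 3, 21, 4), (0, 3, 22, 6), (0, 4, 9, 3), (1, 0, 18, 3), (1, 0, 19, 6), (1, 0,
    20, 6), (1, 0, 21, 2), (1, 0, 23, 6), (1, 4, 5, 6), (1, 4, 6, 6), (1, 4, 7, 6), (1, 4, 17,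
    6), (1, 4, 18, 3), (2, 0, 8, 6), (2, 0, 15, 1), (2, 1, 0, 6), (2, 1, 1, 5), (2, 1, 4, 6),
    (2, 1, 10, 6), (2, 1, 11, 6), (2, 1, 12, 1), (2, 2, 1, 1), (2, 2, 2, 6), (2, 2, 3, 6)])
    (by decide +kernel)

theorem upper_3_5_26 : gameValue 3 5 26 ≤ 1 - 1 / (3 : ℕ) - 1 / (5 : ℕ) - 1 / (26 : ℕ) :=
  upper_of_checkTile (W := 780) (by norm_num) (by norm_num) (by norm_num) (l :=
    [(0, 2, 16, 11), (0, 2, 17, 30), (0, 2, 24, 30), (0, 2, 25, 30), (0, 3, 9, 27), (0, 3, 10,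
    30), (0, 3, 12, 26), (0, 3, 13, 30), (0, 3, 14, 30), (0, 3, 23, 13), (0, 4, 9, 3), (1, 0,
    20, 30), (1, 0, 21, 30), (1, 0, 22, 30), (1, 0, 23, 17), (1, 4, 0, 3), (1, 4, 5, 30), (1, 4,
    6, 30), (1, 4, 7, 30), (1, 4, 18, 30), (1, 4, 19, 30), (2, 0, 8, 30), (2, 0, 16, 19), (2, 1,
    0, 27), (2, 1, 1, 30), (2, 1, 2, 30), (2, 1, 3, 5), (2, 1, 11, 30), (2, 1, 12, 4), (2, 1,
    15, 30), (2, 2, 3, 25), (2, 2, 4, 30)])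
    (by decide +kernel)

theorem upper_3_5_27 : gameValue 3 5 27 ≤ 1 - 1 / (3 : ℕ) - 1 / (5 : ℕ) - 1 / (27 : ℕ) :=
  upper_of_checkTile (W := 270) (by norm_num) (by norm_num) (by norm_num) (l :=
    [(0, 2, 23, 9), (0, 2, 25, 10), (0, 2, 26, 10), (0, 3, 10, 10), (0, 3, 12, 4), (0, 3, 13,
    10), (0, 3, 14, 10), (0, 3, 15, 10), (0, 3, 24, 10), (0, 4, 16, 7), (1, 0, 18, 2), (1, 0,
    19, 10), (1, 0, 20, 10), (1, 0, 21, 10), (1, 0, 22, 10), (1, 0, 23, 1), (1, 4, 5, 10), (1,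
    4, 6, 9), (1, 4, 7, 10), (1, 4, 8, 10), (1, 4, 18, 8), (2, 0, 6, 1), (2, 0, 17, 10), (2, 1,
    0, 10), (2, 1, 1, 10), (2, 1, 2, 10), (2, 1, 3, 5), (2, 1, 11, 10), (2, 1, 12, 6), (2, 1,
    16, 3), (2, 2, 3, 5), (2, 2, 4, 10), (2, 2, 9, 10)])
    (by decide +kernel)

theorem upper_3_5_28 : gameValue 3 5 28 ≤ 1 - 1 / (3 : ℕ) - 1 / (5 : ℕ) - 1 / (28 : ℕ) :=
  upper_of_checkTile (W := 420) (by norm_num) (by norm_num) (by norm_num) (l :=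
    [(0, 2, 10, 6), (0, 2, 17, 6), (0, 2, 18, 15), (0, 2, 26, 10), (0, 2, 27, 15), (0, 3, 10, 9),
    (0, 3, 11, 15), (0, 3, 14, 15), (0, 3, 15, 15), (0, 3, 24, 15), (0, 3, 25, 15), (0, 4, 16,
    4), (1, 0, 20, 10), (1, 0, 21, 15), (1, 0, 22, 15), (1, 0, 23, 15), (1, 0, 26, 5), (1, 4, 5,
    15), (1, 4, 6, 15), (1, 4, 7, 15), (1, 4, 8, 15), (1, 4, 19, 15), (1, 4, 20, 5), (2, 0, 9,
    15), (2, 0, 17, 9), (2, 1, 0, 15), (2, 1, 1, 15), (2, 1, 2, 13), (2, 1, 12, 15), (2, 1, 13,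
    15), (2, 1, 16, 11), (2, 2, 2, 2), (2, 2, 3, 15), (2, 2, 4, 15)])
    (by decide +kernel)

theorem upper_3_5_29 : gameValue 3 5 29 ≤ 1 - 1 / (3 : ℕ) - 1 / (5 : ℕ) - 1 / (29 : ℕ) :=
  upper_of_checkTile (W := 435) (by norm_num) (by norm_num) (by norm_num) (l :=
    [(0, 2, 18, 7), (0, 2, 19, 15), (0, 2, 27, 15), (0, 2, 28, 15), (0, 3, 10, 15), (0, 3, 11,
    15), (0, 3, 14, 1), (0, 3, 15, 15), (0, 3, 16, 15), (0, 3, 25, 11), (0, 3, 26, 15), (0, 4,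
    17, 6), (1, 0, 21, 15), (1, 0, 22, 15), (1, 0, 23, 15), (1, 0, 24, 15), (1, 0, 25, 4), (1,
    4, 0, 6), (1, 4, 5, 15), (1, 4, 6, 15), (1, 4, 7, 15), (1, 4, 8, 15), (1, 4, 20, 15), (2, 0,
    9, 15), (2, 0, 18, 8), (2, 1, 0, 9), (2, 1, 1, 15), (2, 1, 2, 10), (2, 1, 12, 15), (2, 1,
    13, 15), (2, 1, 14, 14), (2, 1, 17, 9), (2, 2, 2, 5), (2, 2, 3, 15), (2, 2, 4, 15)])
    (by decide +kernel)

theorem upper_3_6_7 : gameValue 3 6 7 ≤ 1 - 1 / (3 : ℕ) - 1 / (6 : ℕ) - 1 / (7 : ℕ) :=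
  upper_of_checkTile (W := 42) (by norm_num) (by norm_num) (by norm_num) (l :=
    [(0, 2, 4, 4), (0, 2, 5, 1), (0, 3, 6, 3), (0, 5, 3, 4), (0, 5, 4, 2), (1, 0, 6, 1), (1, 1,
    5, 5), (1, 4, 1, 5), (1, 4, 6, 2), (1, 5, 1, 1), (2, 0, 2, 6), (2, 1, 3, 2), (2, 2, 0, 2),
    (2, 3, 0, 4)])
    (by decide +kernel)

theorem upper_3_7_8 : gameValue 3 7 8 ≤ 1 - 1 / (3 : ℕ) - 1 / (7 : ℕ) - 1 / (8 : ℕ) :=
  upper_of_checkTile (W := 168) (by norm_num) (by norm_num) (by norm_num) (l :=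
    [(0, 3, 5, 17), (0, 4, 3, 20), (0, 4, 7, 4), (0, 5, 4, 7), (0, 6, 4, 4), (0, 6, 5, 4), (1, 1,
    0, 2), (1, 1, 6, 21), (1, 5, 7, 17), (1, 6, 1, 16), (2, 0, 2, 14), (2, 0, 4, 10), (2, 1, 3,
    1), (2, 2, 0, 19), (2, 2, 1, 5), (2, 3, 2, 7)])
    (by decide +kernel)

theorem upper_3_7_10 : gameValue 3 7 10 ≤ 1 - 1 / (3 : ℕ) - 1 / (7 : ℕ) - 1 / (10 : ℕ) :=
  upper_of_checkTile (W := 210) (by norm_num) (by norm_num) (by norm_num) (l :=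
    [(0, 3, 6, 11), (0, 4, 4, 2), (0, 4, 8, 7), (0, 4, 9, 21), (0, 6, 4, 19), (0, 6, 6, 10), (1,
    0, 2, 4), (1, 0, 8, 5), (1, 1, 7, 21), (1, 1, 8, 9), (1, 5, 0, 11), (1, 5, 1, 2), (1, 5, 2,
    17), (1, 6, 0, 1), (2, 0, 3, 21), (2, 2, 0, 9), (2, 2, 5, 21), (2, 3, 1, 19)])
    (by decide +kernel)

theorem upper_3_7_11 : gameValue 3 7 11 ≤ 1 - 1 / (3 : ℕ) - 1 / (7 : ℕ) - 1 / (11 : ℕ) :=
  upper_of_checkTile (W := 462) (by norm_num) (by norm_num) (by norm_num) (l :=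
    [(0, 3, 7, 42), (0, 3, 8, 21), (0, 4, 4, 17), (0, 4, 8, 16), (0, 4, 10, 33), (0, 6, 4, 25),
    (1, 1, 8, 5), (1, 1, 9, 42), (1, 5, 1, 39), (1, 5, 2, 18), (1, 5, 10, 9), (1, 6, 0, 41), (2,
    0, 2, 24), (2, 0, 3, 42), (2, 1, 0, 1), (2, 1, 5, 18), (2, 2, 5, 24), (2, 2, 6, 42), (2, 3,
    1, 3)])
    (by decide +kernel)

theorem upper_3_7_13 : gameValue 3 7 13 ≤ 1 - 1 / (3 : ℕ) - 1 / (7 : ℕ) - 1 / (13 : ℕ) :=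
  upper_of_checkTile (W := 273) (by norm_num) (by norm_num) (by norm_num) (l :=
    [(0, 3, 8, 5), (0, 3, 12, 11), (0, 4, 5, 1), (0, 4, 6, 3), (0, 4, 10, 14), (0, 4, 11, 21),
    (0, 5, 8, 16), (0, 6, 5, 20), (1, 0, 3, 21), (1, 1, 9, 21), (1, 1, 10, 7), (1, 5, 0, 10),
    (1, 5, 2, 3), (1, 5, 12, 10), (1, 6, 1, 19), (2, 0, 2, 18), (2, 1, 0, 11), (2, 2, 6, 18),
    (2, 2, 7, 21), (2, 3, 1, 2), (2, 3, 4, 21)])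
    (by decide +kernel)

theorem upper_3_8_10 : gameValue 3 8 10 ≤ 1 - 1 / (3 : ℕ) - 1 / (8 : ℕ) - 1 / (10 : ℕ) :=
  upper_of_checkTile (W := 120) (by norm_num) (by norm_num) (by norm_num) (l :=
    [(0, 3, 6, 7), (0, 4, 8, 7), (0, 4, 9, 6), (0, 5, 4, 1), (0, 5, 5, 12), (0, 5, 8, 2), (0, 7,
    6, 5), (1, 1, 7, 12), (1, 1, 8, 3), (1, 6, 2, 9), (1, 6, 9, 6), (1, 7, 0, 10), (2, 0, 2, 3),
    (2, 0, 3, 12), (2, 2, 1, 4), (2, 2, 4, 11), (2, 3, 1, 8), (2, 4, 0, 2)])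
    (by decide +kernel)

theorem upper_3_8_11 : gameValue 3 8 11 ≤ 1 - 1 / (3 : ℕ) - 1 / (8 : ℕ) - 1 / (11 : ℕ) :=
  upper_of_checkTile (W := 264) (by norm_num) (by norm_num) (by norm_num) (l :=
    [(0, 3, 6, 15), (0, 3, 10, 4), (0, 4, 7, 24), (0, 4, 9, 7), (0, 5, 4, 19), (0, 5, 9, 14), (0,
    7, 4, 5), (1, 1, 8, 24), (1, 1, 9, 3), (1, 6, 2, 13), (1, 6, 10, 20), (1, 7, 0, 4), (1, 7,
    1, 24), (2, 0, 2, 9), (2, 0, 3, 24), (2, 1, 0, 6), (2, 2, 5, 24), (2, 2, 6, 9), (2, 3, 0,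
    14), (2, 4, 2, 2)])
    (by decide +kernel)

theorem upper_4_4_5 : gameValue 4 4 5 ≤ 1 - 1 / (4 : ℕ) - 1 / (4 : ℕ) - 1 / (5 : ℕ) :=
  upper_of_checkTile (W := 20) (by norm_num) (by norm_num) (by norm_num) (l :=
    [(0, 1, 3, 2), (0, 1, 4, 2), (0, 3, 2, 1), (1, 0, 3, 2), (1, 2, 0, 1), (1, 2, 4, 2), (2, 1,
    0, 1), (2, 3, 1, 4), (3, 0, 2, 3), (3, 2, 0, 2)])
    (by decide +kernel)

theorem upper_4_5_6 : gameValue 4 5 6 ≤ 1 - 1 / (4 : ℕ) - 1 / (5 : ℕ) - 1 / (6 : ℕ) :=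
  upper_of_checkTile (W := 60) (by norm_num) (by norm_num) (by norm_num) (l :=
    [(0, 2, 4, 6), (0, 2, 5, 6), (0, 3, 5, 1), (0, 4, 2, 2), (1, 0, 4, 4), (1, 3, 0, 8), (1, 3,
    5, 3), (2, 0, 2, 3), (2, 1, 0, 2), (2, 4, 1, 10), (3, 0, 2, 5), (3, 1, 3, 10)])
    (by decide +kernel)

theorem upper_4_5_7 : gameValue 4 5 7 ≤ 1 - 1 / (4 : ℕ) - 1 / (5 : ℕ) - 1 / (7 : ℕ) :=
  upper_of_checkTile (W := 140) (by norm_num) (by norm_num) (by norm_num) (l :=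
    [(0, 2, 5, 8), (0, 3, 2, 4), (0, 3, 3, 3), (0, 4, 3, 17), (0, 4, 4, 3), (1, 0, 5, 12), (1, 3,
    0, 1), (1, 3, 6, 20), (1, 4, 4, 2), (2, 0, 2, 16), (2, 1, 0, 13), (2, 4, 0, 6), (3, 1, 4,
    15), (3, 2, 1, 20)])
    (by decide +kernel)

theorem upper_4_5_9 : gameValue 4 5 9 ≤ 1 - 1 / (4 : ℕ) - 1 / (5 : ℕ) - 1 / (9 : ℕ) :=
  upper_of_checkTile (W := 360) (by norm_num) (by norm_num) (by norm_num) (l :=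
    [(0, 2, 6, 2), (0, 2, 7, 21), (0, 3, 3, 40), (0, 3, 8, 27), (1, 0, 5, 5), (1, 0, 8, 8), (1,
    3, 8, 5), (1, 4, 5, 34), (1, 4, 6, 38), (2, 0, 2, 40), (2, 0, 7, 19), (2, 1, 0, 31), (3, 1,
    4, 40), (3, 1, 5, 1), (3, 2, 0, 9), (3, 2, 1, 40)])
    (by decide +kernel)

end Pool.Agent.Lib.MP_d7a06f_lc
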